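import Pool.Agent.N888.TB.Bm2

/-!
# Adelic points in the Brauer-Manin set have rational values
-/

set_option autoImplicit false
set_option linter.unusedSectionVars false
set_option linter.unusedSimpArgs false

open scoped TensorProduct
open Matrix Module NumberField

namespace Pool.Agent.N888.TB

lemma norm_natCast_N (M : ℕ) : ‖((2 * 3 ^ M : ℕ) : ℚ_[3])‖ = (3 : ℝ) ^ (-(M : ℤ)) := by
  have h2 : ‖((2 : ℕ) : ℚ_[3])‖ = 1 := by
    rw [Padic.norm_natCast_eq_one_iff]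
    norm_num
  push_cast at h2 ⊢
  rw [norm_mul, norm_pow, h2, one_mul]
  have h3 : ‖(3 : ℚ_[3])‖ = (3 : ℝ)⁻¹ := by
    have := Padic.norm_p (p := 3)
    simpa using this
  rw [h3, _root_.zpow_neg, zpow_natCast, inv_pow]

lemma norm_natCast_N2 (M : ℕ) : ‖((2 * 3 ^ M : ℕ) : ℚ_[2])‖ = (2 : ℝ)⁻¹ := by
  have h2 : ‖((3 : ℕ) : ℚ_[2])‖ = 1 := by
    rw [Padic.norm_natCast_eq_one_iff]
    norm_num
  push_cast at h2 ⊢
  rw [norm_mul, norm_pow, h2, one_pow, mul_one]
  have := Padic.norm_p (p := 2)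
  simpa using this

theorem bm_rational {R : Type} [CommRing R] [Algebra ℚ R] (I : LocalInvariants) (P : AdelicPoint R) (f : Rˣ)
    (c : ℚ) (hc : c ≠ 0) (h : ∀ (p : ℕ) [Fact p.Prime], ‖P.fin p f‖ = ‖(c : ℚ_[p])‖) (hinf : 0 < P.inf f * c)
    (hP : InBrauerManinSet I P) : P.fin 3 f = c := by
  by_contra h3
  -- the units
  obtain ⟨u, hu⟩ : ∃ u : ∀ (p : ℕ) [Fact p.Prime], ℚ_[p], ∀ (p : ℕ) [Fact p.Prime], u p = P.fin p f / c :=
    ⟨fun p _ => P.fin p f / c, fun p _ => rfl⟩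
  have hcp : ∀ (p : ℕ) [Fact p.Prime], (c : ℚ_[p]) ≠ 0 := fun p _ => by exact_mod_cast hc
  have hu1 : ∀ (p : ℕ) [Fact p.Prime], ‖u p‖ = 1 := by
    intro p _
    rw [hu, norm_div, h, div_self]
    exact norm_ne_zero_iff.2 (hcp p)
  have hu3 : u 3 ≠ 1 := by
    intro h4
    apply h3
    rw [hu, div_eq_one_iff_eq (hcp 3)] at h4
    exact h4
  have hpos : 0 < ‖u 3 - 1‖ := norm_pos_iff.2 (sub_ne_zero.2 hu3)
  obtain ⟨M, hM⟩ : ∃ M : ℕ, (3 : ℝ) ^ (-((M + 1 : ℕ) : ℤ)) < ‖u 3 - 1‖ := by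
    obtain ⟨n, hn⟩ := exists_pow_lt_of_lt_one hpos (show (3 : ℝ)⁻¹ < 1 by norm_num)
    refine ⟨n, ?_⟩
    rw [_root_.zpow_neg, zpow_natCast, ← inv_pow]
    refine lt_of_le_of_lt ?_ hn
    exact pow_le_pow_of_le_one (by norm_num) (by norm_num) (Nat.le_succ n)
  obtain ⟨q, hq3, hqp, hq2', hq3'⟩ := exists_prime (u 2) (hu1 2) (u 3) (hu1 3) 3 (2 * M + 1) (by norm_num) (by omega)
  have hqf : Fact q.Prime := ⟨hqp⟩
  have : NeZero (3 ^ (M + 1)) := ⟨by positivity⟩
  obtain ⟨K, _, _, hK⟩ := exists_cyclo (3 ^ (M + 1))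
  have hgal : IsGalois ℚ K := IsCyclotomicExtension.isGalois {3 ^ (M + 1)} ℚ K
  obtain ⟨hN, σ, H⟩ := exists_gen M K
  -- the unit of `R`
  have hcq : c * q ≠ 0 := mul_ne_zero hc (by exact_mod_cast hqp.ne_zero)
  obtain ⟨a, ha⟩ : ∃ a : Rˣ, (a : R) = f * algebraMap ℚ R (c * q)⁻¹ := by
    refine ⟨f * Units.map (algebraMap ℚ R : ℚ →* R) (Units.mk0 (c * q)⁻¹ (inv_ne_zero hcq)), ?_⟩
    simp
  have haf : ∀ (p : ℕ) [Fact p.Prime], P.fin p a = u p / q := by
    intro p _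
    rw [ha, map_mul, hu]
    have h4 : P.fin p (algebraMap ℚ R (c * q)⁻¹) = (((c * q)⁻¹ : ℚ) : ℚ_[p]) := by
      rw [← RingHom.comp_apply]
      exact eq_ratCast _ _
    rw [h4]
    push_cast
    have hqp' : (q : ℚ_[p]) ≠ 0 := by exact_mod_cast hqp.ne_zero
    have := hcp p
    field_simp
  have hai : P.inf a = P.inf f * ((c * q : ℚ) : ℝ)⁻¹ := by
    rw [ha, map_mul]
    have h4 : P.inf (algebraMap ℚ R (c * q)⁻¹) = (((c * q)⁻¹ : ℚ) : ℝ) := by
      rw [← RingHom.comp_apply]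
      exact eq_ratCast _ _
    rw [h4]
    push_cast
    rfl
  refine not_in_of_one I H P a ⟨q, hqp⟩ ?_ ?_ ?_ hP
  · -- the real place
    have h4 : 0 < P.inf a := by
      rw [hai]
      push_cast
      have hq0 : (0 : ℝ) < q := by exact_mod_cast hqp.pos
      have h5 : P.inf f * ((c : ℝ) * q)⁻¹ = (P.inf f * c) * ((c : ℝ) ^ 2 * q)⁻¹ := by
        have : (c : ℝ) ≠ 0 := by exact_mod_cast hc
        field_simp
      rw [h5]
      have h6 : 0 < (c : ℝ) ^ 2 := by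
        have : (c : ℝ) ≠ 0 := by exact_mod_cast hc
        positivity
      positivity
    apply isNorm_of_pow H (s := (P.inf a) ^ (((2 * 3 ^ M : ℕ) : ℝ)⁻¹))
    rw [Real.rpow_inv_natCast_pow h4.le (NeZero.ne _)]
  · -- the place `q`
    apply not_isNorm (3 ^ (M + 1)) H q
    · intro h4
      have := (Nat.prime_dvd_prime_iff_eq hqp Nat.prime_three).1 (hqp.dvd_of_dvd_pow h4)
      omega
    · intro h4
      have h5 : ((q : ℕ) : ZMod (3 ^ (M + 1))) = ((1 : ℕ) : ZMod (3 ^ (M + 1))) := by simpa using h4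
      rw [ZMod.natCast_eq_natCast_iff] at h5
      have h6 := modEq_near 3 (M + 1) q 1 h5
      have h7 : u 3 - 1 = (u 3 - q) + (q - 1) := by ring
      have h8 : ‖u 3 - 1‖ ≤ (3 : ℝ) ^ (-((M + 1 : ℕ) : ℤ)) := by
        rw [h7]
        refine (IsUltrametricDist.norm_add_le_max _ _).trans (max_le (hq3'.trans ?_) ?_)
        · apply zpow_le_zpow_right₀ (by norm_num)
          push_cast
          omega
        · simpa using h6
      exact absurd hM (not_lt.2 h8)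
    · rw [haf, norm_div, hu1, Padic.norm_p, one_div, inv_inv]
  · -- the other places
    intro p hpq
    have hpq' : (p : ℕ) ≠ q := fun h4 => hpq (Subtype.ext h4)
    have hpf : Fact (p : ℕ).Prime := ⟨p.2⟩
    have hnq : ‖((q : ℕ) : ℚ_[(p : ℕ)])‖ = 1 := by
      rw [Padic.norm_natCast_eq_one_iff]
      exact (Nat.coprime_primes p.2 hqp).2 hpq'
    have hnq0 : ((q : ℕ) : ℚ_[(p : ℕ)]) ≠ 0 := by
      rw [← norm_pos_iff, hnq]
      exact one_pos
    have hdiv : ‖P.fin p a - 1‖ = ‖u p - q‖ := by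
      rw [haf]
      have h4 : u (p : ℕ) / q - 1 = (u p - q) / q := by field_simp
      rw [h4, norm_div, hnq, div_one]
    obtain ⟨p, hp⟩ := p
    simp only at *
    by_cases hp2 : p = 2
    · subst hp2
      obtain ⟨s, hs⟩ := root_near_one' (2 * 3 ^ M) (P.fin 2 a) (by
        rw [hdiv, norm_natCast_N2]
        refine hq2'.trans_lt ?_
        norm_num)
      exact isNorm_of_pow H hs
    by_cases hp3 : p = 3
    · subst hp3
      obtain ⟨s, hs⟩ := root_near_one' (2 * 3 ^ M) (P.fin 3 a) (by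
        rw [hdiv, norm_natCast_N, ← zpow_natCast, ← _root_.zpow_mul]
        refine hq3'.trans_lt ?_
        apply zpow_lt_zpow_right₀ (by norm_num)
        push_cast
        omega)
      exact isNorm_of_pow H hs
    · apply isNorm_of_unit (3 ^ (M + 1)) H p
      · intro h4
        exact hp3 ((Nat.prime_dvd_prime_iff_eq hp Nat.prime_three).1 (hp.dvd_of_dvd_pow h4))
      · intro h4
        rcases (Nat.Prime.dvd_mul hp).1 h4 with h4 | h4
        · exact hp2 ((Nat.prime_dvd_prime_iff_eq hp Nat.prime_two).1 h4)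
        · exact hp3 ((Nat.prime_dvd_prime_iff_eq hp Nat.prime_three).1 (hp.dvd_of_dvd_pow h4))
      · rw [haf, norm_div, hu1, hnq, div_one]

end Pool.Agent.N888.TB
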