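import Pool.Agent.N888.TB.Cv
import Pool.Agent.N888.TB.Bm3

/-!
# Rational and adelic points of `E ∖ E[2]`
-/

set_option autoImplicit false

open scoped TensorProduct
open Polynomial

namespace Pool.Agent.N888.TB

/-! ### no rational points -/

lemma sq_of_coprime_pos {a b c : ℤ} (ha : 0 < a) (h : IsCoprime a b) (heq : a * b = c ^ 2) : ∃ a0 : ℤ, a = a0 ^ 2 := by
  obtain ⟨a0, h1 | h1⟩ := Int.sq_of_isCoprime h heq
  · exact ⟨a0, h1⟩
  · exfalso
    nlinarith [sq_nonneg a0]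

/-- The only rational point on `y² = x³ + x` is `(0, 0)`. -/
theorem no_rational (x y : ℚ) (h : y ^ 2 = x ^ 3 + x) : y = 0 := by
  by_contra hy
  have hx0 : x ≠ 0 := by
    rintro rfl
    apply hy
    have : y ^ 2 = 0 := by rw [h]; ring
    exact pow_eq_zero_iff (two_ne_zero) |>.1 this
  have hxpos : 0 < x := by
    have h1 : 0 < y ^ 2 := by positivity
    have h2 : y ^ 2 = x * (x ^ 2 + 1) := by rw [h]; ring
    rw [h2] at h1
    exact (pos_iff_pos_of_mul_pos h1).2 (by positivity)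
  obtain ⟨a, ha⟩ : ∃ a : ℤ, a = x.num := ⟨_, rfl⟩
  obtain ⟨b, hb⟩ : ∃ b : ℤ, b = x.den := ⟨_, rfl⟩
  have ha0 : 0 < a := by rw [ha]; exact Rat.num_pos.2 hxpos
  have hb0 : 0 < b := by rw [hb]; exact_mod_cast x.den_pos
  have hxab : x = a / b := by
    rw [ha, hb]
    exact (Rat.num_div_den x).symm
  have hcop : IsCoprime a b := by
    rw [ha, hb, Int.isCoprime_iff_gcd_eq_one]
    have := x.reduced
    rwa [Nat.Coprime] at this
  have hbQ : (b : ℚ) ≠ 0 := by exact_mod_cast hb0.ne'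
  have hz : ((b : ℚ) ^ 2 * y) ^ 2 = ((a * b * (a ^ 2 + b ^ 2) : ℤ) : ℚ) := by
    push_cast
    rw [mul_pow, h, hxab]
    field_simp
  have hsq : IsSquare ((a * b * (a ^ 2 + b ^ 2) : ℤ) : ℚ) := ⟨(b : ℚ) ^ 2 * y, by rw [← hz]; ring⟩
  rw [Rat.isSquare_intCast_iff] at hsq
  obtain ⟨z, hz⟩ := hsq
  have hab : IsCoprime a (a ^ 2 + b ^ 2) := by
    have h1 : IsCoprime a (b ^ 2) := hcop.pow_right
    have h2 : IsCoprime a (b ^ 2 + a * a) := h1.add_mul_left_right a
    have h3 : b ^ 2 + a * a = a ^ 2 + b ^ 2 := by ring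
    rwa [h3] at h2
  have hba : IsCoprime b (a ^ 2 + b ^ 2) := by
    have h1 : IsCoprime b (a ^ 2) := hcop.symm.pow_right
    have h2 : IsCoprime b (a ^ 2 + b * b) := h1.add_mul_left_right b
    have h3 : a ^ 2 + b * b = a ^ 2 + b ^ 2 := by ring
    rwa [h3] at h2
  have hs0 : 0 < a ^ 2 + b ^ 2 := by positivity
  obtain ⟨u, hu⟩ := sq_of_coprime_pos (b := b * (a ^ 2 + b ^ 2)) (c := z) ha0 (hcop.mul_right hab) (by rw [← mul_assoc, hz]; ring)
  obtain ⟨v, hv⟩ := sq_of_coprime_pos (b := a * (a ^ 2 + b ^ 2)) (c := z) hb0 (hcop.symm.mul_right hba) (by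
    rw [show b * (a * (a ^ 2 + b ^ 2)) = a * b * (a ^ 2 + b ^ 2) by ring, hz]; ring)
  obtain ⟨w, hw⟩ := sq_of_coprime_pos (b := a * b) (c := z) hs0 ((hab.symm).mul_right hba.symm) (by
    rw [show (a ^ 2 + b ^ 2) * (a * b) = a * b * (a ^ 2 + b ^ 2) by ring, hz]; ring)
  have hu0 : u ≠ 0 := by
    rintro rfl
    rw [hu] at ha0
    simp at ha0
  have hv0 : v ≠ 0 := by
    rintro rfl
    rw [hv] at hb0
    simp at hb0
  apply not_fermat_42 hu0 hv0 (c := w)
  rw [← hw, hu, hv]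
  ring

/-! ### rational numbers with given norms -/

lemma exists_norms (S : Finset ℕ) (v : ℕ → ℤ) :
    ∃ c : ℚ, 0 < c ∧ ∀ (p : ℕ) [Fact p.Prime], ‖(c : ℚ_[p])‖ = if p ∈ S then (p : ℝ) ^ (v p) else 1 := by
  classical
  induction S using Finset.induction_on with
  | empty => exact ⟨1, one_pos, fun p _ => by simp⟩
  | insert q S hq ih =>
    obtain ⟨c, hc, h⟩ := ih
    by_cases hqp : q.Prime
    · have hqf : Fact q.Prime := ⟨hqp⟩
      refine ⟨c * (q : ℚ) ^ (-v q), mul_pos hc (zpow_pos (by exact_mod_cast hqp.pos) _), fun p hp => ?_⟩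
      rw [Rat.cast_mul, Rat.cast_zpow, Rat.cast_natCast, norm_mul, norm_zpow, h]
      by_cases hpq : p = q
      · subst hpq
        rw [if_neg hq, if_pos (Finset.mem_insert_self _ _), Padic.norm_p, one_mul, inv_zpow, ← zpow_neg, neg_neg]
      · have h1 : ‖((q : ℕ) : ℚ_[p])‖ = 1 := by
          rw [Padic.norm_natCast_eq_one_iff]
          exact (Nat.coprime_primes hp.out hqp).2 hpq
        rw [h1, one_zpow, mul_one]
        simp [hpq]
    · refine ⟨c, hc, fun p hp => ?_⟩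
      have hpq : p ≠ q := fun h => hqp (h ▸ hp.out)
      rw [h]
      simp [hpq]

/-- The values of a unit at an adelic point have the same absolute values as a rational number. -/
lemma exists_c {R : Type} [CommRing R] (P : AdelicPoint R) (f : Rˣ) :
    ∃ c : ℚ, c ≠ 0 ∧ (∀ (p : ℕ) [Fact p.Prime], ‖P.fin p f‖ = ‖(c : ℚ_[p])‖) ∧ 0 < P.inf f * c := by
  classical
  have hfin : ({p : ℕ | ∃ _ : Fact p.Prime, ¬ ‖P.fin p f‖ ≤ 1} ∪
      {p : ℕ | ∃ _ : Fact p.Prime, ¬ ‖P.fin p (↑f⁻¹ : R)‖ ≤ 1}).Finite := (P.integral _).union (P.integral _)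
  have hne : ∀ (p : ℕ) [Fact p.Prime], P.fin p f ≠ 0 := by
    intro p _
    have : IsUnit (P.fin p f) := f.isUnit.map (P.fin p)
    exact this.ne_zero
  obtain ⟨c, hc, h⟩ := exists_norms hfin.toFinset (fun p => if h : p.Prime then
    (haveI : Fact p.Prime := ⟨h⟩; -(P.fin p f).valuation) else 0)
  have hnorm : ∀ (p : ℕ) [Fact p.Prime], ‖P.fin p f‖ = ‖(c : ℚ_[p])‖ := by
    intro p hp
    rw [h]
    split_ifs with h1 h2
    · rw [Padic.norm_eq_zpow_neg_valuation (hne p)]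
    · exact absurd hp.out h2
    · rw [Set.Finite.mem_toFinset, Set.mem_union, not_or] at h1
      have h2 : ‖P.fin p f‖ ≤ 1 := by
        by_contra h3
        exact h1.1 ⟨hp, h3⟩
      have h3 : ‖P.fin p (↑f⁻¹ : R)‖ ≤ 1 := by
        by_contra h3
        exact h1.2 ⟨hp, h3⟩
      have h4 : ‖P.fin p f‖ * ‖P.fin p (↑f⁻¹ : R)‖ = 1 := by
        rw [← norm_mul, ← map_mul, Units.mul_inv, map_one, norm_one]
      nlinarith [norm_nonneg (P.fin p f), norm_nonneg (P.fin p (↑f⁻¹ : R))]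
  have hinf0 : P.inf f ≠ 0 := by
    have : IsUnit (P.inf f) := f.isUnit.map P.inf
    exact this.ne_zero
  rcases lt_or_gt_of_ne hinf0 with h1 | h1
  · refine ⟨-c, neg_ne_zero.2 hc.ne', ?_, ?_⟩
    · intro p _
      rw [hnorm, Rat.cast_neg, norm_neg]
    · have : (0 : ℝ) < c := by exact_mod_cast hc
      push_cast
      nlinarith
  · refine ⟨c, hc.ne', fun p _ => hnorm p, ?_⟩
    have : (0 : ℝ) < c := by exact_mod_cast hc
    positivity

/-- The Brauer-Manin set of `X` is empty. -/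
theorem bm_empty (I : LocalInvariants) (P : AdelicPoint CurveRing) : ¬ InBrauerManinSet I P := by
  intro hP
  obtain ⟨c, hc0, hc1, hc2⟩ := exists_c P unit_xR.unit
  obtain ⟨d, hd0, hd1, hd2⟩ := exists_c P unit_yR.unit
  have h1 := bm_rational I P unit_xR.unit c hc0 (fun p _ => hc1 p) hc2 hP
  have h2 := bm_rational I P unit_yR.unit d hd0 (fun p _ => hd1 p) hd2 hP
  simp only [IsUnit.unit_spec] at h1 h2
  have h3 := congrArg (P.fin 3) eqR
  rw [map_add, map_pow, map_pow, h1, h2] at h3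
  have h4 : d ^ 2 = c ^ 3 + c := by exact_mod_cast h3
  exact hd0 (no_rational c d h4)

end Pool.Agent.N888.TB
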