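import Pool.Agent.N888.TB.Cyc

/-!
# Cyclic algebras are Azumaya algebras
-/

set_option autoImplicit false
set_option linter.unusedSectionVars false
set_option linter.unusedSimpArgs false

open scoped TensorProduct
open Matrix Module

namespace Pool.Agent.N888.TB

section galois

variable {K : Type} [Field K] [Algebra ℚ K] {σ : K ≃ₐ[ℚ] K} {N : ℕ} [NeZero N]

/-- The powers of `σ` with exponents `0, …, N - 1` are all automorphisms, without repetition. -/
def Gen (σ : K ≃ₐ[ℚ] K) (N : ℕ) : Prop := Function.Bijective (fun i : Fin N => σ ^ (i : ℕ))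

variable [FiniteDimensional ℚ K] [IsGalois ℚ K]

omit [NeZero N] in
lemma Gen.finrank (H : Gen σ N) : finrank ℚ K = N := by
  have h1 := Nat.card_congr (Equiv.ofBijective _ H)
  rw [Nat.card_eq_fintype_card, Fintype.card_fin] at h1
  rw [← IsGalois.card_aut_eq_finrank, h1]

omit [NeZero N] in
lemma Gen.pow_N (H : Gen σ N) : σ ^ N = 1 := by
  have h1 := Nat.card_congr (Equiv.ofBijective _ H)
  rw [Nat.card_eq_fintype_card, Fintype.card_fin] at h1
  rw [h1]
  exact pow_card_eq_one'

omit [NeZero N] in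
lemma Gen.iter (H : Gen σ N) (x : K) : σ^[N] x = x := by
  rw [← AlgEquiv.coe_pow, H.pow_N]
  rfl

omit [NeZero N] in
lemma Gen.trace (H : Gen σ N) (x : K) :
    algebraMap ℚ K (Algebra.trace ℚ K x) = ∑ i : Fin N, (σ ^ (i : ℕ)) x := by
  rw [trace_eq_sum_automorphisms]
  exact ((Equiv.ofBijective _ H).sum_comp (fun τ : K ≃ₐ[ℚ] K => τ x)).symm

/-- a basis of `K` -/
noncomputable def bs (H : Gen σ N) : Basis (Fin N) ℚ K := finBasisOfFinrankEq ℚ K H.finrank

/-- the dual basis -/
noncomputable def bd (H : Gen σ N) : Basis (Fin N) ℚ K := (bs H).traceDual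

omit [NeZero N] in
lemma dual1 (H : Gen σ N) (i j : Fin N) :
    ∑ k, (σ ^ (i : ℕ)) (bs H k) * (σ ^ (j : ℕ)) (bd H k) = if i = j then 1 else 0 := by
  let A : Matrix (Fin N) (Fin N) K := fun i k => (σ ^ (i : ℕ)) (bs H k)
  let A' : Matrix (Fin N) (Fin N) K := fun k j => (σ ^ (j : ℕ)) (bd H k)
  have h1 : A' * A = 1 := by
    ext k l
    rw [Matrix.mul_apply, Matrix.one_apply]
    simp only [A, A']
    have h2 := H.trace (bd H k * bs H l)
    simp only [map_mul] at h2
    rw [← h2, bd, Basis.trace_traceDual_mul]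
    by_cases hkl : k = l
    · subst hkl; simp
    · rw [if_neg hkl, if_neg (fun h => hkl h.symm), map_zero]
  have h2 : A * A' = 1 := mul_eq_one_comm.1 h1
  have h3 := congrFun (congrFun h2 i) j
  rw [Matrix.mul_apply, Matrix.one_apply] at h3
  exact h3

variable (S : Type) [CommRing S] [Algebra ℚ S]

/-- The trace of `S ⊗ K` over `S`. -/
noncomputable def tr (K : Type) [Field K] [Algebra ℚ K] : S ⊗[ℚ] K →ₗ[S] S :=
  (TensorProduct.AlgebraTensorModule.rid ℚ S S).toLinearMap ∘ₗ (Algebra.trace ℚ K).baseChange S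

omit [FiniteDimensional ℚ K] [IsGalois ℚ K] in
lemma tr_tmul (s : S) (x : K) : tr S K (s ⊗ₜ x) = Algebra.trace ℚ K x • s := by
  simp [tr]

lemma tr_dual (H : Gen σ N) (e : S ⊗[ℚ] K) :
    ∑ k, tr S K (((1 : S) ⊗ₜ[ℚ] (bd H k)) * e) • ((1 : S) ⊗ₜ[ℚ] (bs H k)) = e := by
  induction e using TensorProduct.induction_on with
  | zero => simp
  | add x y hx hy =>
    simp only [mul_add, map_add, add_smul, Finset.sum_add_distrib]
    rw [hx, hy]
  | tmul s x =>
    simp only [Algebra.TensorProduct.tmul_mul_tmul, one_mul, tr_tmul]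
    have h1 : x = ∑ k, Algebra.trace ℚ K (bd H k * x) • bs H k := by
      conv_lhs => rw [← (bs H).sum_repr x]
      refine Finset.sum_congr rfl fun k _ => ?_
      congr 1
      conv_rhs => rw [← (bs H).sum_repr x, Finset.mul_sum, map_sum]
      simp only [mul_smul_comm, map_smul, bd, Basis.trace_traceDual_mul]
      simp
    conv_rhs => rw [h1, TensorProduct.tmul_sum]
    refine Finset.sum_congr rfl fun k _ => ?_
    rw [TensorProduct.tmul_smul, TensorProduct.smul_tmul', TensorProduct.smul_tmul', smul_eq_mul,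
      mul_one]

variable {S}

/-- the power `i` of `1 ⊗ σ`, for `i` in `Fin N` -/
noncomputable def sf (σ : K ≃ₐ[ℚ] K) (i : Fin N) : S ⊗[ℚ] K →ₐ[S] S ⊗[ℚ] K := sg σ S ^ (i : ℕ)

omit [NeZero N] [FiniteDimensional ℚ K] [IsGalois ℚ K] in
lemma sf_tmul (i : Fin N) (s : S) (x : K) : sf σ i (s ⊗ₜ x) = s ⊗ₜ (σ ^ (i : ℕ)) x := by
  rw [sf, ← sg_iter_eq, sg_iter_tmul, AlgEquiv.coe_pow]

omit [FiniteDimensional ℚ K] [IsGalois ℚ K] in
lemma sf_zero (e : S ⊗[ℚ] K) : sf σ (0 : Fin N) e = e := by
  rw [sf, Fin.val_zero, pow_zero]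
  rfl

lemma sf_succ (H : Gen σ N) (i : Fin N) (e : S ⊗[ℚ] K) : sf σ (i + 1) e = sg σ S (sf σ i e) := by
  by_cases h : i + 1 = 0
  · have h1 := fin_last_of_add_one_eq_zero h
    rw [h, sf_zero, sf, ← sg_iter_eq, ← Function.iterate_succ_apply' (⇑(sg σ S)),
      Nat.succ_eq_add_one, h1, sg_iter_N σ H.iter]
  · rw [sf, sf, fin_val_add_one h, pow_succ']
    rfl

lemma sf_add (H : Gen σ N) (i j : Fin N) (e : S ⊗[ℚ] K) : sf σ (i + j) e = sf σ i (sf σ j e) := by
  rw [sf, sf, sf, ← sg_iter_eq, ← sg_iter_eq, ← sg_iter_eq, ← Function.iterate_add_apply, Fin.val_add]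
  conv_rhs => rw [← Nat.div_add_mod (i.val + j.val) N, add_comm, Function.iterate_add_apply]
  congr 1
  have : ∀ n : ℕ, (sg σ S)^[N * n] e = e := by
    intro n
    induction n with
    | zero => rfl
    | succ n ih => rw [Nat.mul_succ, Function.iterate_add_apply, sg_iter_N σ H.iter, ih]
  exact (this _).symm

lemma sum_sf (H : Gen σ N) (e : S ⊗[ℚ] K) :
    ∑ i : Fin N, sf σ i e = algebraMap S (S ⊗[ℚ] K) (tr S K e) := by
  induction e using TensorProduct.induction_on with
  | zero => simp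
  | add x y hx hy => simp only [map_add, Finset.sum_add_distrib, hx, hy]
  | tmul s x =>
    simp only [sf_tmul, tr_tmul]
    rw [← TensorProduct.tmul_sum, ← H.trace, Algebra.TensorProduct.algebraMap_apply,
      Algebra.algebraMap_eq_smul_one, TensorProduct.tmul_smul, TensorProduct.smul_tmul']
    rfl

/-- The diagonal element `e` of the cyclic algebra. -/
noncomputable def dg (σ : K ≃ₐ[ℚ] K) (N : ℕ) [NeZero N] (e : S ⊗[ℚ] K) :
    Matrix (Fin N) (Fin N) (S ⊗[ℚ] K) := Matrix.diagonal fun i => sf σ i e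

lemma dg_mem (H : Gen σ N) (a : S) (e : S ⊗[ℚ] K) : dg σ N e ∈ cyc σ (N := N) a := by
  intro i j
  simp only [dg, Matrix.diagonal_apply, add_left_inj]
  by_cases h : i = j
  · subst h
    rw [if_pos rfl, if_pos rfl, sf_succ H, mul_comm]
  · rw [if_neg h, if_neg h, map_zero, zero_mul, mul_zero]

/-- The power `u ^ l`. -/
noncomputable def UU (K : Type) [Field K] [Algebra ℚ K] {N : ℕ} (a : S) (l : Fin N) :
    Matrix (Fin N) (Fin N) (S ⊗[ℚ] K) :=
  fun i j => if i = j + l then (if i < j then algebraMap S _ a else 1) else 0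

lemma UU_mem (H : Gen σ N) (a : S) (l : Fin N) : UU K a l ∈ cyc σ (N := N) a := by
  have h : UU K a l = mkc σ a (Pi.single l 1) := by
    funext i j
    simp only [UU, mkc]
    by_cases h1 : i = j + l
    · have h2 : i - j = l := by rw [h1]; abel
      rw [if_pos h1, h2, Pi.single_eq_same, sg_iter_one, one_mul]
    · have h2 : i - j ≠ l := fun h3 => h1 (by rw [← h3]; abel)
      rw [if_neg h1, Pi.single_eq_of_ne h2, sg_iter_zero, zero_mul]
  rw [h]
  exact mkc_mem σ H.iter a _

/-- The inverse of `u ^ l`. -/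
noncomputable def VV (K : Type) [Field K] [Algebra ℚ K] {N : ℕ} (a : Sˣ) (l : Fin N) :
    Matrix (Fin N) (Fin N) (S ⊗[ℚ] K) :=
  fun i j => if j = i + l then (if j < i then algebraMap S _ (↑a⁻¹ : S) else 1) else 0

lemma VV_mem (H : Gen σ N) (a : Sˣ) (l : Fin N) : VV K a l ∈ cyc σ (N := N) (a : S) := by
  have h : VV K a l = mkc σ (a : S) (Pi.single (-l) (if l = 0 then 1 else algebraMap S _ (↑a⁻¹ : S))) := by
    funext i j
    simp only [VV, mkc]
    by_cases h1 : j = i + l
    · have h2 : i - j = -l := by rw [h1]; abel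
      rw [if_pos h1, h2, Pi.single_eq_same]
      by_cases hl : l = 0
      · have h3 : j = i := by rw [h1, hl, add_zero]
        subst h3
        simp [hl, sg_iter_one]
      · have h3 : j ≠ i := fun h4 => hl (by rw [h4] at h1; exact left_eq_add.1 h1)
        rw [if_neg hl, sg_iter_algebraMap]
        by_cases h4 : j < i
        · rw [if_pos h4, if_neg (not_lt_of_gt h4), mul_one]
        · have h5 : i < j := lt_of_le_of_ne (not_lt.1 h4) (Ne.symm h3)
          rw [if_neg h4, if_pos h5, ← map_mul, Units.inv_mul, map_one]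
    · have h2 : i - j ≠ -l := fun h3 => h1 (by
        have : j = i - (i - j) := by abel
        rw [this, h3, sub_neg_eq_add])
      rw [if_neg h1, Pi.single_eq_of_ne h2, sg_iter_zero, zero_mul]
  rw [h]
  exact mkc_mem σ H.iter (a : S) _

/-- a diagonal of a matrix -/
def dp {N : ℕ} {E : Type} [Zero E] (l : Fin N) (M : Matrix (Fin N) (Fin N) E) :
    Matrix (Fin N) (Fin N) E := fun i j => if i = j + l then M i j else 0

/-- Averaging with the dual bases picks a diagonal. -/
lemma avg (H : Gen σ N) (M : Matrix (Fin N) (Fin N) (S ⊗[ℚ] K)) (l : Fin N) :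
    ∑ k, dg σ N ((1 : S) ⊗ₜ[ℚ] bs H k) * M * dg σ N (sf σ l ((1 : S) ⊗ₜ[ℚ] bd H k)) =
      dp l M := by
  funext i j
  rw [Matrix.sum_apply]
  simp only [dg, Matrix.diagonal_mul, Matrix.mul_diagonal, dp]
  have h1 : ∀ k, sf σ i ((1 : S) ⊗ₜ[ℚ] bs H k) * M i j * sf σ j (sf σ l ((1 : S) ⊗ₜ[ℚ] bd H k)) =
      ((1 : S) ⊗ₜ[ℚ] ((σ ^ (i : ℕ)) (bs H k) * (σ ^ ((j + l : Fin N) : ℕ)) (bd H k))) * M i j := by
    intro k
    rw [← sf_add H, sf_tmul, sf_tmul]
    rw [mul_right_comm, Algebra.TensorProduct.tmul_mul_tmul, one_mul]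
  simp only [h1]
  rw [← Finset.sum_mul, ← TensorProduct.tmul_sum, dual1]
  split_ifs
  · rw [← Algebra.TensorProduct.one_def, one_mul]
  · rw [TensorProduct.tmul_zero, zero_mul]

lemma diag_VV (H : Gen σ N) (a : Sˣ) {M : Matrix (Fin N) (Fin N) (S ⊗[ℚ] K)}
    (hM : M ∈ cyc σ (a : S)) (l : Fin N) :
    dp l M * VV K a l = dg σ N (sf σ (-l) (M l 0)) := by
  funext i j
  rw [Matrix.mul_apply]
  simp only [dp]
  rw [Finset.sum_eq_single (i - l)]
  · simp only [VV, sub_add_cancel, if_true, dg, Matrix.diagonal_apply]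
    by_cases h : i = j
    · subst h
      rw [if_pos rfl, if_pos rfl, eq_mkc σ hM]
      simp only [mkc, sub_zero]
      have h1 : i - (i - l) = l := by abel
      rw [h1, sg_iter_eq, ← sf_add H]
      have h2 : i + -l = i - l := by abel
      rw [h2, sf]
      have h0 : ¬ l < 0 := nlz l
      have h3 : (sg σ S)^[(0 : Fin N).val] (M l 0) = M l 0 := by rw [Fin.val_zero]; rfl
      by_cases h4 : i < i - l
      · rw [if_pos h4, if_pos h4, mul_assoc, ← map_mul, Units.mul_inv, map_one, mul_one,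
          if_neg h0, h3, mul_one]
      · rw [if_neg h4, if_neg h4, mul_one, mul_one, if_neg h0, h3, mul_one]
    · rw [if_neg h, if_neg (fun h' => h h'.symm), mul_zero]
  · intro k _ hk
    rw [if_neg (fun h => hk (by rw [h]; abel)), zero_mul]
  · intro h
    exact absurd (Finset.mem_univ _) h

lemma conj_sum (H : Gen σ N) (a : Sˣ) (e : S ⊗[ℚ] K) :
    ∑ s : Fin N, UU K (a : S) s * dg σ N e * VV K a s = tr S K e • (1 : Matrix (Fin N) (Fin N) (S ⊗[ℚ] K)) := by
  funext i j
  rw [Matrix.sum_apply, Matrix.smul_apply, Matrix.one_apply]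
  have h1 : ∀ s : Fin N, (UU K (a : S) s * dg σ N e * VV K a s) i j =
      if i = j then sf σ (i - s) e else 0 := by
    intro s
    rw [Matrix.mul_apply, Finset.sum_eq_single (i - s)]
    · simp only [dg, Matrix.mul_diagonal, UU, VV, sub_add_cancel, if_true]
      by_cases h : i = j
      · subst h
        rw [if_pos rfl, if_pos rfl]
        by_cases h4 : i < i - s
        · rw [if_pos h4, if_pos h4, mul_right_comm, ← map_mul, Units.mul_inv, map_one, one_mul]
        · rw [if_neg h4, if_neg h4, one_mul, mul_one]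
      · rw [if_neg (fun h' : j = i => h h'.symm), if_neg h, mul_zero]
    · intro k _ hk
      simp only [dg, Matrix.mul_diagonal, UU]
      rw [if_neg (fun h => hk (by rw [h]; abel)), zero_mul, zero_mul]
    · intro h
      exact absurd (Finset.mem_univ _) h
  simp only [h1]
  by_cases h : i = j
  · simp only [h, if_true]
    rw [← Algebra.algebraMap_eq_smul_one, ← sum_sf H]
    exact Equiv.sum_comp (Equiv.subLeft j) (fun s => sf σ s e)
  · simp only [h, if_false, Finset.sum_const_zero, smul_zero]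

/-- The expansion of an element of the cyclic algebra. -/
lemma expand (H : Gen σ N) (a : S) {M : Matrix (Fin N) (Fin N) (S ⊗[ℚ] K)} (hM : M ∈ cyc σ a) :
    M = ∑ l : Fin N, ∑ k, tr S K (((1 : S) ⊗ₜ[ℚ] (bd H k)) * sf σ (-l) (M l 0)) •
      (dg σ N ((1 : S) ⊗ₜ[ℚ] bs H k) * UU K a l) := by
  have h1 : ∀ l : Fin N, ∑ k, tr S K (((1 : S) ⊗ₜ[ℚ] (bd H k)) * sf σ (-l) (M l 0)) •
      (dg σ N ((1 : S) ⊗ₜ[ℚ] bs H k) * UU K a l) = dg σ N (sf σ (-l) (M l 0)) * UU K a l := by
    intro l
    conv_rhs => rw [← tr_dual S H (sf σ (-l) (M l 0))]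
    have h2 : dg σ N (∑ k, tr S K (((1 : S) ⊗ₜ[ℚ] (bd H k)) * sf σ (-l) (M l 0)) • ((1 : S) ⊗ₜ[ℚ] (bs H k))) =
        ∑ k, tr S K (((1 : S) ⊗ₜ[ℚ] (bd H k)) * sf σ (-l) (M l 0)) • dg σ N ((1 : S) ⊗ₜ[ℚ] (bs H k)) := by
      funext i j
      rw [Matrix.sum_apply]
      simp only [dg, Matrix.smul_apply, Matrix.diagonal_apply]
      by_cases h : i = j
      · simp only [h, if_true, map_sum, map_smul]
      · simp only [h, if_false, smul_zero, Finset.sum_const_zero]
    rw [h2, Finset.sum_mul]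
    simp only [smul_mul_assoc]
  simp only [h1]
  funext i j
  rw [Matrix.sum_apply, Finset.sum_eq_single (i - j)]
  · simp only [dg, Matrix.diagonal_mul, UU]
    have h2 : j + (i - j) = i := by abel
    have h3 : i + -(i - j) = j := by abel
    rw [h2, if_pos rfl, ← sf_add H, h3, sf, ← sg_iter_eq]
    exact congrFun (congrFun (eq_mkc σ hM) i) j
  · intro l _ hl
    simp only [dg, Matrix.diagonal_mul, UU]
    rw [if_neg (fun h => hl (by rw [h]; abel)), mul_zero]
  · intro h
    exact absurd (Finset.mem_univ _) h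

end galois

section azumaya

variable {K : Type} [Field K] [Algebra ℚ K] {σ : K ≃ₐ[ℚ] K} {N : ℕ} [NeZero N]
  [FiniteDimensional ℚ K] [IsGalois ℚ K] {S : Type} [CommRing S] [Algebra ℚ S]

/-- the diagonal element as an element of the cyclic algebra -/
noncomputable def dgc (H : Gen σ N) (a : S) (e : S ⊗[ℚ] K) : cyc σ (N := N) a := ⟨dg σ N e, dg_mem H a e⟩

noncomputable def UUc (H : Gen σ N) (a : S) (l : Fin N) : cyc σ (N := N) a := ⟨UU K a l, UU_mem H a l⟩

noncomputable def VVc (H : Gen σ N) (a : Sˣ) (l : Fin N) : cyc σ (N := N) (a : S) := ⟨VV K a l, VV_mem H a l⟩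

instance free_E : Module.Free S (S ⊗[ℚ] K) := Module.Free.of_basis (Algebra.TensorProduct.basis S (Basis.ofVectorSpace ℚ K))

instance finite_E : Module.Finite S (S ⊗[ℚ] K) := inferInstance

theorem free_cyc (H : Gen σ N) (a : S) : Module.Free S (cyc σ (N := N) a) :=
  Module.Free.of_equiv (colEquiv σ H.iter a)

theorem finite_cyc (H : Gen σ N) (a : S) : Module.Finite S (cyc σ (N := N) a) :=
  Module.Finite.equiv (colEquiv σ H.iter a)

open MulOpposite in
theorem surj (H : Gen σ N) (a : Sˣ) :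
    Function.Surjective (AlgHom.mulLeftRight S (cyc σ (N := N) (a : S))) := by
  set B := cyc σ (N := N) (a : S) with hB
  let I : Subalgebra S (Module.End S B) := (AlgHom.mulLeftRight S B).range
  have hL : ∀ b : B, LinearMap.mulLeft S b ∈ I := by
    intro b
    refine ⟨b ⊗ₜ op 1, ?_⟩
    ext x
    simp
  have hR : ∀ b : B, LinearMap.mulRight S b ∈ I := by
    intro b
    refine ⟨1 ⊗ₜ op b, ?_⟩
    ext x
    simp
  -- the functionals
  have key : ∀ (l k : Fin N) (b : B), ∃ f ∈ I, ∀ M : B,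
      f M = tr S K (((1 : S) ⊗ₜ[ℚ] (bd H k)) * sf σ (-l) (M.1 l 0)) • b := by
    intro l k b
    let f1 : Module.End S B := ∑ k, LinearMap.mulLeft S (dgc H (a : S) ((1 : S) ⊗ₜ[ℚ] bs H k)) *
      LinearMap.mulRight S (dgc H (a : S) (sf σ l ((1 : S) ⊗ₜ[ℚ] bd H k)))
    let f2 : Module.End S B := LinearMap.mulLeft S (dgc H (a : S) ((1 : S) ⊗ₜ[ℚ] bd H k)) *
      (LinearMap.mulRight S (VVc H a l) * f1)
    let f3 : Module.End S B := ∑ s : Fin N, LinearMap.mulLeft S (UUc H (a : S) s) *
      LinearMap.mulRight S (VVc H a s)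
    refine ⟨LinearMap.mulLeft S b * (f3 * f2), ?_, ?_⟩
    · refine mul_mem (hL _) (mul_mem ?_ (mul_mem (hL _) (mul_mem (hR _) ?_)))
      · exact sum_mem fun s _ => mul_mem (hL _) (hR _)
      · exact sum_mem fun s _ => mul_mem (hL _) (hR _)
    · intro M
      have e1 : (f1 M).1 = dp l M.1 := by
        rw [← avg H]
        simp only [f1, LinearMap.sum_apply, Module.End.mul_apply, LinearMap.mulLeft_apply,
          LinearMap.mulRight_apply, AddSubmonoidClass.coe_finsetSum, MulMemClass.coe_mul, dgc]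
        refine Finset.sum_congr rfl fun k _ => ?_
        rw [mul_assoc]
      have e2 : (f2 M).1 = dg σ N (((1 : S) ⊗ₜ[ℚ] bd H k) * sf σ (-l) (M.1 l 0)) := by
        simp only [f2, Module.End.mul_apply, LinearMap.mulLeft_apply,
          LinearMap.mulRight_apply, MulMemClass.coe_mul, e1]
        simp only [VVc]
        rw [diag_VV H a M.2]
        simp only [dgc, dg, Matrix.diagonal_mul_diagonal, map_mul]
      have e3 : ((f3 * f2) M).1 = tr S K (((1 : S) ⊗ₜ[ℚ] bd H k) * sf σ (-l) (M.1 l 0)) •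
          (1 : Matrix (Fin N) (Fin N) (S ⊗[ℚ] K)) := by
        rw [← conj_sum H a]
        simp only [f3, Module.End.mul_apply, LinearMap.sum_apply, LinearMap.mulLeft_apply,
          LinearMap.mulRight_apply, AddSubmonoidClass.coe_finsetSum, MulMemClass.coe_mul, e2]
        refine Finset.sum_congr rfl fun s _ => ?_
        simp only [UUc, VVc]
        rw [mul_assoc]
      have e4 : (f3 * f2) M = tr S K (((1 : S) ⊗ₜ[ℚ] bd H k) * sf σ (-l) (M.1 l 0)) • (1 : B) :=
        Subtype.ext e3
      rw [Module.End.mul_apply, e4, LinearMap.mulLeft_apply, mul_smul_comm, mul_one]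
  choose F hF1 hF2 using key
  intro φ
  have hφ : φ = ∑ l : Fin N, ∑ k : Fin N, F l k (φ (dgc H (a : S) ((1 : S) ⊗ₜ[ℚ] bs H k) * UUc H (a : S) l)) := by
    ext1 M
    have h1 : M = ∑ l : Fin N, ∑ k, tr S K (((1 : S) ⊗ₜ[ℚ] (bd H k)) * sf σ (-l) (M.1 l 0)) •
      (dgc H (a : S) ((1 : S) ⊗ₜ[ℚ] bs H k) * UUc H (a : S) l) := by
      apply Subtype.ext
      have := expand H (a : S) M.2
      simp only [AddSubmonoidClass.coe_finsetSum, SetLike.val_smul, MulMemClass.coe_mul, dgc, UUc]
      exact this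
    conv_lhs => rw [h1]
    simp only [map_sum, map_smul, LinearMap.sum_apply, hF2]
  have hφI : φ ∈ I := by
    rw [hφ]
    exact sum_mem fun l _ => sum_mem fun k _ => hF1 _ _ _
  exact hφI

theorem azumaya (H : Gen σ N) (a : Sˣ) : IsAzumaya S (cyc σ (N := N) (a : S)) := by
  have h1 := free_cyc H (a : S)
  have h2 := finite_cyc H (a : S)
  rcases subsingleton_or_nontrivial S with hS | hS
  · have h3 : Subsingleton (cyc σ (N := N) (a : S)) := Module.subsingleton S _
    exact
      { eq_of_smul_eq_smul := fun _ => Subsingleton.elim _ _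
        bij := ⟨fun x y _ => by
          have := Module.subsingleton S (cyc σ (N := N) (a : S) ⊗[S] (cyc σ (N := N) (a : S))ᵐᵒᵖ)
          exact Subsingleton.elim _ _, surj H a⟩ }
  · have hinj : Function.Injective (algebraMap S (cyc σ (N := N) (a : S))) := by
      intro s s' h
      have h3 := congrArg (fun M : cyc σ (N := N) (a : S) => M.1 0 0) h
      simp only [Subalgebra.coe_algebraMap, Matrix.algebraMap_matrix_apply, if_true] at h3
      have h4 : Function.Injective (algebraMap S (S ⊗[ℚ] K)) :=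
        FaithfulSMul.algebraMap_injective S (S ⊗[ℚ] K)
      exact h4 h3
    refine
      { eq_of_smul_eq_smul := fun {s s'} h => hinj ?_
        bij := ⟨?_, surj H a⟩ }
    · rw [Algebra.algebraMap_eq_smul_one, Algebra.algebraMap_eq_smul_one]
      exact h 1
    · let B := cyc σ (N := N) (a : S)
      have e1 : Module.finrank S (B ⊗[S] Bᵐᵒᵖ) = Module.finrank S (Module.End S B) := by
        rw [Module.finrank_tensorProduct, Module.finrank_linearMap,
          (MulOpposite.opLinearEquiv S (M := B)).finrank_eq]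
      obtain ⟨e⟩ := FiniteDimensional.nonempty_linearEquiv_of_finrank_eq e1
      have h3 : Function.Injective (e.symm.toLinearMap ∘ₗ (AlgHom.mulLeftRight S B).toLinearMap) := by
        apply OrzechProperty.injective_of_surjective_endomorphism
        exact e.symm.surjective.comp (surj H a)
      exact Function.Injective.of_comp h3

end azumaya

end Pool.Agent.N888.TB
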