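import Pool.Agent.N888.TB.Az

/-!
# Base change of cyclic algebras
-/

set_option autoImplicit false
set_option linter.unusedSectionVars false
set_option linter.unusedSimpArgs false

open scoped TensorProduct
open Matrix Module

namespace Pool.Agent.N888.TB

section bc

variable {K : Type} [Field K] [Algebra ℚ K] (σ : K ≃ₐ[ℚ] K) (N : ℕ) [NeZero N]
  (S S' : Type) [CommRing S] [Algebra ℚ S] [CommRing S'] [Algebra ℚ S'] [Algebra S S']
  [IsScalarTower ℚ S S']

/-- the map `S ⊗ K → S' ⊗ K` -/
noncomputable def emap (K : Type) [Field K] [Algebra ℚ K] : S ⊗[ℚ] K →ₐ[S] S' ⊗[ℚ] K :=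
  Algebra.TensorProduct.map (Algebra.ofId S S') (AlgHom.id ℚ K)

lemma emap_tmul (s : S) (x : K) : emap S S' K (s ⊗ₜ x) = algebraMap S S' s ⊗ₜ x := by
  simp [emap, Algebra.ofId_apply]

lemma emap_sg (e : S ⊗[ℚ] K) : emap S S' K (sg σ S e) = sg σ S' (emap S S' K e) := by
  induction e using TensorProduct.induction_on with
  | zero => simp
  | tmul s x => rw [sg_tmul, emap_tmul, emap_tmul, sg_tmul]
  | add x y hx hy => rw [map_add, map_add, hx, hy, map_add, map_add]

lemma emap_algebraMap (s : S) : emap S S' K (algebraMap S _ s) = algebraMap S' (S' ⊗[ℚ] K) (algebraMap S S' s) := by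
  rw [AlgHom.commutes, Algebra.TensorProduct.algebraMap_apply, Algebra.TensorProduct.algebraMap_apply]
  rfl

lemma emap_wt (a : S) (i : Fin N) : emap S S' K (wt N a i) = wt N (algebraMap S S' a) i := by
  simp only [wt]
  split_ifs
  · exact emap_algebraMap S S' a
  · exact map_one _

variable {N}

/-- the map of cyclic algebras -/
noncomputable def cmap (a : S) : cyc σ (N := N) a →ₐ[S] cyc σ (N := N) (algebraMap S S' a) where
  toFun M := ⟨M.1.map (emap S S' K), by
    intro i j
    have h := congrArg (emap S S' K) (M.2 i j)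
    rw [map_mul, map_mul, emap_wt, emap_wt, emap_sg] at h
    exact h⟩
  map_one' := by
    apply Subtype.ext
    exact Matrix.map_one _ (map_zero _) (map_one _)
  map_mul' M M' := by
    apply Subtype.ext
    exact Matrix.map_mul (f := (emap S S' K : S ⊗[ℚ] K →+* S' ⊗[ℚ] K))
  map_zero' := by
    apply Subtype.ext
    exact Matrix.map_zero _ (map_zero _)
  map_add' M M' := by
    apply Subtype.ext
    exact Matrix.map_add _ (map_add _) _ _
  commutes' s := by
    apply Subtype.ext
    funext i j
    simp only [Matrix.map_apply, Subalgebra.coe_algebraMap, Matrix.algebraMap_matrix_apply]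
    split_ifs
    · exact (emap S S' K).commutes s
    · exact map_zero _

/-- The base change map -/
noncomputable def bc (a : S) : S' ⊗[S] cyc σ (N := N) a →ₐ[S'] cyc σ (N := N) (algebraMap S S' a) :=
  Algebra.TensorProduct.lift (Algebra.ofId S' _) (cmap σ S S' a) (fun s M => by
    rw [Algebra.ofId_apply]
    exact Algebra.commutes _ _)

lemma bc_tmul (a : S) (s : S') (M : cyc σ (N := N) a) :
    bc σ S S' a (s ⊗ₜ M) = s • cmap σ S S' a M := by
  rw [bc, Algebra.TensorProduct.lift_tmul, Algebra.ofId_apply, Algebra.smul_def]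

end bc

section equiv

variable {K : Type} [Field K] [Algebra ℚ K] {σ : K ≃ₐ[ℚ] K} {N : ℕ} [NeZero N]
  [FiniteDimensional ℚ K] [IsGalois ℚ K]
  {S S' : Type} [CommRing S] [Algebra ℚ S] [CommRing S'] [Algebra ℚ S'] [Algebra S S']
  [IsScalarTower ℚ S S']

lemma emap_sf (i : Fin N) (e : S ⊗[ℚ] K) : emap S S' K (sf σ i e) = sf σ i (emap S S' K e) := by
  induction e using TensorProduct.induction_on with
  | zero => simp
  | tmul s x => rw [sf_tmul, emap_tmul, emap_tmul, sf_tmul]
  | add x y hx hy => rw [map_add, map_add, hx, hy, map_add, map_add]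

lemma cmap_gen (H : Gen σ N) (a : S) (k l : Fin N) :
    cmap σ S S' a (dgc H a ((1 : S) ⊗ₜ[ℚ] bs H k) * UUc H a l) =
      dgc H (algebraMap S S' a) ((1 : S') ⊗ₜ[ℚ] bs H k) * UUc H (algebraMap S S' a) l := by
  rw [map_mul]
  congr 1
  · apply Subtype.ext
    funext i j
    simp only [cmap, AlgHom.coe_mk, RingHom.coe_mk, MonoidHom.coe_mk, OneHom.coe_mk, dgc, dg, Matrix.map_apply,
      Matrix.diagonal_apply]
    split_ifs
    · rw [emap_sf, emap_tmul, map_one]
    · exact map_zero _
  · apply Subtype.ext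
    funext i j
    simp only [cmap, AlgHom.coe_mk, RingHom.coe_mk, MonoidHom.coe_mk, OneHom.coe_mk, UUc, UU, Matrix.map_apply]
    split_ifs
    · exact emap_algebraMap S S' a
    · exact map_one _
    · exact map_zero _

theorem bc_surjective (H : Gen σ N) (a : S) : Function.Surjective (bc σ (N := N) S S' a) := by
  intro M
  refine ⟨∑ l : Fin N, ∑ k, (tr S' K (((1 : S') ⊗ₜ[ℚ] (bd H k)) * sf σ (-l) (M.1 l 0))) ⊗ₜ[S]
      (dgc H a ((1 : S) ⊗ₜ[ℚ] bs H k) * UUc H a l), ?_⟩
  simp only [map_sum, bc_tmul, cmap_gen]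
  apply Subtype.ext
  have := expand H (algebraMap S S' a) M.2
  simp only [AddSubmonoidClass.coe_finsetSum, SetLike.val_smul, MulMemClass.coe_mul, dgc, UUc]
  exact this.symm

theorem bc_bijective [Nontrivial S'] (H : Gen σ N) (a : S) : Function.Bijective (bc σ (N := N) S S' a) := by
  have h1 := free_cyc H a
  have h2 := finite_cyc H a
  have h1' := free_cyc H (algebraMap S S' a)
  have h2' := finite_cyc H (algebraMap S S' a)
  have hS : Nontrivial S := (algebraMap S S').domain_nontrivial
  refine ⟨?_, bc_surjective H a⟩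
  have e1 : Module.finrank S' (S' ⊗[S] cyc σ (N := N) a) = Module.finrank S' (cyc σ (N := N) (algebraMap S S' a)) := by
    rw [Module.finrank_baseChange, ← (colEquiv σ H.iter a).finrank_eq,
      ← (colEquiv σ H.iter (algebraMap S S' a)).finrank_eq, Module.finrank_pi_fintype, Module.finrank_pi_fintype,
      Module.finrank_baseChange, Module.finrank_baseChange]
  obtain ⟨e⟩ := FiniteDimensional.nonempty_linearEquiv_of_finrank_eq e1
  have h3 : Function.Injective (e.symm.toLinearMap ∘ₗ (bc σ (N := N) S S' a).toLinearMap) := by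
    apply OrzechProperty.injective_of_surjective_endomorphism
    exact e.symm.surjective.comp (bc_surjective H a)
  exact Function.Injective.of_comp h3

/-- Base change of cyclic algebras. -/
noncomputable def bcEquiv [Nontrivial S'] (H : Gen σ N) (a : S) :
    S' ⊗[S] cyc σ (N := N) a ≃ₐ[S'] cyc σ (N := N) (algebraMap S S' a) :=
  AlgEquiv.ofBijective (bc σ (N := N) S S' a) (bc_bijective H a)

end equiv

end Pool.Agent.N888.TB
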