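import Mathlib

/-!
# Norms from cyclotomic fields modulo a prime number
-/

set_option autoImplicit false

open NumberField
open scoped Pointwise

namespace Pool.Agent.N888.TB

attribute [local instance] Ideal.Quotient.field

/-- Every residue class modulo `p ∤ m` is the class of the norm of an integer of `ℚ(ζ_m)`. -/
theorem exists_norm_mod (m : ℕ) [NeZero m] (K : Type) [Field K] [NumberField K]
    [hK : IsCyclotomicExtension {m} ℚ K] (p : ℕ) [hp : Fact p.Prime] (hpm : ¬ p ∣ m) (r : ℤ) :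
    ∃ α : 𝓞 K, (p : ℤ) ∣ Algebra.norm ℤ α - r := by
  classical
  have hgal : IsGalois ℚ K := IsCyclotomicExtension.isGalois {m} ℚ K
  have hmax : (Ideal.span {(p : ℤ)}).IsMaximal := by
    apply PrincipalIdealRing.isMaximal_of_irreducible
    exact (Nat.prime_iff_prime_int.1 hp.out).irreducible
  obtain ⟨P, hP, hPl⟩ := Ideal.exists_maximal_ideal_liesOver_of_isIntegral (S := 𝓞 K) (Ideal.span {(p : ℤ)})
  have hunder : P.under ℤ = Ideal.span {(p : ℤ)} := (hPl.over).symm
  have hmem : ∀ n : ℤ, algebraMap ℤ (𝓞 K) n ∈ P ↔ (p : ℤ) ∣ n := by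
    intro n
    rw [← Ideal.mem_comap, ← Ideal.under_def, hunder, Ideal.mem_span_singleton]
  have hP0 : P ≠ ⊥ := by
    rintro rfl
    have h1 := (hmem p).2 dvd_rfl
    rw [Ideal.mem_bot] at h1
    have h2 : (p : ℤ) = 0 := by
      apply FaithfulSMul.algebraMap_injective ℤ (𝓞 K)
      rw [h1, map_zero]
    exact hp.out.ne_zero (by exact_mod_cast h2)
  have hfin : Finite (𝓞 K ⧸ P) := Ring.HasFiniteQuotients.finiteQuotient hP0
  have hfin' : Finite (ℤ ⧸ Ideal.span {(p : ℤ)}) := Ring.HasFiniteQuotients.finiteQuotient (by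
    rw [Ne, Ideal.span_singleton_eq_bot]
    exact_mod_cast hp.out.ne_zero)
  let f : MulAction.stabilizer Gal(K/ℚ) P →* ((𝓞 K ⧸ P) ≃ₐ[ℤ ⧸ Ideal.span {(p : ℤ)}] (𝓞 K ⧸ P)) :=
    Ideal.Quotient.stabilizerHom P (Ideal.span {(p : ℤ)}) Gal(K/ℚ)
  have hfs : Function.Surjective f := Ideal.Quotient.stabilizerHom_surjective Gal(K/ℚ) (Ideal.span {(p : ℤ)}) P
  have hfi : Function.Injective f := by
    rw [← MonoidHom.ker_eq_bot_iff]
    have h1 : f.ker.map (Subgroup.subtype _) = P.inertia Gal(K/ℚ) :=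
      Ideal.Quotient.map_ker_stabilizer_subtype P (Ideal.span {(p : ℤ)}) Gal(K/ℚ)
    have h2 : Nat.card (P.inertia Gal(K/ℚ)) = 1 := by
      rw [Ideal.card_inertia_eq_ramificationIdxIn (Ideal.span {(p : ℤ)}) P,
        IsCyclotomicExtension.Rat.ramificationIdxIn_eq_of_not_dvd p K hpm]
    have h3 : P.inertia Gal(K/ℚ) = ⊥ := by
      rw [← Subgroup.card_eq_one]
      exact h2
    rw [h3, Subgroup.map_eq_bot_iff] at h1
    have h4 : (Subgroup.subtype (MulAction.stabilizer Gal(K/ℚ) P)).ker = ⊥ := by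
      rw [MonoidHom.ker_eq_bot_iff]
      exact Subtype.val_injective
    rw [h4] at h1
    exact le_bot_iff.1 h1
  obtain ⟨y, hy⟩ := FiniteField.norm_surjective (ℤ ⧸ Ideal.span {(p : ℤ)}) (𝓞 K ⧸ P)
    (Ideal.Quotient.mk _ r)
  obtain ⟨y0, rfl⟩ := Ideal.Quotient.mk_surjective y
  -- the Chinese remainder theorem
  obtain ⟨α, hα⟩ := IsDedekindDomain.exists_forall_sub_mem_ideal
    (s := Finset.univ.image (fun σ : Gal(K/ℚ) => σ • P)) (fun I => I) (fun _ => 1)
    (by
      intro I hI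
      obtain ⟨σ, -, rfl⟩ := Finset.mem_image.1 hI
      have h1 : (σ • P).IsPrime := inferInstance
      refine Ideal.prime_of_isPrime ?_ h1
      intro h2
      apply hP0
      have h3 := congrArg (fun J => σ⁻¹ • J) h2
      simpa using h3)
    (by
      intro I _ J _ hIJ
      exact hIJ)
    (fun I => if (I : Ideal (𝓞 K)) = P then y0 else 1)
  refine ⟨α, ?_⟩
  rw [← hmem, map_sub]
  have h1 : algebraMap ℤ (𝓞 K) (Algebra.norm ℤ α) = ∏ σ : Gal(K/ℚ), σ • α := by
    apply FaithfulSMul.algebraMap_injective (𝓞 K) K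
    rw [map_prod, ← IsScalarTower.algebraMap_apply, IsScalarTower.algebraMap_apply ℤ ℚ K]
    have h2 : algebraMap ℤ ℚ (Algebra.norm ℤ α) = Algebra.norm ℚ (α : K) := Algebra.coe_norm_int α
    rw [h2, Algebra.norm_eq_prod_automorphisms]
    rfl
  have h2 : Ideal.Quotient.mk P (∏ σ : Gal(K/ℚ), σ • α) = Ideal.Quotient.mk P (algebraMap ℤ (𝓞 K) r) := by
    rw [map_prod]
    have h3 : ∀ σ : Gal(K/ℚ), Ideal.Quotient.mk P (σ • α) =
        if h : σ ∈ MulAction.stabilizer Gal(K/ℚ) P then f ⟨σ, h⟩ (Ideal.Quotient.mk P y0) else 1 := by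
      intro σ
      split_ifs with h
      · have h4 := hα P (Finset.mem_image.2 ⟨1, Finset.mem_univ _, one_smul _ _⟩)
        rw [if_pos rfl, pow_one] at h4
        have h5 : Ideal.Quotient.mk P α = Ideal.Quotient.mk P y0 := Ideal.Quotient.eq.2 h4
        rw [← h5]
        rfl
      · have h4 := hα (σ⁻¹ • P) (Finset.mem_image.2 ⟨σ⁻¹, Finset.mem_univ _, rfl⟩)
        have h5 : σ⁻¹ • P ≠ P := by
          intro h6
          apply h
          rw [MulAction.mem_stabilizer_iff]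
          rw [← h6, smul_inv_smul, h6]
        rw [if_neg h5, pow_one] at h4
        rw [Ideal.mem_pointwise_smul_iff_inv_smul_mem, inv_inv, smul_sub, smul_one] at h4
        rw [← map_one (Ideal.Quotient.mk P)]
        exact Ideal.Quotient.eq.2 h4
    simp only [h3]
    have h6 := Algebra.norm_eq_prod_automorphisms (ℤ ⧸ Ideal.span {(p : ℤ)}) (Ideal.Quotient.mk P y0)
    rw [hy] at h6
    have h7 : algebraMap (ℤ ⧸ Ideal.span {(p : ℤ)}) (𝓞 K ⧸ P) (Ideal.Quotient.mk _ r) =
        Ideal.Quotient.mk P (algebraMap ℤ (𝓞 K) r) := rfl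
    rw [← h7, h6]
    have h8 : Fintype (MulAction.stabilizer Gal(K/ℚ) P) := Fintype.ofFinite _
    rw [← (Equiv.ofBijective f ⟨hfi, hfs⟩).prod_comp (fun τ => τ (Ideal.Quotient.mk P y0))]
    rw [Finset.prod_dite]
    simp only [Finset.prod_const_one, mul_one]
    refine Finset.prod_bij' (fun x _ => ⟨x.1, (Finset.mem_filter.1 x.2).2⟩)
      (fun x _ => ⟨x.1, Finset.mem_filter.2 ⟨Finset.mem_univ _, x.2⟩⟩) ?_ ?_ ?_ ?_ ?_
    · intro a _
      exact Finset.mem_univ _
    · intro a _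
      exact Finset.mem_univ _
    · intro a _
      rfl
    · intro a _
      rfl
    · intro a _
      rfl
  rw [← Ideal.Quotient.eq, h1, h2]

end Pool.Agent.N888.TB
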