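import Mathlib

/-!
# Valuations of norms from cyclotomic fields
-/

set_option autoImplicit false

open NumberField
open scoped Pointwise

namespace Pool.Agent.N888.TB

attribute [local instance] Ideal.Quotient.field

theorem dvd_val_absNorm (m : ℕ) [NeZero m] (K : Type) [Field K] [NumberField K]
    [hK : IsCyclotomicExtension {m} ℚ K] (q : ℕ) [hq : Fact q.Prime] (hqm : ¬ q ∣ m) (I : Ideal (𝓞 K)) (hI : I ≠ ⊥) :
    orderOf (q : ZMod m) ∣ padicValNat q (Ideal.absNorm I) := by
  revert hI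
  refine UniqueFactorizationMonoid.induction_on_prime I ?_ ?_ ?_
  · intro h
    exact absurd rfl h
  · intro I hI _
    rw [Ideal.isUnit_iff.1 hI, Ideal.absNorm_top, padicValNat.one]
    exact dvd_zero _
  · intro a P ha hP ih _
    have hP0 : P ≠ ⊥ := hP.ne_zero
    have hPp : P.IsPrime := Ideal.isPrime_of_prime hP
    have hPm : P.IsMaximal := hPp.isMaximal hP0
    have ha' : Ideal.absNorm a ≠ 0 := Ideal.absNorm_ne_zero_of_nonZeroDivisors ⟨a, mem_nonZeroDivisors_of_ne_zero ha⟩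
    have hP' : Ideal.absNorm P ≠ 0 := Ideal.absNorm_ne_zero_of_nonZeroDivisors ⟨P, mem_nonZeroDivisors_of_ne_zero hP0⟩
    rw [map_mul, padicValNat.mul hP' ha']
    refine dvd_add ?_ (ih ha)
    by_cases h1 : q ∣ Ideal.absNorm P
    · have hfin : Finite (𝓞 K ⧸ P) := Ring.HasFiniteQuotients.finiteQuotient hP0
      have := Fintype.ofFinite (𝓞 K ⧸ P)
      obtain ⟨ℓ, hℓ⟩ := CharP.exists (𝓞 K ⧸ P)
      obtain ⟨n, hℓp, hn⟩ := FiniteField.card (𝓞 K ⧸ P) ℓ
      have h2 : Ideal.absNorm P = ℓ ^ (n : ℕ) := by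
        rw [Ideal.absNorm_apply, Submodule.cardQuot_apply, Nat.card_eq_fintype_card, hn]
      have h3 : q = ℓ := by
        rw [h2] at h1
        exact (Nat.prime_dvd_prime_iff_eq hq.out hℓp).1 (hq.out.dvd_of_dvd_pow h1)
      subst h3
      have h4 : (q : 𝓞 K) ∈ P := by
        have h5 : ((q : ℕ) : 𝓞 K ⧸ P) = 0 := CharP.cast_eq_zero _ _
        rw [← map_natCast (Ideal.Quotient.mk P), Ideal.Quotient.eq_zero_iff_mem] at h5
        exact h5
      have hmax : (Ideal.span {(q : ℤ)}).IsMaximal := by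
        apply PrincipalIdealRing.isMaximal_of_irreducible
        exact (Nat.prime_iff_prime_int.1 hq.out).irreducible
      have h6 : P.LiesOver (Ideal.span {(q : ℤ)}) := by
        constructor
        refine hmax.eq_of_le ?_ ?_
        · exact (Ideal.IsPrime.under ℤ P).ne_top
        · rw [Ideal.span_singleton_le_iff_mem, Ideal.under_def, Ideal.mem_comap]
          simpa using h4
      rw [← Ideal.pow_inertiaDeg q (P := P), padicValNat.prime_pow,
        IsCyclotomicExtension.Rat.inertiaDeg_eq_of_not_dvd q K P hqm]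
    · rw [padicValNat.eq_zero_of_not_dvd h1]
      exact dvd_zero _

theorem dvd_val_norm (m : ℕ) [NeZero m] (K : Type) [Field K] [NumberField K]
    [hK : IsCyclotomicExtension {m} ℚ K] (q : ℕ) [hq : Fact q.Prime] (hqm : ¬ q ∣ m) (β : K) :
    (orderOf (q : ZMod m) : ℤ) ∣ padicValRat q (Algebra.norm ℚ β) := by
  have h1 : ∀ a : 𝓞 K, a ≠ 0 → (orderOf (q : ZMod m) : ℤ) ∣ padicValRat q (Algebra.norm ℚ (a : K)) := by
    intro a ha
    have h2 := dvd_val_absNorm m K q hqm (Ideal.span {a}) (by rwa [Ne, Ideal.span_singleton_eq_bot])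
    rw [Ideal.absNorm_span_singleton] at h2
    rw [← Algebra.coe_norm_int, padicValRat.of_int, padicValInt]
    exact_mod_cast h2
  by_cases hβ : β = 0
  · rw [hβ]
    have h2 : Algebra.norm ℚ (0 : K) = 0 := Algebra.norm_zero
    rw [h2]
    simp
  obtain ⟨a, b, hb, rfl⟩ := IsFractionRing.div_surjective (𝓞 K) β
  have hb0 : b ≠ 0 := nonZeroDivisors.ne_zero hb
  have ha0 : a ≠ 0 := by
    rintro rfl
    exact hβ (by simp)
  have hna : ∀ a : 𝓞 K, a ≠ 0 → Algebra.norm ℚ (a : K) ≠ 0 := by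
    intro a ha
    rw [Ne, Algebra.norm_eq_zero_iff]
    exact_mod_cast ha
  have h3 : Algebra.norm ℚ (algebraMap (𝓞 K) K a / algebraMap (𝓞 K) K b) = Algebra.norm ℚ (a : K) / Algebra.norm ℚ (b : K) := by
    have hb' : algebraMap (𝓞 K) K b ≠ 0 := by
      rw [Ne, FaithfulSMul.algebraMap_eq_zero_iff]
      exact hb0
    rw [eq_div_iff (hna b hb0), ← map_mul]
    congr 1
    exact div_mul_cancel₀ _ hb'
  rw [h3, padicValRat.div (hna a ha0) (hna b hb0)]
  exact dvd_sub (h1 a ha0) (h1 b hb0)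

end Pool.Agent.N888.TB
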