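import Pool.Agent.N888.TB.Sp2
import Pool.Agent.N888.TB.Nr
import Pool.Agent.N888.TB.Vl

/-!
# Local norms
-/

set_option autoImplicit false
set_option linter.unusedSectionVars false
set_option linter.unusedSimpArgs false

open scoped TensorProduct
open Matrix Module NumberField

namespace Pool.Agent.N888.TB

section form

variable {K : Type} [Field K] [Algebra ℚ K] {N : ℕ} (b : Basis (Fin N) ℚ K)

/-- the norm form -/
noncomputable def nf (F : Type) [Field F] [Algebra ℚ F] (x : Fin N → F) : F :=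
  Matrix.det (∑ j, x j • (Algebra.leftMulMatrix b (b j)).map (algebraMap ℚ F))

lemma leftMul_one_tmul' (F : Type) [Field F] [Algebra ℚ F] (a : K) :
    Algebra.leftMulMatrix (Algebra.TensorProduct.basis F b) ((1 : F) ⊗ₜ[ℚ] a) =
      (Algebra.leftMulMatrix b a).map (algebraMap ℚ F) := by
  ext i j
  rw [Algebra.leftMulMatrix_eq_repr_mul, Algebra.TensorProduct.basis_apply, Algebra.TensorProduct.tmul_mul_tmul, one_mul,
    Algebra.TensorProduct.basis_repr_tmul, Matrix.map_apply, Algebra.leftMulMatrix_eq_repr_mul]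
  simp

lemma norm_eq_nf (F : Type) [Field F] [Algebra ℚ F] (z : F ⊗[ℚ] K) :
    Algebra.norm F z = nf b F (fun j => (Algebra.TensorProduct.basis F b).repr z j) := by
  rw [Algebra.norm_eq_matrix_det (Algebra.TensorProduct.basis F b), nf]
  congr 1
  conv_lhs => rw [← (Algebra.TensorProduct.basis F b).sum_repr z]
  rw [map_sum]
  refine Finset.sum_congr rfl fun j _ => ?_
  rw [map_smul, Algebra.TensorProduct.basis_apply, leftMul_one_tmul']

include b in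
lemma norm_tmul' (F : Type) [Field F] [Algebra ℚ F] (a : K) :
    Algebra.norm F ((1 : F) ⊗ₜ[ℚ] a) = algebraMap ℚ F (Algebra.norm ℚ a) := by
  rw [Algebra.norm_eq_matrix_det (Algebra.TensorProduct.basis F b), leftMul_one_tmul',
    Algebra.norm_eq_matrix_det b, RingHom.map_det]
  rfl

lemma nf_rat (F : Type) [Field F] [Algebra ℚ F] (c : Fin N → ℚ) :
    nf b F (fun j => algebraMap ℚ F (c j)) = algebraMap ℚ F (Algebra.norm ℚ (∑ j, c j • b j)) := by
  rw [← norm_tmul' b, norm_eq_nf b]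
  congr 1
  funext i
  rw [Algebra.TensorProduct.basis_repr_tmul]
  simp only [Finsupp.smul_apply, one_smul, Finsupp.mapRange_apply, map_sum, map_smul, Basis.repr_self,
    Finsupp.coe_finsetSum, Finset.sum_apply, Finsupp.single_apply, smul_eq_mul, mul_ite, mul_one, mul_zero,
    Finset.sum_ite_eq', Finset.mem_univ, if_true]

lemma nf_continuous (p : ℕ) [Fact p.Prime] : Continuous (nf b ℚ_[p]) := by
  unfold nf
  fun_prop

include b in
/-- approximation -/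
lemma exists_norm_near (p : ℕ) [Fact p.Prime] (z : ℚ_[p] ⊗[ℚ] K) (hz : Algebra.norm ℚ_[p] z ≠ 0) :
    ∃ β : K, ‖((Algebra.norm ℚ β : ℚ) : ℚ_[p])‖ = ‖Algebra.norm ℚ_[p] z‖ := by
  have hd : DenseRange (fun q : Fin N → ℚ => fun j => ((q j : ℚ) : ℚ_[p])) :=
    DenseRange.piMap (fun _ => Padic.denseRange_ratCast p)
  obtain ⟨x0, hx0⟩ : ∃ x0 : Fin N → ℚ_[p], x0 = fun j => (Algebra.TensorProduct.basis ℚ_[p] b).repr z j := ⟨_, rfl⟩
  have h0 : Algebra.norm ℚ_[p] z = nf b ℚ_[p] x0 := by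
    rw [hx0]
    exact norm_eq_nf b ℚ_[p] z
  have hopen : IsOpen {x : Fin N → ℚ_[p] | ‖nf b ℚ_[p] x - nf b ℚ_[p] x0‖ < ‖nf b ℚ_[p] x0‖} := by
    apply isOpen_lt
    · exact ((nf_continuous b p).sub continuous_const).norm
    · exact continuous_const
  obtain ⟨q, hq⟩ := hd.exists_mem_open hopen ⟨x0, by
    simp only [Set.mem_ofPred_eq, sub_self, norm_zero, norm_pos_iff]
    rw [← h0]
    exact hz⟩
  refine ⟨∑ j, q j • b j, ?_⟩
  have h1 := nf_rat b ℚ_[p] q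
  simp only [eq_ratCast] at h1
  rw [← h1, h0]
  simp only [Set.mem_ofPred_eq] at hq
  have h2 : nf b ℚ_[p] (fun j => ((q j : ℚ) : ℚ_[p])) =
      (nf b ℚ_[p] (fun j => ((q j : ℚ) : ℚ_[p])) - nf b ℚ_[p] x0) + nf b ℚ_[p] x0 := by ring
  rw [h2, IsUltrametricDist.norm_add_eq_max_of_norm_ne_norm hq.ne]
  exact max_eq_right hq.le

end form

section loc

variable {K : Type} [Field K] [Algebra ℚ K] {σ : K ≃ₐ[ℚ] K} {N : ℕ} [NeZero N]
  [FiniteDimensional ℚ K] [IsGalois ℚ K]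

omit [NeZero N] in
lemma Gen.norm (H : Gen σ N) (x : K) :
    ∏ i : Fin N, (σ ^ (i : ℕ)) x = algebraMap ℚ K (Algebra.norm ℚ x) := by
  rw [Algebra.norm_eq_prod_automorphisms]
  exact (Equiv.ofBijective _ H).prod_comp (fun τ : K ≃ₐ[ℚ] K => τ x)

lemma prod_sf_tmul (H : Gen σ N) {k : Type} [Field k] [Algebra ℚ k] (s : k) (x : K) :
    ∏ i : Fin N, sf σ i (s ⊗ₜ[ℚ] x) = algebraMap k (k ⊗[ℚ] K) (s ^ N * algebraMap ℚ k (Algebra.norm ℚ x)) := by
  have h1 : ∀ i : Fin N, sf σ i (s ⊗ₜ[ℚ] x) = (s ⊗ₜ[ℚ] (1 : K)) * ((1 : k) ⊗ₜ[ℚ] ((σ ^ (i : ℕ)) x)) := by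
    intro i
    rw [sf_tmul, Algebra.TensorProduct.tmul_mul_tmul, one_mul, mul_one]
  simp only [h1]
  rw [Finset.prod_mul_distrib, Finset.prod_const, Finset.card_univ, Fintype.card_fin]
  have h4 := map_prod (Algebra.TensorProduct.includeRight : K →ₐ[ℚ] k ⊗[ℚ] K) (fun i : Fin N => (σ ^ (i : ℕ)) x) Finset.univ
  simp only [Algebra.TensorProduct.includeRight_apply] at h4
  rw [← h4, H.norm, map_mul, map_pow, Algebra.TensorProduct.algebraMap_apply, Algebra.algebraMap_self, RingHom.id_apply]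
  congr 1
  rw [Algebra.TensorProduct.algebraMap_apply, Algebra.algebraMap_self, RingHom.id_apply,
    Algebra.algebraMap_eq_smul_one, Algebra.algebraMap_eq_smul_one, TensorProduct.tmul_smul, TensorProduct.smul_tmul']

lemma isNorm_of_pow (H : Gen σ N) {k : Type} [Field k] [Algebra ℚ k] {w s : k} (h : w = s ^ N) :
    ∃ z : k ⊗[ℚ] K, ∏ i : Fin N, sf σ i z = algebraMap k (k ⊗[ℚ] K) w := by
  refine ⟨s ⊗ₜ 1, ?_⟩
  rw [prod_sf_tmul H, h, map_one, map_one, mul_one]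

lemma norm_sf (H : Gen σ N) {k : Type} [Field k] [Algebra ℚ k] (i : Fin N) (z : k ⊗[ℚ] K) :
    Algebra.norm k (sf σ i z) = Algebra.norm k z := by
  have hinj : Function.Bijective (sf (S := k) σ i) := by
    constructor
    · intro x y h
      have h1 := congrArg (sf σ (-i)) h
      rwa [← sf_add H, ← sf_add H, neg_add_cancel, sf_zero, sf_zero] at h1
    · intro x
      refine ⟨sf σ (-i) x, ?_⟩
      rw [← sf_add H, add_neg_cancel, sf_zero]
  exact Algebra.norm_eq_of_algEquiv (AlgEquiv.ofBijective (sf (S := k) σ i) hinj) z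

/-- the norm of an element with product of conjugates `w` -/
lemma norm_pow_eq (H : Gen σ N) {k : Type} [Field k] [Algebra ℚ k] {w : k} {z : k ⊗[ℚ] K}
    (hz : ∏ i : Fin N, sf σ i z = algebraMap k (k ⊗[ℚ] K) w) : Algebra.norm k z ^ N = w ^ N := by
  have h1 := congrArg (Algebra.norm k) hz
  rw [map_prod] at h1
  simp only [norm_sf H] at h1
  rw [Finset.prod_const, Finset.card_univ, Fintype.card_fin, Algebra.norm_algebraMap, finrank_E H] at h1
  exact h1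

/-- a number near `1` is an `n`-th power -/
lemma root_near_one {p : ℕ} [Fact p.Prime] (n : ℕ) (e : ℤ_[p]) (he : ‖e‖ < ‖((n : ℕ) : ℤ_[p])‖ ^ 2) :
    ∃ z : ℤ_[p], z ^ n = 1 + e := by
  have h := hensels_lemma (p := p) (R := ℤ_[p]) (F := Polynomial.X ^ n - Polynomial.C (1 + e)) (a := 1) (by
    simp only [map_sub, map_pow, Polynomial.aeval_X, Polynomial.aeval_C, Polynomial.derivative_sub,
      Polynomial.derivative_X_pow, Polynomial.derivative_C, sub_zero,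
      map_mul, map_natCast, Algebra.algebraMap_self, RingHom.id_apply, one_pow, mul_one]
    rw [show (1 : ℤ_[p]) - (1 + e) = -e by ring, norm_neg]
    exact he)
  obtain ⟨z, hz, -⟩ := h
  refine ⟨z, ?_⟩
  simp only [map_sub, map_pow, Polynomial.aeval_X, Polynomial.aeval_C, Algebra.algebraMap_self, RingHom.id_apply] at hz
  linear_combination hz

lemma root_near_one' {p : ℕ} [Fact p.Prime] (n : ℕ) (w : ℚ_[p]) (hw : ‖w - 1‖ < ‖((n : ℕ) : ℚ_[p])‖ ^ 2) :
    ∃ z : ℚ_[p], w = z ^ n := by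
  have hn1 : ‖((n : ℕ) : ℚ_[p])‖ ^ 2 ≤ 1 := by
    apply pow_le_one₀ (norm_nonneg _)
    have := Padic.norm_int_le_one (p := p) (n : ℤ)
    simpa using this
  have he2 : ‖w - 1‖ < 1 := hw.trans_le hn1
  obtain ⟨e', he'⟩ : ∃ e' : ℤ_[p], (e' : ℚ_[p]) = w - 1 := ⟨⟨w - 1, he2.le⟩, rfl⟩
  have he3 : ‖e'‖ < ‖((n : ℕ) : ℤ_[p])‖ ^ 2 := by
    have h2 : ‖((n : ℕ) : ℤ_[p])‖ = ‖((n : ℕ) : ℚ_[p])‖ := by
      rw [PadicInt.norm_def]
      simp
    rw [h2, PadicInt.norm_def, he']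
    exact hw
  obtain ⟨z, hz⟩ := root_near_one n _ he3
  have hz' : (z : ℚ_[p]) ^ n = 1 + (w - 1) := by
    have := congrArg (fun w : ℤ_[p] => (w : ℚ_[p])) hz
    simpa [he'] using this
  exact ⟨z, by rw [hz']; ring⟩

end loc

section cyclo

variable {K : Type} [Field K] [NumberField K] [IsGalois ℚ K] {σ : K ≃ₐ[ℚ] K} {N : ℕ} [NeZero N]

/-- Units are norms from unramified extensions. -/
theorem isNorm_of_unit (m : ℕ) [NeZero m] [IsCyclotomicExtension {m} ℚ K] (H : Gen σ N)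
    (p : ℕ) [hp : Fact p.Prime] (hpm : ¬ p ∣ m) (hpN : ¬ p ∣ N) (w : ℚ_[p]) (hw : ‖w‖ = 1) :
    ∃ z : ℚ_[p] ⊗[ℚ] K, ∏ i : Fin N, sf σ i z = algebraMap ℚ_[p] (ℚ_[p] ⊗[ℚ] K) w := by
  obtain ⟨w', hw'⟩ : ∃ w' : ℤ_[p], (w' : ℚ_[p]) = w := ⟨⟨w, hw.le⟩, rfl⟩
  obtain ⟨r, hr⟩ : ∃ r : ℤ, ‖w - r‖ < 1 := by
    refine ⟨w'.zmodRepr, ?_⟩
    have h1 : w' - (w'.zmodRepr : ℤ_[p]) ∈ IsLocalRing.maximalIdeal ℤ_[p] := PadicInt.sub_zmodRepr_mem w'
    rw [PadicInt.maximalIdeal_eq_span_p, Ideal.mem_span_singleton] at h1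
    have h2 : ‖w' - (w'.zmodRepr : ℤ_[p])‖ < 1 := by
      rw [PadicInt.norm_lt_one_iff_dvd]
      exact h1
    rw [PadicInt.norm_def] at h2
    simpa [hw'] using h2
  have hr1 : ‖((r : ℤ) : ℚ_[p])‖ = 1 := by
    have h1 : ((r : ℤ) : ℚ_[p]) = w + -(w - r) := by ring
    rw [h1, IsUltrametricDist.norm_add_eq_max_of_norm_ne_norm, norm_neg, hw]
    · exact max_eq_left hr.le
    · rw [norm_neg, hw]
      exact hr.ne'
  obtain ⟨α, hα⟩ := exists_norm_mod m K p hpm r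
  have h3 : ‖((Algebra.norm ℤ α : ℤ) : ℚ_[p]) - (r : ℤ)‖ < 1 := by
    have h4 := (Padic.norm_intCast_lt_one_iff (p := p) (k := Algebra.norm ℤ α - r)).2 hα
    simpa using h4
  obtain ⟨ν, hν⟩ : ∃ ν : ℚ_[p], ν = ((Algebra.norm ℤ α : ℤ) : ℚ_[p]) := ⟨_, rfl⟩
  rw [← hν] at h3
  have hν1 : ‖ν‖ = 1 := by
    have h1 : ν = (ν - r) + r := by ring
    rw [h1, IsUltrametricDist.norm_add_eq_max_of_norm_ne_norm, hr1]
    · exact max_eq_right h3.le
    · rw [hr1]
      exact h3.ne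
  have hν0 : ν ≠ 0 := by
    rw [← norm_pos_iff, hν1]
    exact one_pos
  have h5 : ‖w / ν - 1‖ < 1 := by
    have h6 : w / ν - 1 = (w - ν) / ν := by field_simp
    rw [h6, norm_div, hν1, div_one]
    have h7 : w - ν = (w - r) + -(ν - r) := by ring
    rw [h7]
    refine (IsUltrametricDist.norm_add_le_max _ _).trans_lt ?_
    rw [norm_neg]
    exact max_lt hr h3
  have hN1 : ‖((N : ℕ) : ℚ_[p])‖ = 1 := by
    have h6 : ¬ ‖((N : ℤ) : ℚ_[p])‖ < 1 := by
      rw [Padic.norm_intCast_lt_one_iff]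
      exact_mod_cast hpN
    have h7 := Padic.norm_int_le_one (p := p) (N : ℤ)
    have h8 : ‖((N : ℤ) : ℚ_[p])‖ = 1 := le_antisymm h7 (not_lt.1 h6)
    simpa using h8
  obtain ⟨s, hs⟩ := root_near_one' N (w / ν) (by rw [hN1, one_pow]; exact h5)
  refine ⟨s ⊗ₜ (α : K), ?_⟩
  rw [prod_sf_tmul H, ← hs]
  congr 1
  rw [← Algebra.coe_norm_int]
  have h6 : algebraMap ℚ ℚ_[p] ((Algebra.norm ℤ α : ℤ) : ℚ) = ν := by
    rw [hν]
    simp
  rw [h6]
  field_simp

/-- A `q`-adic norm has a valuation divisible by the residue class degree. -/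
theorem not_isNorm (m : ℕ) [NeZero m] [IsCyclotomicExtension {m} ℚ K] (H : Gen σ N)
    (q : ℕ) [hq : Fact q.Prime] (hqm : ¬ q ∣ m) (hq1 : (q : ZMod m) ≠ 1) (w : ℚ_[q]) (hw : ‖w‖ = q) :
    ¬ ∃ z : ℚ_[q] ⊗[ℚ] K, ∏ i : Fin N, sf σ i z = algebraMap ℚ_[q] (ℚ_[q] ⊗[ℚ] K) w := by
  rintro ⟨z, hz⟩
  have h1 := congrArg (fun x => ‖x‖) (norm_pow_eq H hz)
  simp only [norm_pow] at h1
  have h2 : ‖Algebra.norm ℚ_[q] z‖ = ‖w‖ := (pow_left_inj₀ (norm_nonneg _) (norm_nonneg _) (NeZero.ne N)).1 h1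
  have hq0 : (0 : ℝ) < q := by exact_mod_cast hq.out.pos
  have h3 : Algebra.norm ℚ_[q] z ≠ 0 := by
    rw [← norm_pos_iff, h2, hw]
    exact hq0
  obtain ⟨β, hβ⟩ := exists_norm_near (bs H) q z h3
  rw [h2, hw] at hβ
  have hd := dvd_val_norm m K q hqm β
  have hβ0 : Algebra.norm ℚ β ≠ 0 := by
    intro h0
    rw [h0, Rat.cast_zero, norm_zero] at hβ
    exact hq0.ne hβ
  have h4 : padicValRat q (Algebra.norm ℚ β) = -1 := by
    have h5 := Padic.eq_padicNorm (p := q) (Algebra.norm ℚ β)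
    rw [hβ] at h5
    have h6 : padicNorm q (Algebra.norm ℚ β) = q := by exact_mod_cast h5.symm
    rw [padicNorm.eq_zpow_of_nonzero hβ0] at h6
    have h7 : (q : ℚ) ^ (-padicValRat q (Algebra.norm ℚ β)) = (q : ℚ) ^ (1 : ℤ) := by rw [h6, zpow_one]
    have h8 := zpow_right_injective₀ (a := (q : ℚ)) (by exact_mod_cast hq.out.pos)
      (by exact_mod_cast hq.out.one_lt.ne') h7
    linarith
  rw [h4] at hd
  have h5 : (orderOf (q : ZMod m) : ℤ) ∣ 1 := by simpa using hd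
  have h6 : orderOf (q : ZMod m) = 1 := by exact_mod_cast Int.eq_one_of_dvd_one (by positivity) h5
  rw [orderOf_eq_one_iff] at h6
  exact hq1 h6

end cyclo

end Pool.Agent.N888.TB
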