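import Pool.Agent.N888.TB.Def
import Pool.Agent.N888.TB.Bc
import Pool.Agent.N888.TB.Lc

/-!
# An adelic point at which the values of an invertible function do not come from a rational number
is not in the Brauer-Manin set
-/

set_option autoImplicit false
set_option linter.unusedSectionVars false
set_option linter.unusedSimpArgs false

open scoped TensorProduct
open Matrix Module NumberField

namespace Pool.Agent.N888.TB

section local_

variable {K : Type} [Field K] [Algebra ℚ K] {σ : K ≃ₐ[ℚ] K} {N : ℕ} [NeZero N]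
  [FiniteDimensional ℚ K] [IsGalois ℚ K] {R : Type} [CommRing R] [Algebra ℚ R]

/-- `w` is a norm -/
def IsNm (σ : K ≃ₐ[ℚ] K) (N : ℕ) [NeZero N] {k : Type} [Field k] [Algebra ℚ k] (w : k) : Prop :=
  ∃ z : k ⊗[ℚ] K, ∏ i : Fin N, sf σ i z = algebraMap k (k ⊗[ℚ] K) w

lemma atFin_eq_zero (I : LocalInvariants) (H : Gen σ N) (p : ℕ) [Fact p.Prime] (P : R →+* ℚ_[p]) (a : Rˣ) :
    I.atFin p P (cyc σ (N := N) (a : R)) = 0 ↔ IsNm σ N (P a) := by
  letI := P.toAlgebra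
  have : IsScalarTower ℚ R ℚ_[p] := IsScalarTower.of_algebraMap_eq' (Subsingleton.elim _ _)
  have hsplit := split_iff (k := ℚ_[p]) H (w := P a) (by
    have : IsUnit (P a) := a.isUnit.map P
    exact this.ne_zero)
  have e : ℚ_[p] ⊗[R] cyc σ (N := N) (a : R) ≃ₐ[ℚ_[p]] cyc σ (N := N) (P a) := bcEquiv (S' := ℚ_[p]) H (a : R)
  have haz' : IsAzumaya ℚ_[p] (cyc σ (N := N) (P a)) := azumaya H (Units.map (P : R →* ℚ_[p]) a)
  have haz : IsAzumaya ℚ_[p] (ℚ_[p] ⊗[R] cyc σ (N := N) (a : R)) := IsAzumaya.of_AlgEquiv _ _ _ e.symm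
  rw [LocalInvariants.atFin, I.fin_eq_zero, IsNm, ← hsplit]
  constructor
  · rintro ⟨n, ⟨g⟩⟩
    exact ⟨n, ⟨e.symm.trans g⟩⟩
  · rintro ⟨n, ⟨g⟩⟩
    exact ⟨n, ⟨e.trans g⟩⟩

lemma atInf_eq_zero (I : LocalInvariants) (H : Gen σ N) (P : R →+* ℝ) (a : Rˣ) :
    I.atInf P (cyc σ (N := N) (a : R)) = 0 ↔ IsNm σ N (P a) := by
  letI := P.toAlgebra
  have : IsScalarTower ℚ R ℝ := IsScalarTower.of_algebraMap_eq' (Subsingleton.elim _ _)
  have hsplit := split_iff (k := ℝ) H (w := P a) (by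
    have : IsUnit (P a) := a.isUnit.map P
    exact this.ne_zero)
  have e : ℝ ⊗[R] cyc σ (N := N) (a : R) ≃ₐ[ℝ] cyc σ (N := N) (P a) := bcEquiv (S' := ℝ) H (a : R)
  have haz' : IsAzumaya ℝ (cyc σ (N := N) (P a)) := azumaya H (Units.map (P : R →* ℝ) a)
  have haz : IsAzumaya ℝ (ℝ ⊗[R] cyc σ (N := N) (a : R)) := IsAzumaya.of_AlgEquiv _ _ _ e.symm
  rw [LocalInvariants.atInf, I.inf_eq_zero, IsNm, ← hsplit]
  constructor
  · rintro ⟨n, ⟨g⟩⟩
    exact ⟨n, ⟨e.symm.trans g⟩⟩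
  · rintro ⟨n, ⟨g⟩⟩
    exact ⟨n, ⟨e.trans g⟩⟩

/-- An algebra which is not split at exactly one place. -/
lemma not_in_of_one (I : LocalInvariants) (H : Gen σ N) (P : AdelicPoint R) (a : Rˣ) (q : Nat.Primes)
    (hinf : IsNm σ N (P.inf a)) (hq : ¬ IsNm σ N (P.fin q a))
    (hp : ∀ p : Nat.Primes, p ≠ q → IsNm σ N (P.fin p a)) : ¬ InBrauerManinSet I P := by
  intro hP
  have haz := azumaya H a
  have h1 := hP (cyc σ (N := N) (a : R))
  rw [(atInf_eq_zero I H P.inf a).2 hinf, zero_add, finsum_eq_single _ q (fun p hpq => (atFin_eq_zero I H p (P.fin p) a).2 (hp p hpq))] at h1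
  exact hq ((atFin_eq_zero I H q (P.fin q) a).1 h1)

end local_

end Pool.Agent.N888.TB
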