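import Pool.Agent.N888.TB.Bm

/-!
# The choice of the cyclic algebra
-/

set_option autoImplicit false
set_option linter.unusedSectionVars false
set_option linter.unusedSimpArgs false

open scoped TensorProduct
open Matrix Module NumberField

namespace Pool.Agent.N888.TB

lemma exists_gen (M : ℕ) (K : Type) [Field K] [NumberField K] [hK : IsCyclotomicExtension {3 ^ (M + 1)} ℚ K] :
    ∃ (_ : NeZero (2 * 3 ^ M)) (σ : K ≃ₐ[ℚ] K), Gen σ (2 * 3 ^ M) := by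
  have hgal : IsGalois ℚ K := IsCyclotomicExtension.isGalois {3 ^ (M + 1)} ℚ K
  have hcyc : IsCyclic (ZMod (3 ^ (M + 1)))ˣ := ZMod.isCyclic_units_of_prime_pow 3 Nat.prime_three (by norm_num) _
  have hcyc2 : IsCyclic (K ≃ₐ[ℚ] K) :=
    isCyclic_of_surjective (IsCyclotomicExtension.Rat.galEquivZMod (3 ^ (M + 1)) K).symm
      (MulEquiv.surjective _)
  obtain ⟨σ, hσ⟩ := hcyc2.exists_generator
  have hfr : finrank ℚ K = 2 * 3 ^ M := by
    rw [IsCyclotomicExtension.finrank (n := 3 ^ (M + 1)) K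
      (Polynomial.cyclotomic.irreducible_rat (by positivity)), Nat.totient_prime_pow_succ Nat.prime_three, mul_comm]
  have hN : NeZero (2 * 3 ^ M) := ⟨by positivity⟩
  refine ⟨hN, σ, ?_⟩
  have hcard : Fintype.card (K ≃ₐ[ℚ] K) = 2 * 3 ^ M := by
    rw [← Nat.card_eq_fintype_card, IsGalois.card_aut_eq_finrank, hfr]
  have hord : orderOf σ = 2 * 3 ^ M := by
    rw [orderOf_eq_card_of_forall_mem_zpowers hσ, Nat.card_eq_fintype_card, hcard]
  unfold Gen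
  rw [Fintype.bijective_iff_injective_and_card]
  refine ⟨fun i j h => ?_, by rw [Fintype.card_fin, hcard]⟩
  apply Fin.ext
  exact pow_injOn_Iio_orderOf (by rw [hord]; exact i.2) (by rw [hord]; exact j.2) h

lemma exists_cyclo (m : ℕ) [NeZero m] :
    ∃ (K : Type) (_ : Field K) (_ : NumberField K), IsCyclotomicExtension {m} ℚ K := by
  have : NeZero ((m : ℕ) : ℚ) := ⟨by exact_mod_cast NeZero.ne m⟩
  refine ⟨CyclotomicField m ℚ, inferInstance, inferInstance, ?_⟩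
  exact CyclotomicField.isCyclotomicExtension m ℚ

/-- A natural number near a `p`-adic unit. -/
lemma exists_nat_near (p : ℕ) [hp : Fact p.Prime] (u : ℚ_[p]) (hu : ‖u‖ = 1) (T : ℕ) (hT : T ≠ 0) :
    ∃ a : ℕ, a.Coprime p ∧ ‖u - a‖ ≤ (p : ℝ) ^ (-(T : ℤ)) := by
  obtain ⟨u', hu'⟩ : ∃ w' : ℤ_[p], (w' : ℚ_[p]) = u := ⟨⟨u, hu.le⟩, rfl⟩
  refine ⟨u'.appr T, ?_, ?_⟩
  · rw [Nat.coprime_comm, Nat.Prime.coprime_iff_not_dvd hp.out]
    intro hdvd
    have h1 := PadicInt.appr_spec T u'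
    rw [← PadicInt.norm_le_pow_iff_mem_span_pow] at h1
    have h2 : ‖((u'.appr T : ℕ) : ℤ_[p])‖ < 1 := by
      rw [PadicInt.norm_lt_one_iff_dvd]
      exact_mod_cast (Nat.cast_dvd_cast (α := ℤ_[p]) hdvd)
    have h3 : ‖u'‖ < 1 := by
      have h4 : u' = (u' - u'.appr T) + u'.appr T := by ring
      rw [h4]
      refine (IsUltrametricDist.norm_add_le_max _ _).trans_lt (max_lt (h1.trans_lt ?_) h2)
      rw [_root_.zpow_neg, zpow_natCast]
      apply inv_lt_one_of_one_lt₀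
      exact one_lt_pow₀ (by exact_mod_cast hp.out.one_lt) hT
    rw [PadicInt.norm_def, hu', hu] at h3
    exact lt_irrefl _ h3
  · have h1 := PadicInt.appr_spec T u'
    rw [← PadicInt.norm_le_pow_iff_mem_span_pow, PadicInt.norm_def] at h1
    simpa [hu'] using h1

lemma modEq_near (p : ℕ) [hp : Fact p.Prime] (T a b : ℕ) (h : a ≡ b [MOD p ^ T]) :
    ‖((a : ℕ) : ℚ_[p]) - b‖ ≤ (p : ℝ) ^ (-(T : ℤ)) := by
  have h1 : ((p ^ T : ℕ) : ℤ) ∣ (b : ℤ) - a := (Nat.modEq_iff_dvd).1 h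
  have h2 := (Padic.norm_int_le_pow_iff_dvd (p := p) ((b : ℤ) - a) T).2 (by exact_mod_cast h1)
  rw [norm_sub_rev]
  simpa using h2

/-- The choice of the auxiliary prime number. -/
lemma exists_prime (u2 : ℚ_[2]) (h2 : ‖u2‖ = 1) (u3 : ℚ_[3]) (h3 : ‖u3‖ = 1) (S T : ℕ) (hS : S ≠ 0) (hT : T ≠ 0) :
    ∃ q : ℕ, 3 < q ∧ q.Prime ∧ ‖u2 - q‖ ≤ (2 : ℝ) ^ (-(S : ℤ)) ∧ ‖u3 - q‖ ≤ (3 : ℝ) ^ (-(T : ℤ)) := by
  obtain ⟨a2, ha2, h2'⟩ := exists_nat_near 2 u2 h2 S hS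
  obtain ⟨a3, ha3, h3'⟩ := exists_nat_near 3 u3 h3 T hT
  have hcop : Nat.Coprime (2 ^ S) (3 ^ T) := Nat.Coprime.pow _ _ (by norm_num)
  obtain ⟨a, ha⟩ := Nat.chineseRemainder hcop a2 a3
  have hca : Nat.Coprime a (2 ^ S * 3 ^ T) := by
    apply Nat.Coprime.mul_right
    · apply Nat.Coprime.pow_right
      have h5 : a ≡ a2 [MOD 2] := ha.1.of_dvd (dvd_pow_self 2 hS)
      rw [Nat.Coprime, h5.gcd_eq]
      exact ha2
    · apply Nat.Coprime.pow_right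
      have h5 : a ≡ a3 [MOD 3] := ha.2.of_dvd (dvd_pow_self 3 hT)
      rw [Nat.Coprime, h5.gcd_eq]
      exact ha3
  obtain ⟨q, hq3, hqp, hqa⟩ := Nat.forall_exists_prime_gt_and_modEq 3 (q := 2 ^ S * 3 ^ T) (a := a) (by positivity) hca
  refine ⟨q, hq3, hqp, ?_, ?_⟩
  · have h5 : a2 ≡ q [MOD 2 ^ S] := (ha.1.symm).trans ((hqa.of_dvd (dvd_mul_right _ _)).symm)
    have h6 := modEq_near 2 S a2 q h5
    have h7 : u2 - q = (u2 - a2) + (a2 - q) := by ring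
    rw [h7]
    exact (IsUltrametricDist.norm_add_le_max _ _).trans (max_le h2' h6)
  · have h5 : a3 ≡ q [MOD 3 ^ T] := (ha.2.symm).trans ((hqa.of_dvd (dvd_mul_left _ _)).symm)
    have h6 := modEq_near 3 T a3 q h5
    have h7 : u3 - q = (u3 - a3) + (a3 - q) := by ring
    rw [h7]
    exact (IsUltrametricDist.norm_add_le_max _ _).trans (max_le h3' h6)

end Pool.Agent.N888.TB
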