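import Pool.Agent.N888.TB.Pu

/-!
# The birational section
-/

set_option autoImplicit false

open Polynomial
open Pool.Agent.Helper165.P1

namespace Pool.Agent.N888.TB

/-- The coordinate of a polynomial in `t²`. -/
lemma cf_eval (f : ℚ[X]) (n : ℕ) :
    cf (eval₂ (algebraMap ℚ PP) (tt ^ 2) f) ((2 * n : ℕ) : ℚ) = algebraMap ℚ Qb (f.coeff n) := by
  have hadd : ∀ v w : PP, ∀ q, cf (v + w) q = cf v q + cf w q := fun v w q => rfl
  have hct : ∀ a : ℚ, algebraMap ℚ PP a = ct (algebraMap ℚ Qb a) := fun a =>
    RingHom.congr_fun (Subsingleton.elim (algebraMap ℚ PP) (ct.comp (algebraMap ℚ Qb))) a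
  have hmul : ∀ (z : Qb) (v : PP) (q : ℚ), cf (ct z * v) q = z * cf v q := by
    intro z v q
    have h1 : (((ct z : PP) : HQ Qb)) = HahnSeries.C z := by
      ext q
      have h2 := cf_ct z q
      rw [cf] at h2
      rw [h2, HahnSeries.C_apply, HahnSeries.coeff_single]
      congr 1
    have h2 : ((ct z * v : PP) : HQ Qb) = HahnSeries.C z * (v : HQ Qb) := by rw [← h1]; rfl
    rw [cf, h2, HahnSeries.C_mul_eq_smul, HahnSeries.coeff_smul, smul_eq_mul]
    rfl
  induction f using Polynomial.induction_on' with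
  | add p q hp hq => rw [eval₂_add, hadd, hp, hq, coeff_add, map_add]
  | monomial m a =>
    rw [eval₂_monomial, hct, hmul, ← pow_mul, cf_tt_pow, coeff_monomial]
    have h1 : (((2 * n : ℕ) : ℚ) = ((2 * m : ℕ) : ℚ)) ↔ m = n := by
      rw [Nat.cast_inj]
      omega
    by_cases h2 : m = n
    · rw [if_pos (h1.2 h2), if_pos h2, mul_one]
    · rw [if_neg (fun h => h2 (h1.1 h)), if_neg h2, mul_zero, map_zero]

/-- The expansion of functions on the curve. -/
lemma exists_jR : ∃ j : CurveRing →+* PP, Function.Injective j ∧ ∀ τ x, act1 τ (j x) = j x := by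
  obtain ⟨s, hs, hs0, hsτ⟩ := exists_sqrt
  obtain ⟨j, hjx, hjy⟩ := exists_point (k := PP) (tt ^ 2) (tt * s) (by rw [mul_pow, hs]; ring)
    (mul_ne_zero tt_ne hs0)
  refine ⟨j, ?_, ?_⟩
  · -- injectivity
    let φ : E.CoordinateRing →+* PP := j.comp (algebraMap E.CoordinateRing CurveRing)
    have hφ : RingHom.ker φ = ⊥ := by
      have : Module.Finite ℚ[X] E.CoordinateRing := Module.Finite.of_basis (WeierstrassCurve.Affine.CoordinateRing.basis E)
      have : Algebra.IsIntegral ℚ[X] E.CoordinateRing := Algebra.IsIntegral.of_finite _ _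
      refine Ideal.eq_bot_of_comap_eq_bot (R := ℚ[X]) ?_
      rw [eq_bot_iff]
      intro f hf
      rw [Ideal.mem_comap, RingHom.mem_ker] at hf
      have h1 : φ.comp (algebraMap ℚ[X] E.CoordinateRing) = eval₂RingHom (algebraMap ℚ PP) (tt ^ 2) := by
        apply Polynomial.ringHom_ext
        · intro a
          rw [coe_eval₂RingHom, eval₂_C]
          exact RingHom.congr_fun (Subsingleton.elim ((φ.comp (algebraMap ℚ[X] E.CoordinateRing)).comp C) (algebraMap ℚ PP)) a
        · rw [coe_eval₂RingHom, eval₂_X]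
          exact hjx
      have h2 := RingHom.congr_fun h1 f
      rw [RingHom.comp_apply, hf] at h2
      rw [Ideal.mem_bot]
      ext n
      have h3 := cf_eval f n
      rw [coe_eval₂RingHom] at h2
      rw [← h2] at h3
      have h4 : cf (0 : PP) ((2 * n : ℕ) : ℚ) = 0 := rfl
      rw [h4] at h3
      rw [coeff_zero]
      apply (algebraMap ℚ Qb).injective
      rw [← h3, map_zero]
    rw [injective_iff_map_eq_zero]
    intro r hr
    obtain ⟨n, a, ha⟩ := IsLocalization.Away.surj yE r
    have h1 : φ a = 0 := by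
      have h2 := congrArg j ha
      rw [map_mul, hr, zero_mul] at h2
      exact h2.symm
    have h2 : a = 0 := by
      rw [← RingHom.mem_ker, hφ, Ideal.mem_bot] at h1
      exact h1
    rw [h2, map_zero] at ha
    exact (mul_eq_zero.1 ha).resolve_right (pow_ne_zero n unit_yR.ne_zero)
  · -- invariance
    intro τ x
    have h1 := mem_adjoin x
    induction h1 using Algebra.adjoin_induction with
    | mem x hx =>
      have hy : act1 τ (j yR) = j yR := by rw [hjy, map_mul, act1_tt, hsτ]
      simp only [Set.mem_insert_iff, Set.mem_singleton_iff] at hx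
      rcases hx with rfl | rfl | rfl
      · rw [hjx, map_pow, act1_tt]
      · exact hy
      · have h2 : j yR * j (↑unit_yR.unit⁻¹ : CurveRing) = 1 := by
          rw [← map_mul]
          have : yR * (↑unit_yR.unit⁻¹ : CurveRing) = 1 := unit_yR.mul_val_inv
          rw [this, map_one]
        have h3 : j yR * act1 τ (j (↑unit_yR.unit⁻¹ : CurveRing)) = 1 := by
          conv_lhs => rw [← hy]
          rw [← map_mul, h2, map_one]
        have h4 : j yR ≠ 0 := by
          intro h5
          rw [h5, zero_mul] at h2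
          exact zero_ne_one h2
        exact mul_left_cancel₀ h4 (h3.trans h2.symm)
    | algebraMap c =>
      exact RingHom.congr_fun (Subsingleton.elim (((act1 τ : PP →+* PP).comp j).comp (algebraMap ℚ CurveRing))
        (j.comp (algebraMap ℚ CurveRing))) c
    | add x y _ _ hx hy => rw [map_add, map_add, hx, hy]
    | mul x y _ _ hx hy => rw [map_mul, map_mul, hx, hy]

/-- The function field of the curve. -/
abbrev FF : Type := FractionRing CurveRing

/-- There is a continuous section of the map of Galois groups `Gal(FF) → Gal(ℚ)`. -/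
theorem birational_section :
    ∃ (ι : Qb →+* AlgebraicClosure FF) (s : (Qb ≃ₐ[ℚ] Qb) →* (AlgebraicClosure FF ≃ₐ[FF] AlgebraicClosure FF)),
      Continuous s ∧ ∀ τ z, s τ (ι z) = ι (τ z) := by
  obtain ⟨j, hj, hjτ⟩ := exists_jR
  let jF : FF →+* PP := IsFractionRing.lift (g := j) hj
  have hjF : ∀ τ x, act1 τ (jF x) = jF x := by
    intro τ x
    have h1 : (act1 τ : PP →+* PP).comp jF = jF := by
      apply IsLocalization.ringHom_ext (nonZeroDivisors CurveRing)
      refine RingHom.ext fun x => ?_
      simp only [RingHom.comp_apply, jF, IsFractionRing.lift_algebraMap]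
      exact hjτ τ x
    exact RingHom.congr_fun h1 x
  let _ : Algebra FF PP := jF.toAlgebra
  -- the action on Puiseux series
  let a : (Qb ≃ₐ[ℚ] Qb) →* (PP ≃ₐ[FF] PP) :=
    { toFun := fun τ => AlgEquiv.ofRingEquiv (f := act1 τ) (hjF τ)
      map_one' := by
        refine AlgEquiv.ext fun v => ?_
        apply cf_ext
        intro q
        exact cf_act1 1 v q
      map_mul' := by
        intro τ τ'
        refine AlgEquiv.ext fun v => ?_
        apply cf_ext
        intro q
        have h1 := cf_act1 (τ * τ') v q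
        have h2 : cf (act1 τ (act1 τ' v)) q = τ (τ' (cf v q)) := by rw [cf_act1, cf_act1]
        exact h1.trans h2.symm }
  have ha : ∀ τ v, a τ v = act1 τ v := fun τ v => rfl
  let θ : AlgebraicClosure FF →ₐ[FF] PP := IsAlgClosed.lift
  let _ : Algebra (AlgebraicClosure FF) PP := θ.toRingHom.toAlgebra
  have htow : IsScalarTower FF (AlgebraicClosure FF) PP := IsScalarTower.of_algebraMap_eq' (by
    refine RingHom.ext fun x => ?_
    exact (θ.commutes x).symm)
  have hθ : ∀ x, algebraMap (AlgebraicClosure FF) PP x = θ x := fun x => rfl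
  have hθi : Function.Injective θ := θ.toRingHom.injective
  let s : (Qb ≃ₐ[ℚ] Qb) →* (AlgebraicClosure FF ≃ₐ[FF] AlgebraicClosure FF) :=
    (AlgEquiv.restrictNormalHom (AlgebraicClosure FF)).comp a
  have hs : ∀ τ x, θ (s τ x) = act1 τ (θ x) := by
    intro τ x
    have h1 := AlgEquiv.restrictNormal_commutes (a τ) (AlgebraicClosure FF) x
    rw [hθ, hθ, ha] at h1
    exact h1
  -- constants
  have hct : ∀ z : Qb, ct z ∈ θ.range := by
    intro z
    have halg : IsAlgebraic ℚ z := Algebra.IsAlgebraic.isAlgebraic z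
    obtain ⟨p, hp0, hp⟩ := halg
    have h1 : ct z ∈ ((p.map (algebraMap ℚ FF)).rootSet PP) := by
      rw [mem_rootSet]
      refine ⟨(Polynomial.map_ne_zero_iff (algebraMap ℚ FF).injective).2 hp0, ?_⟩
      rw [aeval_def, eval₂_map]
      have h2 : (algebraMap FF PP).comp (algebraMap ℚ FF) = ct.comp (algebraMap ℚ Qb) := Subsingleton.elim _ _
      rw [h2, ← Polynomial.hom_eval₂, ← aeval_def, hp, map_zero]
    have h2 := (IsAlgClosed.splits ((p.map (algebraMap ℚ FF)).map (algebraMap FF (AlgebraicClosure FF)))).image_rootSet θ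
    rw [← h2] at h1
    obtain ⟨w, -, hw⟩ := h1
    exact ⟨w, hw⟩
  let e := AlgEquiv.ofInjective θ hθi
  let ι : Qb →+* AlgebraicClosure FF := (e.symm : θ.range →+* AlgebraicClosure FF).comp (ct.codRestrict θ.range hct)
  have hι : ∀ z, θ (ι z) = ct z := by
    intro z
    have h1 : e (ι z) = ⟨ct z, hct z⟩ := e.apply_symm_apply _
    exact congrArg Subtype.val h1
  have hsι : ∀ τ z, s τ (ι z) = ι (τ z) := by
    intro τ z
    apply hθi
    rw [hs, hι, hι, act1_ct]
  refine ⟨ι, s, ?_, hsι⟩
  have hchar : CharZero FF := charZero_of_injective_algebraMap (algebraMap ℚ FF).injective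
  have hgal : IsGalois FF (AlgebraicClosure FF) := inferInstance
  apply continuous_of_closed
  intro x
  have h1 : {g : Qb ≃ₐ[ℚ] Qb | s g x = x} = ⋂ q : ℚ, {g : Qb ≃ₐ[ℚ] Qb | g (cf (θ x) q) = cf (θ x) q} := by
    ext g
    simp only [Set.mem_ofPred_eq, Set.mem_iInter]
    constructor
    · intro h q
      rw [← cf_act1, ← hs, h]
    · intro h
      apply hθi
      rw [hs]
      apply cf_ext
      intro q
      rw [cf_act1]
      exact h q
  rw [h1]
  exact isClosed_iInter fun q => isClosed_stab _

end Pool.Agent.N888.TB
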