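import Pool.Agent.N888.TB.Def

/-!
# The affine curve `E ∖ E[2]`, for the elliptic curve `E : y² = x³ + x`
-/

set_option autoImplicit false

open scoped TensorProduct
open Polynomial

namespace Pool.Agent.N888.TB

/-- The elliptic curve `E : y² = x³ + x` over `ℚ`. -/
def E : WeierstrassCurve.Affine ℚ := ⟨0, 0, 0, 1, 0⟩

/-- The function `y` on the affine curve `E ∖ {O}`. -/
noncomputable def yE : E.CoordinateRing := WeierstrassCurve.Affine.CoordinateRing.mk E Polynomial.X

/-- The coordinate ring `ℚ[x, y, y⁻¹] / (y² - x³ - x)` of the curve `E ∖ E[2]`, the affine curve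
`y² = x³ + x` without its points with `y = 0`. -/
abbrev CurveRing : Type := Localization.Away yE

/-- The function `x` on the affine curve `E ∖ {O}`. -/
noncomputable def xE : E.CoordinateRing := WeierstrassCurve.Affine.CoordinateRing.mk E (C X)

/-- the function `x` on `X` -/
noncomputable def xR : CurveRing := algebraMap E.CoordinateRing CurveRing xE

/-- the function `y` on `X` -/
noncomputable def yR : CurveRing := algebraMap E.CoordinateRing CurveRing yE

lemma eqE : yE ^ 2 = xE ^ 3 + xE := by
  have h1 : (X ^ 2 - (C X ^ 3 + C X) : ℚ[X][X]) = E.polynomial := by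
    simp only [WeierstrassCurve.Affine.polynomial, E]
    simp
  have h2 : WeierstrassCurve.Affine.CoordinateRing.mk E (X ^ 2 - (C X ^ 3 + C X)) = 0 := by
    rw [h1]
    exact AdjoinRoot.mk_self
  rw [map_sub, map_add, map_pow, map_pow, sub_eq_zero] at h2
  exact h2

lemma eqR : yR ^ 2 = xR ^ 3 + xR := by
  have h := congrArg (algebraMap E.CoordinateRing CurveRing) eqE
  rw [map_add, map_pow, map_pow] at h
  exact h

lemma yE_ne : yE ≠ 0 := by
  intro h
  have h1 : (X : ℚ[X][X]) ≠ 0 := X_ne_zero
  have h2 : E.polynomial ∣ (X : ℚ[X][X]) := AdjoinRoot.mk_eq_zero.1 h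
  have h3 := degree_le_of_dvd h2 h1
  rw [WeierstrassCurve.Affine.degree_polynomial, degree_X] at h3
  exact absurd h3 (by decide)

instance domR : IsDomain CurveRing :=
  IsLocalization.isDomain_localization (powers_le_nonZeroDivisors_of_noZeroDivisors yE_ne)

lemma unit_yR : IsUnit yR := IsLocalization.Away.algebraMap_isUnit (S := CurveRing) yE

lemma unit_xR : IsUnit xR := by
  have h1 : IsUnit (yR ^ 2) := unit_yR.pow 2
  have h2 : yR ^ 2 = xR * (xR ^ 2 + 1) := by rw [eqR]; ring
  rw [h2] at h1
  exact isUnit_of_mul_isUnit_left h1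

/-- The coordinate ring is generated by `x`, `y`, `y⁻¹`. -/
lemma mem_adjoin (r : CurveRing) : r ∈ Algebra.adjoin ℚ {xR, yR, (↑unit_yR.unit⁻¹ : CurveRing)} := by
  set S := Algebra.adjoin ℚ {xR, yR, (↑unit_yR.unit⁻¹ : CurveRing)} with hS
  have hx : xR ∈ S := Algebra.subset_adjoin (by simp)
  have hy : yR ∈ S := Algebra.subset_adjoin (by simp)
  have hyi : (↑unit_yR.unit⁻¹ : CurveRing) ∈ S := Algebra.subset_adjoin (by simp)
  -- the polynomials
  have h1 : ∀ f : ℚ[X], algebraMap E.CoordinateRing CurveRing (WeierstrassCurve.Affine.CoordinateRing.mk E (C f)) ∈ S := by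
    intro f
    induction f using Polynomial.induction_on' with
    | add p q hp hq =>
      rw [C_add, map_add, map_add]
      exact add_mem hp hq
    | monomial n a =>
      rw [← C_mul_X_pow_eq_monomial, C_mul, C_pow, map_mul, map_mul, map_pow, map_pow]
      refine mul_mem ?_ (pow_mem hx n)
      have h2 : algebraMap E.CoordinateRing CurveRing (WeierstrassCurve.Affine.CoordinateRing.mk E (C (C a))) =
          algebraMap ℚ CurveRing a := by
        have h3 : ((algebraMap E.CoordinateRing CurveRing).comp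
          ((WeierstrassCurve.Affine.CoordinateRing.mk E).comp ((C : ℚ[X] →+* ℚ[X][X]).comp (C : ℚ →+* ℚ[X])))) =
          algebraMap ℚ CurveRing := Subsingleton.elim _ _
        exact RingHom.congr_fun h3 a
      rw [h2]
      exact S.algebraMap_mem a
  have h2 : ∀ f : ℚ[X][X], algebraMap E.CoordinateRing CurveRing (WeierstrassCurve.Affine.CoordinateRing.mk E f) ∈ S := by
    intro f
    induction f using Polynomial.induction_on' with
    | add p q hp hq =>
      rw [map_add, map_add]
      exact add_mem hp hq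
    | monomial n a =>
      rw [← C_mul_X_pow_eq_monomial, map_mul, map_mul, map_pow, map_pow]
      exact mul_mem (h1 a) (pow_mem hy n)
  obtain ⟨n, a, ha⟩ := IsLocalization.Away.surj yE r
  obtain ⟨f, rfl⟩ := AdjoinRoot.mk_surjective a
  have h3 : r = algebraMap E.CoordinateRing CurveRing (WeierstrassCurve.Affine.CoordinateRing.mk E f) *
      (↑unit_yR.unit⁻¹ : CurveRing) ^ n := by
    have h4 : (algebraMap E.CoordinateRing CurveRing yE) ^ n * (↑unit_yR.unit⁻¹ : CurveRing) ^ n = 1 := by
      rw [← mul_pow]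
      have : algebraMap E.CoordinateRing CurveRing yE * (↑unit_yR.unit⁻¹ : CurveRing) = 1 := unit_yR.mul_val_inv
      rw [this, one_pow]
    calc r = r * ((algebraMap E.CoordinateRing CurveRing yE) ^ n * (↑unit_yR.unit⁻¹ : CurveRing) ^ n) := by rw [h4, mul_one]
      _ = (r * (algebraMap E.CoordinateRing CurveRing yE) ^ n) * (↑unit_yR.unit⁻¹ : CurveRing) ^ n := by ring
      _ = _ := by
        rw [ha]
  rw [h3]
  exact mul_mem (h2 f) (pow_mem hyi n)

instance ftR : Algebra.FiniteType ℚ CurveRing := by
  classical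
  refine ⟨⟨{xR, yR, (↑unit_yR.unit⁻¹ : CurveRing)}, ?_⟩⟩
  rw [eq_top_iff]
  intro r _
  simpa using mem_adjoin r

section points

variable {k : Type} [Field k] [Algebra ℚ k]

/-- evaluation at a point of the curve -/
noncomputable def evE (x y : k) (h : y ^ 2 = x ^ 3 + x) : E.CoordinateRing →+* k :=
  AdjoinRoot.lift (eval₂RingHom (algebraMap ℚ k) x) y (by
    simp only [WeierstrassCurve.Affine.polynomial, E]
    simp only [zero_mul, add_zero, C_1, one_mul, eval₂_sub, eval₂_add, eval₂_pow, eval₂_X, map_add, map_pow,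
      eval₂_C, map_zero]
    simp [h])

lemma evE_x (x y : k) (h : y ^ 2 = x ^ 3 + x) : evE x y h xE = x := by
  rw [evE, xE]
  erw [AdjoinRoot.lift_mk]
  simp

lemma evE_y (x y : k) (h : y ^ 2 = x ^ 3 + x) : evE x y h yE = y := by
  rw [evE, yE]
  erw [AdjoinRoot.lift_mk]
  simp

/-- A point of `X`. -/
lemma exists_point (x y : k) (h : y ^ 2 = x ^ 3 + x) (hy : y ≠ 0) :
    ∃ P : CurveRing →+* k, P xR = x ∧ P yR = y := by
  have hu : IsUnit (evE x y h yE) := by
    rw [evE_y]
    exact isUnit_iff_ne_zero.2 hy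
  refine ⟨IsLocalization.Away.lift yE hu, ?_, ?_⟩
  · rw [xR, IsLocalization.Away.lift_eq, evE_x]
  · rw [yR, IsLocalization.Away.lift_eq, evE_y]

end points

end Pool.Agent.N888.TB
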