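import Mathlib

/-!
# Cyclic algebras over commutative `ℚ`-algebras

`K` is a finite cyclic Galois extension of `ℚ` of degree `N` with generator `σ`, `S` a commutative
`ℚ`-algebra, `a` an element of `S`. The cyclic algebra `B = ⨁ (S ⊗ K) uⁱ`, `u e = σ⁻¹(e) u`,
`u ^ N = a`, is realised as a subalgebra of the algebra of matrices over `S ⊗ K`.
-/

set_option autoImplicit false

open scoped TensorProduct
open Matrix Module

namespace Pool.Agent.N888.TB

section fin

variable {N : ℕ} [NeZero N]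

lemma fin_last_of_add_one_eq_zero {j : Fin N} (h : j + 1 = 0) : j.val + 1 = N := by
  have h1 := congrArg Fin.val h
  rw [Fin.val_add, Fin.val_zero] at h1
  rcases Nat.lt_or_ge 1 N with hN | hN
  · rw [Fin.val_one', Nat.mod_eq_of_lt hN] at h1
    have := j.2
    by_contra hne
    rw [Nat.mod_eq_of_lt (by omega)] at h1
    omega
  · have := j.2
    omega

lemma fin_val_add_one {j : Fin N} (h : j + 1 ≠ 0) : (j + 1 : Fin N).val = j.val + 1 := by
  have hj := j.2
  have hN : 1 < N := by
    by_contra hN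
    have h0 : N = 1 := by
      have := NeZero.pos N
      omega
    subst h0
    exact h (Subsingleton.elim _ _)
  rw [Fin.val_add, Fin.val_one', Nat.mod_eq_of_lt hN]
  apply Nat.mod_eq_of_lt
  by_contra hne
  apply h
  apply Fin.ext
  rw [Fin.val_add, Fin.val_one', Nat.mod_eq_of_lt hN, Fin.val_zero]
  have : j.val + 1 = N := by omega
  rw [this, Nat.mod_self]

lemma nlz (i : Fin N) : ¬ i < 0 := by
  rw [Fin.lt_def, Fin.val_zero]
  omega

end fin

section defs

variable {K : Type} [Field K] [Algebra ℚ K] (σ : K ≃ₐ[ℚ] K) (N : ℕ) [NeZero N]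
  (S : Type) [CommRing S] [Algebra ℚ S]

/-- The automorphism `1 ⊗ σ` of `S ⊗ K`. -/
noncomputable def sg : S ⊗[ℚ] K →ₐ[S] S ⊗[ℚ] K :=
  Algebra.TensorProduct.map (AlgHom.id S S) (σ : K →ₐ[ℚ] K)

lemma sg_tmul (s : S) (x : K) : sg σ S (s ⊗ₜ x) = s ⊗ₜ σ x := by
  simp [sg]

variable {S}

/-- `a` for `i = 0` and `1` otherwise -/
def wt (a : S) (i : Fin N) : S ⊗[ℚ] K := if i = 0 then algebraMap S (S ⊗[ℚ] K) a else 1

variable {N}

/-- The cyclic algebra. -/
noncomputable def cyc (a : S) : Subalgebra S (Matrix (Fin N) (Fin N) (S ⊗[ℚ] K)) where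
  carrier := {M | ∀ i j, M (i + 1) (j + 1) * wt N a (j + 1) = wt N a (i + 1) * sg σ S (M i j)}
  mul_mem' := by
    intro M M' hM hM' i j
    rw [Matrix.mul_apply, Matrix.mul_apply, Finset.sum_mul, map_sum, Finset.mul_sum]
    rw [← Equiv.sum_comp (Equiv.addRight (1 : Fin N))]
    refine Finset.sum_congr rfl fun k _ => ?_
    simp only [Equiv.coe_addRight]
    rw [mul_assoc, hM' k j, ← mul_assoc, hM i k, map_mul, mul_assoc]
  add_mem' := by
    intro M M' hM hM' i j
    rw [Matrix.add_apply, Matrix.add_apply, add_mul, hM i j, hM' i j, map_add, mul_add]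
  algebraMap_mem' := by
    intro s i j
    rw [Matrix.algebraMap_matrix_apply, Matrix.algebraMap_matrix_apply]
    by_cases h : i = j
    · subst h
      rw [if_pos rfl, if_pos rfl, AlgHom.commutes, mul_comm]
    · rw [if_neg h, if_neg (fun h' => h (add_right_cancel h')), map_zero, zero_mul, mul_zero]

lemma mem_cyc {a : S} {M : Matrix (Fin N) (Fin N) (S ⊗[ℚ] K)} :
    M ∈ cyc σ a ↔ ∀ i j, M (i + 1) (j + 1) * wt N a (j + 1) = wt N a (i + 1) * sg σ S (M i j) :=
  Iff.rfl

/-- The matrix with first column `m`. -/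
noncomputable def mkc (a : S) (m : Fin N → S ⊗[ℚ] K) : Matrix (Fin N) (Fin N) (S ⊗[ℚ] K) :=
  fun i j => (sg σ S)^[j.val] (m (i - j)) * (if i < j then algebraMap S (S ⊗[ℚ] K) a else 1)

lemma sg_iter_tmul (n : ℕ) (s : S) (x : K) :
    (sg σ S)^[n] (s ⊗ₜ x) = s ⊗ₜ (σ^[n] x) := by
  induction n with
  | zero => rfl
  | succ n ih => rw [Function.iterate_succ_apply', ih, sg_tmul, Function.iterate_succ_apply']

lemma sg_iter_eq (n : ℕ) (e : S ⊗[ℚ] K) : (sg σ S)^[n] e = ((sg σ S) ^ n) e := by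
  rw [AlgHom.coe_pow]

lemma sg_iter_add (n : ℕ) (e f : S ⊗[ℚ] K) :
    (sg σ S)^[n] (e + f) = (sg σ S)^[n] e + (sg σ S)^[n] f := by
  simp only [sg_iter_eq, map_add]

lemma sg_iter_mul (n : ℕ) (e f : S ⊗[ℚ] K) :
    (sg σ S)^[n] (e * f) = (sg σ S)^[n] e * (sg σ S)^[n] f := by
  simp only [sg_iter_eq, map_mul]

lemma sg_iter_smul (n : ℕ) (s : S) (e : S ⊗[ℚ] K) :
    (sg σ S)^[n] (s • e) = s • (sg σ S)^[n] e := by
  simp only [sg_iter_eq, map_smul]

lemma sg_iter_algebraMap (n : ℕ) (s : S) :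
    (sg σ S)^[n] (algebraMap S _ s) = algebraMap S (S ⊗[ℚ] K) s := by
  simp only [sg_iter_eq, AlgHom.commutes]

lemma sg_iter_zero (n : ℕ) : (sg σ S)^[n] (0 : S ⊗[ℚ] K) = 0 := by
  simp only [sg_iter_eq, map_zero]

lemma sg_iter_one (n : ℕ) : (sg σ S)^[n] (1 : S ⊗[ℚ] K) = 1 := by
  simp only [sg_iter_eq, map_one]

omit [NeZero N] in
lemma sg_iter_N (hN : ∀ x : K, σ^[N] x = x) (e : S ⊗[ℚ] K) : (sg σ S)^[N] e = e := by
  induction e using TensorProduct.induction_on with
  | zero => exact sg_iter_zero σ N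
  | tmul s x => rw [sg_iter_tmul, hN]
  | add x y hx hy => rw [sg_iter_add, hx, hy]

lemma mkc_mem (hN : ∀ x : K, σ^[N] x = x) (a : S) (m : Fin N → S ⊗[ℚ] K) : mkc σ a m ∈ cyc σ a := by
  intro i j
  have hij : (i + 1) - (j + 1) = i - j := by abel
  have hi := i.2
  have hj := j.2
  simp only [mkc, wt]
  rw [hij, map_mul, ← Function.iterate_succ_apply' (⇑(sg σ S))]
  by_cases hj1 : j + 1 = 0
  · have hjN := fin_last_of_add_one_eq_zero hj1
    rw [hj1, if_neg (nlz _), Fin.val_zero, Function.iterate_zero, id_eq, if_pos rfl,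
      Nat.succ_eq_add_one, hjN, sg_iter_N σ hN, mul_one]
    by_cases hi1 : i + 1 = 0
    · have hiN := fin_last_of_add_one_eq_zero hi1
      have : ¬ i < j := by rw [Fin.lt_def]; omega
      rw [if_pos hi1, if_neg this, map_one, mul_one, mul_comm]
    · have hi2 := fin_val_add_one hi1
      have h2 := (i + 1).2
      have : i < j := by rw [Fin.lt_def]; omega
      rw [if_neg hi1, if_pos this, AlgHom.commutes, one_mul]
  · have hj2 := fin_val_add_one hj1
    rw [if_neg hj1, mul_one, hj2]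
    by_cases hi1 : i + 1 = 0
    · have hiN := fin_last_of_add_one_eq_zero hi1
      have h3 : ¬ i < j := by rw [Fin.lt_def]; omega
      have h4 : (0 : Fin N) < j + 1 := by rw [Fin.lt_def, Fin.val_zero]; omega
      rw [hi1, if_pos rfl, if_pos h4, if_neg h3, map_one, mul_one, mul_comm]
    · have hi2 := fin_val_add_one hi1
      rw [if_neg hi1, one_mul]
      by_cases h5 : i < j
      · have h6 : i + 1 < j + 1 := by rw [Fin.lt_def] at h5 ⊢; omega
        rw [if_pos h5, if_pos h6, AlgHom.commutes]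
      · have h6 : ¬ i + 1 < j + 1 := by rw [Fin.lt_def] at h5 ⊢; omega
        rw [if_neg h5, if_neg h6, map_one]

lemma eq_mkc {a : S} {M : Matrix (Fin N) (Fin N) (S ⊗[ℚ] K)} (hM : M ∈ cyc σ a) :
    M = mkc σ a (fun i => M i 0) := by
  have key : ∀ n : ℕ, ∀ j : Fin N, j.val = n → ∀ i, M i j = mkc σ a (fun i => M i 0) i j := by
    intro n
    induction n with
    | zero =>
      intro j hj i
      have : j = 0 := Fin.ext (by rw [hj, Fin.val_zero])
      subst this
      simp [mkc, nlz]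
    | succ n ih =>
      intro j hj i
      have hjN := j.2
      obtain ⟨j', hj'⟩ : ∃ j' : Fin N, j' + 1 = j := ⟨j - 1, by abel⟩
      obtain ⟨i', hi'⟩ : ∃ i' : Fin N, i' + 1 = i := ⟨i - 1, by abel⟩
      have hj0 : j' + 1 ≠ 0 := by
        rw [hj']
        intro h0
        rw [h0, Fin.val_zero] at hj
        omega
      have hjv := fin_val_add_one hj0
      rw [hj'] at hjv
      have h1 := hM i' j'
      rw [wt, if_neg hj0, mul_one, ih j' (by omega) i'] at h1
      rw [← hj', ← hi', h1]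
      -- the same relation for `mkc`
      have hij : (i' + 1) - (j' + 1) = i' - j' := by abel
      have hi'N := i'.2
      simp only [mkc, wt]
      rw [hij, map_mul, ← Function.iterate_succ_apply' (⇑(sg σ S))]
      have hjv' : (j' + 1 : Fin N).val = j'.val + 1 := by rw [hj', hjv]
      rw [hjv']
      by_cases hi1 : i' + 1 = 0
      · have hiN := fin_last_of_add_one_eq_zero hi1
        have h3 : ¬ i' < j' := by rw [Fin.lt_def]; omega
        have h4 : (0 : Fin N) < j' + 1 := by rw [Fin.lt_def, Fin.val_zero]; omega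
        rw [hi1, if_pos rfl, if_pos h4, if_neg h3, map_one, mul_one, mul_comm]
      · have hi2 := fin_val_add_one hi1
        rw [if_neg hi1, one_mul]
        by_cases h5 : i' < j'
        · have h6 : i' + 1 < j' + 1 := by rw [Fin.lt_def] at h5 ⊢; omega
          rw [if_pos h5, if_pos h6, AlgHom.commutes]
        · have h6 : ¬ i' + 1 < j' + 1 := by rw [Fin.lt_def] at h5 ⊢; omega
          rw [if_neg h5, if_neg h6, map_one]
  funext i j
  exact key j.val j rfl i

/-- The linear isomorphism given by the first column. -/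
noncomputable def colEquiv (hN : ∀ x : K, σ^[N] x = x) (a : S) :
    (Fin N → S ⊗[ℚ] K) ≃ₗ[S] cyc σ (N := N) a where
  toFun m := ⟨mkc σ a m, mkc_mem σ hN a m⟩
  map_add' m m' := by
    apply Subtype.ext
    funext i j
    simp only [mkc, Pi.add_apply, sg_iter_add, add_mul, AddMemClass.mk_add_mk, Matrix.add_apply]
  map_smul' s m := by
    apply Subtype.ext
    funext i j
    simp only [mkc, Pi.smul_apply, sg_iter_smul, smul_mul_assoc, RingHom.id_apply]
    rfl
  invFun M := fun i => M.1 i 0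
  left_inv m := by
    funext i
    simp [mkc, nlz]
  right_inv M := Subtype.ext (eq_mkc σ M.2).symm

end defs

end Pool.Agent.N888.TB
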