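import Mathlib

/-!
# The splitting condition and the Brauer-Manin set of an affine variety

`R` is a finitely generated `ℚ`-algebra without zero divisors, `X = Spec R`.
-/

set_option autoImplicit false

open scoped TensorProduct

namespace Pool.Agent.N888.TB

/-! ### adelic points and the Brauer-Manin set -/

/-- The adelic points of `X = Spec R`: a point over each `ℚ_p` and a point over `ℝ` such that every
regular function `r` on `X` takes a `p`-adic integral value for all but finitely many `p`. -/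
structure AdelicPoint (R : Type) [CommRing R] where
  /-- the component in `X(ℚ_p)` -/
  fin : ∀ (p : ℕ) [Fact p.Prime], R →+* ℚ_[p]
  /-- the component in `X(ℝ)` -/
  inf : R →+* ℝ
  integral : ∀ r : R, {p : ℕ | ∃ _ : Fact p.Prime, ¬ ‖fin p r‖ ≤ 1}.Finite

/-- Functions `inv_v` on the (isomorphism classes of) algebras over `ℚ_v` with values in `ℚ/ℤ`, for
all places `v` of `ℚ`, such that `inv_v(A) = 0` exactly when the central simple (= Azumaya) algebra
`A` over `ℚ_v` is a matrix algebra. The Hasse invariants `Br ℚ_v → ℚ/ℤ` are an example. -/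
structure LocalInvariants where
  /-- the invariant at a prime number -/
  fin : ∀ (p : ℕ) [Fact p.Prime] (A : Type) [Ring A] [Algebra ℚ_[p] A], AddCircle (1 : ℚ)
  /-- the invariant at the real place -/
  inf : ∀ (A : Type) [Ring A] [Algebra ℝ A], AddCircle (1 : ℚ)
  fin_eq_zero : ∀ (p : ℕ) [Fact p.Prime] (A : Type) [Ring A] [Algebra ℚ_[p] A] [IsAzumaya ℚ_[p] A],
    fin p A = 0 ↔ ∃ n : ℕ, Nonempty (A ≃ₐ[ℚ_[p]] Matrix (Fin n) (Fin n) ℚ_[p])
  inf_eq_zero : ∀ (A : Type) [Ring A] [Algebra ℝ A] [IsAzumaya ℝ A],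
    inf A = 0 ↔ ∃ n : ℕ, Nonempty (A ≃ₐ[ℝ] Matrix (Fin n) (Fin n) ℝ)

section

variable {R : Type} [CommRing R]

instance (p : Nat.Primes) : Fact (p : ℕ).Prime := ⟨p.2⟩

/-- `inv_p` of the fibre `ℚ_p ⊗_R B` at the point `P : R → ℚ_p`. -/
noncomputable def LocalInvariants.atFin (I : LocalInvariants) (p : ℕ) [Fact p.Prime] (P : R →+* ℚ_[p])
    (B : Type) [Ring B] [Algebra R B] : AddCircle (1 : ℚ) :=
  letI := P.toAlgebra
  I.fin p (ℚ_[p] ⊗[R] B)

/-- `inv_∞` of the fibre `ℝ ⊗_R B` at the point `P : R → ℝ`. -/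
noncomputable def LocalInvariants.atInf (I : LocalInvariants) (P : R →+* ℝ)
    (B : Type) [Ring B] [Algebra R B] : AddCircle (1 : ℚ) :=
  letI := P.toAlgebra
  I.inf (ℝ ⊗[R] B)

/-- `P` belongs to the Brauer-Manin set of `X = Spec R`: for every Azumaya algebra `B` over `R` the
sum of the local invariants of the fibres of `B` at the components of `P` is zero. -/
def InBrauerManinSet (I : LocalInvariants) (P : AdelicPoint R) : Prop :=
  ∀ (B : Type) [Ring B] [Algebra R B] [IsAzumaya R B],
    I.atInf P.inf B + ∑ᶠ p : Nat.Primes, I.atFin p (P.fin p) B = 0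

end

/-! ### the fundamental group and the splitting condition -/

/-- An element of the étale fundamental group `π₁(Spec A, Ω)` with base point the geometric point
`A → Ω`, `Ω` an algebraically closed field: an automorphism of the fibre functor
`B ↦ Hom_A(B, Ω)` on the finite étale `A`-algebras `B`. -/
structure FundGrp (A Ω : Type) [CommRing A] [Field Ω] [Algebra A Ω] where
  /-- the permutation of the fibre of `B` -/
  act : ∀ (B : Type) [CommRing B] [Algebra A B] [Module.Finite A B] [Algebra.Etale A B],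
    Equiv.Perm (B →ₐ[A] Ω)
  natural : ∀ (B C : Type) [CommRing B] [Algebra A B] [Module.Finite A B] [Algebra.Etale A B]
    [CommRing C] [Algebra A C] [Module.Finite A C] [Algebra.Etale A C] (g : B →ₐ[A] C)
    (x : C →ₐ[A] Ω), act B (x.comp g) = (act C x).comp g

section

variable (A Ω : Type) [CommRing A] [Algebra ℚ A] [Field Ω] [Algebra ℚ Ω] [Algebra A Ω]

instance ratTower : IsScalarTower ℚ A Ω := IsScalarTower.of_algebraMap_eq' (Subsingleton.elim _ _)

/-- The point `a ⊗ c ↦ a · ι(x(c))` of the fibre of `A ⊗ C` given by a point `x` of the fibre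
`Hom_ℚ(C, ℚ̄)` of the finite étale `ℚ`-algebra `C`. -/
noncomputable def pull (ι : AlgebraicClosure ℚ →ₐ[ℚ] Ω) (C : Type) [CommRing C] [Algebra ℚ C]
    (x : C →ₐ[ℚ] AlgebraicClosure ℚ) : A ⊗[ℚ] C →ₐ[A] Ω :=
  Algebra.TensorProduct.lift (Algebra.ofId A Ω) (ι.comp x) (fun _ _ => Commute.all _ _)

/-- The element `γ` of `π₁(Spec A, Ω)` is mapped to the element `τ` of
`Gal(ℚ̄/ℚ) = π₁(Spec ℚ, Ω)` by the homomorphism `p` induced by the structure morphism. -/
def MapsTo (ι : AlgebraicClosure ℚ →ₐ[ℚ] Ω) (γ : FundGrp A Ω)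
    (τ : AlgebraicClosure ℚ ≃ₐ[ℚ] AlgebraicClosure ℚ) : Prop :=
  ∀ (C : Type) [CommRing C] [Algebra ℚ C] [Module.Finite ℚ C] [Algebra.Etale ℚ C]
    (x : C →ₐ[ℚ] AlgebraicClosure ℚ),
    γ.act (A ⊗[ℚ] C) (pull A Ω ι C x) = pull A Ω ι C ((τ : _ →ₐ[ℚ] _).comp x)

/-- `p : π₁(Spec A, Ω) → Gal(ℚ̄/ℚ)` has a splitting: a homomorphism `s` with `p ∘ s = id`,
continuous for the topology on `π₁` for which it acts continuously on the finite sets
`Hom_A(B, Ω)`. The identification of `π₁(Spec ℚ, Ω)` with `Gal(ℚ̄/ℚ)` is given by an embedding `ι` of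
`ℚ̄` in `Ω`. -/
def HasSplitting : Prop :=
  ∃ (ι : AlgebraicClosure ℚ →ₐ[ℚ] Ω)
    (s : (AlgebraicClosure ℚ ≃ₐ[ℚ] AlgebraicClosure ℚ) → FundGrp A Ω),
    (∀ (τ τ' : AlgebraicClosure ℚ ≃ₐ[ℚ] AlgebraicClosure ℚ) (B : Type) [CommRing B] [Algebra A B]
      [Module.Finite A B] [Algebra.Etale A B], (s (τ * τ')).act B = (s τ).act B * (s τ').act B) ∧
    (∀ (B : Type) [CommRing B] [Algebra A B] [Module.Finite A B] [Algebra.Etale A B]
      (x : B →ₐ[A] Ω), IsLocallyConstant fun τ => (s τ).act B x) ∧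
    ∀ τ, MapsTo A Ω ι (s τ) τ

end

section

variable (R : Type) [CommRing R] [IsDomain R] [Algebra ℚ R]

/-- The splitting condition for `X = Spec R`: for every nonzero `f` in `R` the homomorphism
`π₁(D(f)) → Gal(ℚ̄/ℚ)` has a splitting, `D(f) = Spec R_f` the open subset of `X` where `f` is
invertible. (Every dense open subset `U` of `X` contains such a `D(f)`, and `π₁(D(f))` maps to
`π₁(U)`.) The base point is the geometric generic point. -/
def SplittingCondition : Prop :=
  ∀ f : R, f ≠ 0 →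
    ∃ (_ : Algebra (Localization.Away f) (AlgebraicClosure (FractionRing R)))
      (_ : IsScalarTower R (Localization.Away f) (AlgebraicClosure (FractionRing R))),
      HasSplitting (Localization.Away f) (AlgebraicClosure (FractionRing R))

/-- A birational splitting: the homomorphism `Gal(K̄/K) → Gal(ℚ̄/ℚ)` given by an embedding `ι` of
`ℚ̄` in `K̄` has a continuous splitting, `K` the function field of `X = Spec R`. -/
def BirationalSplitting : Prop :=
  ∃ (ι : AlgebraicClosure ℚ →+* AlgebraicClosure (FractionRing R))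
    (s : (AlgebraicClosure ℚ ≃ₐ[ℚ] AlgebraicClosure ℚ) →*
      (AlgebraicClosure (FractionRing R) ≃ₐ[FractionRing R] AlgebraicClosure (FractionRing R))),
    Continuous s ∧ ∀ τ z, s τ (ι z) = ι (τ z)

end

end Pool.Agent.N888.TB
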