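import Pool.Agent.N888.TB.Ad

/-!
# The curve `E ∖ E[2]` has adelic points
-/

set_option autoImplicit false

open scoped TensorProduct
open Polynomial

namespace Pool.Agent.N888.TB

/-- A number congruent to a nonzero square is a square, `p` odd. -/
lemma sqrt_odd (p : ℕ) [hp : Fact p.Prime] (hp2 : p ≠ 2) (a b : ℤ) (hb : ¬ (p : ℤ) ∣ b) (h : (p : ℤ) ∣ a - b ^ 2) :
    ∃ z : ℚ_[p], z ^ 2 = a ∧ ‖z‖ = 1 := by
  have hb1 : ‖(b : ℚ_[p])‖ = 1 := by
    have h1 : ¬ ‖(b : ℚ_[p])‖ < 1 := by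
      rw [Padic.norm_intCast_lt_one_iff]
      exact hb
    exact le_antisymm (Padic.norm_int_le_one b) (not_lt.1 h1)
  have hb0 : (b : ℚ_[p]) ≠ 0 := by
    rw [← norm_pos_iff, hb1]
    exact one_pos
  have h1 : ‖(a : ℚ_[p]) - b ^ 2‖ < 1 := by
    have := (Padic.norm_intCast_lt_one_iff (p := p) (k := a - b ^ 2)).2 h
    simpa using this
  have h2 : ‖((2 : ℕ) : ℚ_[p])‖ = 1 := by
    rw [Padic.norm_natCast_eq_one_iff]
    exact (Nat.coprime_primes hp.out Nat.prime_two).2 hp2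
  obtain ⟨s, hs⟩ := root_near_one' (p := p) 2 ((a : ℚ_[p]) / b ^ 2) (by
    have h3 : (a : ℚ_[p]) / b ^ 2 - 1 = (a - b ^ 2) / b ^ 2 := by field_simp
    rw [h3, norm_div, norm_pow, hb1, one_pow, div_one, h2, one_pow]
    exact h1)
  have h4 : (b * s) ^ 2 = (a : ℚ_[p]) := by
    rw [mul_pow, ← hs]
    field_simp
  refine ⟨b * s, h4, ?_⟩
  have h5 : ‖(a : ℚ_[p])‖ = 1 := by
    have h6 : (a : ℚ_[p]) = (a - b ^ 2) + b ^ 2 := by ring
    have h7 : ‖((b : ℚ_[p])) ^ 2‖ = 1 := by rw [norm_pow, hb1, one_pow]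
    rw [h6, IsUltrametricDist.norm_add_eq_max_of_norm_ne_norm, h7]
    · exact max_eq_right h1.le
    · rw [h7]
      exact h1.ne
  have h6 : ‖(b : ℚ_[p]) * s‖ ^ 2 = 1 := by rw [← norm_pow, h4, h5]
  nlinarith [norm_nonneg ((b : ℚ_[p]) * s)]

/-- One of `2`, `15`, `30` is a square modulo `p`. -/
lemma sq_cases (p : ℕ) [hp : Fact p.Prime] (hp7 : 7 ≤ p) :
    ∃ a ∈ ({2, 15, 30} : Set ℤ), ∃ z : ℚ_[p], z ^ 2 = a ∧ ‖z‖ = 1 := by
  have hp2 : p ≠ 2 := by omega
  have key : ∀ a : ℤ, ((a : ℤ) : ZMod p) ≠ 0 → IsSquare ((a : ℤ) : ZMod p) → ∃ z : ℚ_[p], z ^ 2 = a ∧ ‖z‖ = 1 := by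
    intro a ha ⟨b, hb⟩
    obtain ⟨b, rfl⟩ := ZMod.intCast_surjective b
    refine sqrt_odd p hp2 a b ?_ ?_
    · rw [← ZMod.intCast_zmod_eq_zero_iff_dvd]
      intro h0
      rw [h0, mul_zero] at hb
      exact ha hb
    · rw [← ZMod.intCast_zmod_eq_zero_iff_dvd]
      push_cast
      rw [hb]
      ring
  have hne : ∀ a : ℕ, a ∈ ({2, 3, 5} : Set ℕ) → ((a : ℕ) : ZMod p) ≠ 0 := by
    intro a ha h0
    rw [ZMod.natCast_eq_zero_iff] at h0
    simp only [Set.mem_insert_iff, Set.mem_singleton_iff] at ha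
    rcases ha with rfl | rfl | rfl
    all_goals
      have := Nat.le_of_dvd (by norm_num) h0
      omega
  have h2 : ((2 : ℤ) : ZMod p) ≠ 0 := by have := hne 2 (by simp); exact_mod_cast this
  have h3 : ((3 : ℤ) : ZMod p) ≠ 0 := by have := hne 3 (by simp); exact_mod_cast this
  have h5 : ((5 : ℤ) : ZMod p) ≠ 0 := by have := hne 5 (by simp); exact_mod_cast this
  have h15 : ((15 : ℤ) : ZMod p) ≠ 0 := by
    have : ((15 : ℤ) : ZMod p) = ((3 : ℤ) : ZMod p) * ((5 : ℤ) : ZMod p) := by push_cast; norm_num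
    rw [this]
    exact mul_ne_zero h3 h5
  have h30' : ((30 : ℤ) : ZMod p) = ((2 : ℤ) : ZMod p) * ((15 : ℤ) : ZMod p) := by push_cast; norm_num
  have h30 : ((30 : ℤ) : ZMod p) ≠ 0 := by
    rw [h30']
    exact mul_ne_zero h2 h15
  by_cases s2 : IsSquare ((2 : ℤ) : ZMod p)
  · exact ⟨2, by simp, key 2 h2 s2⟩
  by_cases s15 : IsSquare ((15 : ℤ) : ZMod p)
  · exact ⟨15, by simp, key 15 h15 s15⟩
  refine ⟨30, by simp, key 30 h30 ?_⟩
  have c2 := (quadraticChar_neg_one_iff_not_isSquare (F := ZMod p)).2 s2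
  have c15 := (quadraticChar_neg_one_iff_not_isSquare (F := ZMod p)).2 s15
  rw [← quadraticChar_one_iff_isSquare h30, h30', map_mul, c2, c15]
  norm_num

/-- a `p`-adic point of `X` -/
lemma exists_padic_point (p : ℕ) [hp : Fact p.Prime] :
    ∃ P : CurveRing →+* ℚ_[p], 14 ≤ p → ‖P xR‖ ≤ 1 ∧ ‖P yR‖ = 1 := by
  by_cases hp7 : 7 ≤ p
  · obtain ⟨a, ha, z, hz, hz1⟩ := sq_cases p hp7
    have hz0 : z ≠ 0 := by
      rw [← norm_pos_iff, hz1]
      exact one_pos
    simp only [Set.mem_insert_iff, Set.mem_singleton_iff] at ha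
    rcases ha with rfl | rfl | rfl
    · obtain ⟨P, hP1, hP2⟩ := exists_point (1 : ℚ_[p]) z (by rw [hz]; norm_num) hz0
      refine ⟨P, fun _ => ?_⟩
      rw [hP1, hP2]
      simp [hz1]
    · have h25 : ((26 : ℚ_[p]) / 25) * z ≠ 0 := mul_ne_zero (by norm_num) hz0
      obtain ⟨P, hP1, hP2⟩ := exists_point ((12 : ℚ_[p]) / 5) (((26 : ℚ_[p]) / 25) * z) (by
        rw [mul_pow, hz]; norm_num) h25
      refine ⟨P, fun hp14 => ?_⟩
      have hn : ∀ n : ℕ, (p.Coprime n) → ‖((n : ℕ) : ℚ_[p])‖ = 1 := fun n hn => Padic.norm_natCast_eq_one_iff.2 hn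
      have hc : ∀ n : ℕ, n ∈ ({2, 3, 5, 13} : Set ℕ) → p.Coprime n := by
        intro n hn
        simp only [Set.mem_insert_iff, Set.mem_singleton_iff] at hn
        rw [Nat.Prime.coprime_iff_not_dvd hp.out]
        intro hd
        rcases hn with rfl | rfl | rfl | rfl
        all_goals
          have := Nat.le_of_dvd (by norm_num) hd
          omega
      have c12 : p.Coprime 12 := by
        rw [show 12 = 2 * 2 * 3 by norm_num]
        exact ((hc 2 (by simp)).mul_right (hc 2 (by simp))).mul_right (hc 3 (by simp))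
      have c26 : p.Coprime 26 := by
        rw [show 26 = 2 * 13 by norm_num]
        exact (hc 2 (by simp)).mul_right (hc 13 (by simp))
      have c25 : p.Coprime 25 := by
        rw [show 25 = 5 * 5 by norm_num]
        exact (hc 5 (by simp)).mul_right (hc 5 (by simp))
      have n12 := hn 12 c12
      have n5 := hn 5 (hc 5 (by simp))
      have n26 := hn 26 c26
      have n25 := hn 25 c25
      push_cast at n12 n5 n26 n25
      rw [hP1, hP2, norm_div, norm_mul, norm_div, n12, n5, n26, n25, hz1]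
      norm_num
    · obtain ⟨P, hP1, hP2⟩ := exists_point (3 : ℚ_[p]) z (by rw [hz]; norm_num) hz0
      refine ⟨P, fun _ => ?_⟩
      rw [hP1, hP2]
      refine ⟨?_, hz1⟩
      have := Padic.norm_int_le_one (p := p) 3
      simpa using this
  · have hpc : p = 2 ∨ p = 3 ∨ p = 5 := by
      have h2 := hp.out.two_le
      interval_cases p
      · simp
      · simp
      · exact absurd hp.out (by norm_num)
      · simp
      · exact absurd hp.out (by norm_num)
    rcases hpc with rfl | rfl | rfl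
    · -- `x = 1/4`, `y² = 17/64`
      obtain ⟨s, hs⟩ := root_near_one' (p := 2) 2 (17 : ℚ_[2]) (by
        have h1 : (17 : ℚ_[2]) - 1 = ((2 : ℕ) : ℚ_[2]) ^ 4 := by norm_num
        rw [h1, norm_pow, Padic.norm_p]
        norm_num)
      have hs0 : s ≠ 0 := by
        rintro rfl
        norm_num at hs
      obtain ⟨P, hP1, hP2⟩ := exists_point (1 / 4 : ℚ_[2]) (s / 8) (by
        rw [div_pow, ← hs]; norm_num) (div_ne_zero hs0 (by norm_num))
      exact ⟨P, fun h => absurd h (by norm_num)⟩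
    · obtain ⟨z, hz, hz1⟩ := sqrt_odd 3 (by norm_num) 10 1 (by norm_num) (by norm_num)
      have hz0 : z ≠ 0 := by
        rw [← norm_pos_iff, hz1]
        exact one_pos
      obtain ⟨P, hP1, hP2⟩ := exists_point (2 : ℚ_[3]) z (by rw [hz]; norm_num) hz0
      exact ⟨P, fun h => absurd h (by norm_num)⟩
    · obtain ⟨z, hz, hz1⟩ := sqrt_odd 5 (by norm_num) 14 2 (by norm_num) (by norm_num)
      have hz0 : z ≠ 0 := by
        rw [← norm_pos_iff, hz1]
        exact one_pos
      obtain ⟨P, hP1, hP2⟩ := exists_point (7 : ℚ_[5]) (5 * z) (by rw [mul_pow, hz]; norm_num) (mul_ne_zero (by norm_num) hz0)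
      exact ⟨P, fun h => absurd h (by norm_num)⟩

/-- `X` has an adelic point. -/
theorem nonempty_adelic : Nonempty (AdelicPoint CurveRing) := by
  choose F hF using exists_padic_point
  obtain ⟨G, -, -⟩ := exists_point (1 : ℝ) (Real.sqrt 2) (by rw [Real.sq_sqrt (by norm_num)]; norm_num)
    (by positivity)
  refine ⟨⟨fun p hp => @F p hp, G, fun r => ?_⟩⟩
  have h1 := mem_adjoin r
  induction h1 using Algebra.adjoin_induction with
  | mem x hx =>
    refine (Set.finite_lt_nat 14).subset ?_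
    rintro p ⟨hp, h2⟩
    simp only [Set.mem_ofPred_eq]
    by_contra h3
    obtain ⟨h4, h5⟩ := @hF p hp (not_lt.1 h3)
    apply h2
    simp only [Set.mem_insert_iff, Set.mem_singleton_iff] at hx
    rcases hx with rfl | rfl | rfl
    · exact h4
    · exact h5.le
    · have h6 : ‖@F p hp yR‖ * ‖@F p hp (↑unit_yR.unit⁻¹ : CurveRing)‖ = 1 := by
        rw [← norm_mul, ← map_mul]
        have : yR * (↑unit_yR.unit⁻¹ : CurveRing) = 1 := unit_yR.mul_val_inv
        rw [this, map_one, norm_one]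
      rw [h5, one_mul] at h6
      exact h6.le
  | algebraMap c =>
    have h2 : {p : ℕ | ∃ _ : Fact p.Prime, ¬ ‖((c : ℚ) : ℚ_[p])‖ ≤ 1}.Finite := by
      refine (Set.finite_le_nat c.den).subset ?_
      rintro p ⟨hp, h2⟩
      simp only [Set.mem_ofPred_eq]
      have h3 : ¬ (Nat.Coprime p c.den) := by
        intro h4
        apply h2
        have h5 : ‖((c.den : ℕ) : ℚ_[p])‖ = 1 := Padic.norm_natCast_eq_one_iff.2 h4
        have h6 : ((c : ℚ) : ℚ_[p]) = (c.num : ℚ_[p]) / (c.den : ℚ_[p]) := by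
          conv_lhs => rw [← Rat.num_div_den c]
          push_cast
          rfl
        rw [h6, norm_div, h5, div_one]
        exact Padic.norm_int_le_one _
      rw [Nat.Prime.coprime_iff_not_dvd hp.out, not_not] at h3
      exact Nat.le_of_dvd c.den_pos h3
    refine h2.subset ?_
    rintro p ⟨hp, h3⟩
    refine ⟨hp, ?_⟩
    have h4 : @F p hp (algebraMap ℚ CurveRing c) = ((c : ℚ) : ℚ_[p]) := by
      rw [← RingHom.comp_apply]
      exact eq_ratCast _ _
    rwa [h4] at h3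
  | add x y hx hy hx' hy' =>
    refine (hx'.union hy').subset ?_
    rintro p ⟨hp, h2⟩
    by_contra h3
    rw [Set.mem_union, not_or] at h3
    apply h2
    have h4 : ‖@F p hp x‖ ≤ 1 := by
      by_contra h5
      exact h3.1 ⟨hp, h5⟩
    have h5 : ‖@F p hp y‖ ≤ 1 := by
      by_contra h5
      exact h3.2 ⟨hp, h5⟩
    rw [map_add]
    exact (IsUltrametricDist.norm_add_le_max _ _).trans (max_le h4 h5)
  | mul x y hx hy hx' hy' =>
    refine (hx'.union hy').subset ?_
    rintro p ⟨hp, h2⟩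
    by_contra h3
    rw [Set.mem_union, not_or] at h3
    apply h2
    have h4 : ‖@F p hp x‖ ≤ 1 := by
      by_contra h5
      exact h3.1 ⟨hp, h5⟩
    have h5 : ‖@F p hp y‖ ≤ 1 := by
      by_contra h5
      exact h3.2 ⟨hp, h5⟩
    rw [map_mul, norm_mul]
    exact mul_le_one₀ h4 (norm_nonneg _) h5

end Pool.Agent.N888.TB
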