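import Mathlib

/-!
# Continuity of homomorphisms to Galois groups
-/

set_option autoImplicit false

open Topology

namespace Pool.Agent.N888.TB

/-- A homomorphism to the Galois group is continuous if all stabilisers are closed. -/
theorem continuous_of_closed {G : Type*} [Group G] [TopologicalSpace G] [IsTopologicalGroup G] {K L : Type*} [Field K]
    [Field L] [Algebra K L] [IsGalois K L] (s : G →* (L ≃ₐ[K] L)) (h : ∀ x : L, IsClosed {g : G | s g x = x}) :
    Continuous s := by
  apply continuous_of_continuousAt_one
  rw [ContinuousAt, map_one]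
  intro U hU
  rw [krullTopology_mem_nhds_one_iff] at hU
  obtain ⟨F, hF, hFU⟩ := hU
  have h1 : IsOpen (F.fixingSubgroup : Set (L ≃ₐ[K] L)) := F.fixingSubgroup_isOpen
  have h2 : Finite ((L ≃ₐ[K] L) ⧸ F.fixingSubgroup) := Subgroup.quotient_finite_of_isOpen _ h1
  have h3 : F.fixingSubgroup.FiniteIndex := Subgroup.finiteIndex_of_finite_quotient
  have h4 : (F.fixingSubgroup.comap s).FiniteIndex := by
    constructor
    rw [Subgroup.index_comap]
    have h5 : F.fixingSubgroup.IsFiniteRelIndex s.range := Subgroup.isFiniteRelIndex_of_finiteIndex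
    exact h5.relIndex_ne_zero
  have h5 : IsClosed ((F.fixingSubgroup.comap s : Subgroup G) : Set G) := by
    have h6 : ((F.fixingSubgroup.comap s : Subgroup G) : Set G) = ⋂ x : F, {g : G | s g x = x} := by
      ext g
      simp only [Subgroup.coe_comap, Set.mem_preimage, SetLike.mem_coe, Set.mem_iInter, Set.mem_ofPred_eq]
      rw [IntermediateField.mem_fixingSubgroup_iff]
      exact ⟨fun h x => h x x.2, fun h x hx => h ⟨x, hx⟩⟩
    rw [h6]
    exact isClosed_iInter fun x => h x
  have h6 := Subgroup.isOpen_of_isClosed_of_finiteIndex _ h5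
  rw [Filter.mem_map]
  refine Filter.mem_of_superset (h6.mem_nhds (one_mem _)) ?_
  intro g hg
  exact hFU hg

/-- The stabilizer of an element of a Galois extension is closed. -/
lemma isClosed_stab {K L : Type*} [Field K] [Field L] [Algebra K L] [Algebra.IsAlgebraic K L] (x : L) :
    IsClosed {g : L ≃ₐ[K] L | g x = x} := by
  have h1 : {g : L ≃ₐ[K] L | g x = x} = ((IntermediateField.adjoin K {x}).fixingSubgroup : Set (L ≃ₐ[K] L)) := by
    ext g
    simp only [Set.mem_ofPred_eq, SetLike.mem_coe]
    rw [IntermediateField.mem_fixingSubgroup_iff]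
    constructor
    · intro h y hy
      induction hy using IntermediateField.adjoin_induction with
      | mem y hy => 
        rw [Set.mem_singleton_iff] at hy
        rw [hy]
        exact h
      | algebraMap c => exact g.commutes c
      | add a b _ _ ha hb => rw [map_add, ha, hb]
      | inv a _ ha => rw [map_inv₀, ha]
      | mul a b _ _ ha hb => rw [map_mul, ha, hb]
    · intro h
      exact h x (IntermediateField.mem_adjoin_simple_self K x)
  rw [h1]
  have : FiniteDimensional K (IntermediateField.adjoin K {x}) :=
    IntermediateField.adjoin.finiteDimensional (Algebra.IsAlgebraic.isAlgebraic x).isIntegral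
  exact IntermediateField.fixingSubgroup_isClosed _

end Pool.Agent.N888.TB
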