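import Pool.Agent.N888.TB.Def
import Pool.Agent.N888.TB.Kr

/-!
# A birational splitting gives the splitting condition
-/

set_option autoImplicit false

open scoped TensorProduct Topology

namespace Pool.Agent.N888.TB

/-- evaluation of automorphisms at an element is locally constant -/
lemma eval_isLocallyConstant {K L : Type*} [Field K] [Field L] [Algebra K L] [Algebra.IsAlgebraic K L] (x : L) :
    IsLocallyConstant (fun g : L ≃ₐ[K] L => g x) := by
  rw [IsLocallyConstant.iff_eventually_eq]
  intro g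
  have hfd : FiniteDimensional K (IntermediateField.adjoin K {x}) :=
    IntermediateField.adjoin.finiteDimensional (Algebra.IsAlgebraic.isAlgebraic x).isIntegral
  have h1 : IsOpen ((IntermediateField.adjoin K {x}).fixingSubgroup : Set (L ≃ₐ[K] L)) :=
    IntermediateField.fixingSubgroup_isOpen _
  have h2 : ((IntermediateField.adjoin K {x}).fixingSubgroup : Set (L ≃ₐ[K] L)) ∈ 𝓝 (1 : L ≃ₐ[K] L) :=
    h1.mem_nhds (one_mem _)
  have h3 : Filter.Tendsto (fun g' : L ≃ₐ[K] L => g⁻¹ * g') (𝓝 g) (𝓝 1) := by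
    have h4 : ContinuousAt (fun g' : L ≃ₐ[K] L => g⁻¹ * g') g := (continuous_const.mul continuous_id).continuousAt
    rw [ContinuousAt, inv_mul_cancel] at h4
    exact h4
  filter_upwards [h3 h2] with g' hg'
  have h5 : (g⁻¹ * g') x = x :=
    (IntermediateField.mem_fixingSubgroup_iff _ _).1 hg' x (IntermediateField.mem_adjoin_simple_self K x)
  have h6 := congrArg g h5
  rwa [← AlgEquiv.mul_apply, ← mul_assoc, mul_inv_cancel, one_mul] at h6

section

variable {K Ω A : Type} [Field K] [Field Ω] [Algebra K Ω] [CommRing A] [Algebra A K] [Algebra A Ω]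
  [IsScalarTower A K Ω]

/-- The element of the fundamental group given by an element of the Galois group. -/
def ofGal (g : Ω ≃ₐ[K] Ω) : FundGrp A Ω where
  act B _ _ _ _ :=
    { toFun := fun x => ((g : Ω →ₐ[K] Ω).restrictScalars A).comp x
      invFun := fun x => ((g.symm : Ω →ₐ[K] Ω).restrictScalars A).comp x
      left_inv := fun x => by
        ext b
        exact g.symm_apply_apply _
      right_inv := fun x => by
        ext b
        exact g.apply_symm_apply _ }
  natural B C _ _ _ _ _ _ _ _ f x := rfl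

lemma ofGal_act (g : Ω ≃ₐ[K] Ω) (B : Type) [CommRing B] [Algebra A B] [Module.Finite A B] [Algebra.Etale A B]
    (x : B →ₐ[A] Ω) (b : B) : (ofGal (A := A) g).act B x b = g (x b) := rfl

variable [Algebra ℚ A] [Algebra ℚ Ω] [Algebra.IsAlgebraic K Ω]

theorem hasSplitting_of (ι : AlgebraicClosure ℚ →ₐ[ℚ] Ω)
    (s : (AlgebraicClosure ℚ ≃ₐ[ℚ] AlgebraicClosure ℚ) →* (Ω ≃ₐ[K] Ω)) (hs : Continuous s)
    (h : ∀ τ z, s τ (ι z) = ι (τ z)) : HasSplitting A Ω := by
  refine ⟨ι, fun τ => ofGal (s τ), ?_, ?_, ?_⟩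
  · intro τ τ' B _ _ _ _
    ext x b
    rw [ofGal_act, Equiv.Perm.mul_apply, ofGal_act, ofGal_act, map_mul, AlgEquiv.mul_apply]
  · intro B _ _ _ _ x
    obtain ⟨S, hS⟩ := Module.Finite.fg_top (R := A) (M := B)
    have h1 : ∀ b : B, IsLocallyConstant fun τ => s τ (x b) := fun b => (eval_isLocallyConstant (x b)).comp_continuous hs
    rw [IsLocallyConstant.iff_eventually_eq]
    intro τ
    have h2 : ∀ᶠ τ' in 𝓝 τ, ∀ b ∈ S, s τ' (x b) = s τ (x b) := by
      rw [Filter.eventually_all_finset]
      intro b _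
      exact (IsLocallyConstant.iff_eventually_eq _).1 (h1 b) τ
    filter_upwards [h2] with τ' hτ'
    have h3 : ((ofGal (A := A) (s τ')).act B x).toLinearMap = ((ofGal (A := A) (s τ)).act B x).toLinearMap := by
      apply LinearMap.ext_on hS
      intro b hb
      exact hτ' b hb
    exact AlgHom.toLinearMap_injective h3
  · intro τ C _ _ _ _ x
    apply Algebra.TensorProduct.ext
    · ext
    · ext c
      simp only [AlgHom.comp_apply, AlgHom.restrictScalars_apply, Algebra.TensorProduct.includeRight_apply]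
      rw [ofGal_act]
      simp only [pull, Algebra.TensorProduct.lift_tmul, map_one, one_mul, AlgHom.comp_apply]
      exact h τ (x c)

end

theorem hasSplitting_away {R A K Ω : Type} [CommRing R] [IsDomain R] [CommRing A] [Algebra R A] [Algebra ℚ A]
    [Field K] [Algebra R K] [IsFractionRing R K] [Field Ω] [Algebra K Ω] [Algebra.IsAlgebraic K Ω] [Algebra R Ω]
    [IsScalarTower R K Ω] [Algebra ℚ Ω] (f : R) (hf : f ≠ 0) [IsLocalization.Away f A]
    (ι : AlgebraicClosure ℚ →+* Ω)
    (s : (AlgebraicClosure ℚ ≃ₐ[ℚ] AlgebraicClosure ℚ) →* (Ω ≃ₐ[K] Ω)) (hs : Continuous s)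
    (h : ∀ τ z, s τ (ι z) = ι (τ z)) :
    ∃ (_ : Algebra A Ω) (_ : IsScalarTower R A Ω), HasSplitting A Ω := by
  have hu : IsUnit (algebraMap R K f) := by
    rw [isUnit_iff_ne_zero, Ne, FaithfulSMul.algebraMap_eq_zero_iff]
    exact hf
  let _ : Algebra A K := (IsLocalization.Away.lift f hu).toAlgebra
  let _ : Algebra A Ω := ((algebraMap K Ω).comp (algebraMap A K)).toAlgebra
  have h1 : IsScalarTower R A K := IsScalarTower.of_algebraMap_eq' (by
    refine RingHom.ext fun x => ?_
    exact (IsLocalization.Away.lift_eq f hu x).symm)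
  have h2 : IsScalarTower A K Ω := IsScalarTower.of_algebraMap_eq' rfl
  have h3 : IsScalarTower R A Ω :=
    IsScalarTower.of_algebraMap_eq' (by
      rw [IsScalarTower.algebraMap_eq A K Ω, RingHom.comp_assoc, ← IsScalarTower.algebraMap_eq R A K]
      exact IsScalarTower.algebraMap_eq R K Ω)
  refine ⟨inferInstance, h3, ?_⟩
  let ι' : AlgebraicClosure ℚ →ₐ[ℚ] Ω :=
    { ι with commutes' := fun q => RingHom.congr_fun (Subsingleton.elim (ι.comp (algebraMap ℚ (AlgebraicClosure ℚ))) (algebraMap ℚ Ω)) q }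
  exact hasSplitting_of (K := K) ι' s hs h

theorem splittingCondition_of {R : Type} [CommRing R] [IsDomain R] [Algebra ℚ R] (h : BirationalSplitting R) :
    SplittingCondition R := by
  obtain ⟨ι, s, hs, hsι⟩ := h
  intro f hf
  exact hasSplitting_away (A := Localization.Away f) (K := FractionRing R) f hf ι s hs hsι

end Pool.Agent.N888.TB
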