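import Pool.Agent.N888.TB.Ex
import Pool.Agent.N888.TB.Bs
import Pool.Agent.N888.TB.Sc

/-!
# The curve `E ∖ E[2]` satisfies the splitting condition and has an empty Brauer-Manin set
-/

set_option autoImplicit false

namespace Pool.Agent.N888.TB

theorem curve_birational : BirationalSplitting CurveRing := by
  obtain ⟨ι, s, hs, h⟩ := birational_section
  exact ⟨ι, s, hs, h⟩

theorem curve_main :
    ∃ (R : Type) (_ : CommRing R) (_ : IsDomain R) (_ : Algebra ℚ R), Algebra.FiniteType ℚ R ∧
    BirationalSplitting R ∧ SplittingCondition R ∧ Nonempty (AdelicPoint R) ∧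
    ∀ (I : LocalInvariants) (P : AdelicPoint R), ¬ InBrauerManinSet I P :=
  ⟨CurveRing, inferInstance, inferInstance, inferInstance, inferInstance, curve_birational,
    splittingCondition_of curve_birational, nonempty_adelic, bm_empty⟩

end Pool.Agent.N888.TB
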