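import Pool.Agent.N888.TB.Cv
import Pool.Agent.N888.TB.Kr
import Pool.Agent.Helper165.P1.Fields

/-!
# The Puiseux expansion of the curve at the point `(0, 0)`
-/

set_option autoImplicit false

open Polynomial
open Pool.Agent.Helper165.P1

namespace Pool.Agent.N888.TB

/-- the algebraic closure of `ℚ` -/
abbrev Qb : Type := AlgebraicClosure ℚ

instance isAlgQb : Algebra.IsAlgebraic ℚ Qb := AlgebraicClosure.isAlgebraic ℚ

/-- Puiseux series with coefficients in `Qb` -/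
abbrev PP : Type := Pui Qb

/-- the coefficients of a Puiseux series -/
noncomputable def cf (v : PP) (q : ℚ) : Qb := (v : HQ Qb).coeff q

lemma cf_ext {v w : PP} (h : ∀ q, cf v q = cf w q) : v = w := by
  apply Subtype.ext
  ext q
  exact h q

/-- the action of the Galois group on the coefficients -/
noncomputable def act1 (τ : Qb ≃ₐ[ℚ] Qb) : PP ≃+* PP := twP (τ : Qb ≃+* Qb) 1

lemma cf_act1 (τ : Qb ≃ₐ[ℚ] Qb) (v : PP) (q : ℚ) : cf (act1 τ v) q = τ (cf v q) := by
  rw [cf, act1, twP_coeff, AddChar.one_apply, one_mul]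
  rfl

/-- constant series -/
noncomputable def ct : Qb →+* PP := (eP (E := Qb) 1 one_pos).comp HahnSeries.C

noncomputable instance algPP : Algebra ℚ PP := (ct.comp (algebraMap ℚ Qb)).toAlgebra

/-- the variable -/
noncomputable def tt : PP := eP (E := Qb) 1 one_pos (HahnSeries.single 1 1)

lemma cf_eP (x : NP.LS Qb) (n : ℤ) : cf (eP (E := Qb) 1 one_pos x) n = x.coeff n := by
  have h := eHom_coeff (E := Qb) 1 one_pos x n
  simp only [Nat.cast_one, div_one] at h
  exact h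

lemma cf_eP_of_ne (x : NP.LS Qb) (q : ℚ) (h : ∀ n : ℤ, (n : ℚ) ≠ q) : cf (eP (E := Qb) 1 one_pos x) q = 0 := by
  apply eHom_coeff_of_ne (E := Qb) 1 one_pos x q
  simpa using h

lemma cf_ct (z : Qb) (q : ℚ) : cf (ct z) q = if q = 0 then z else 0 := by
  by_cases h : ∃ n : ℤ, (n : ℚ) = q
  · obtain ⟨n, rfl⟩ := h
    rw [ct, RingHom.comp_apply, cf_eP, HahnSeries.C_apply, HahnSeries.coeff_single]
    simp
  · push Not at h
    rw [ct, RingHom.comp_apply, cf_eP_of_ne _ _ h, if_neg]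
    rintro rfl
    exact h 0 (by simp)

lemma act1_ct (τ : Qb ≃ₐ[ℚ] Qb) (z : Qb) : act1 τ (ct z) = ct (τ z) := by
  apply cf_ext
  intro q
  rw [cf_act1, cf_ct, cf_ct]
  split_ifs
  · rfl
  · exact map_zero τ

lemma tt_pow (n : ℕ) : tt ^ n = eP (E := Qb) 1 one_pos (HahnSeries.single (n : ℤ) 1) := by
  rw [tt, ← map_pow, HahnSeries.single_pow]
  simp

lemma cf_tt_pow (n : ℕ) (q : ℚ) : cf (tt ^ n) q = if q = n then 1 else 0 := by
  rw [tt_pow]
  by_cases h : ∃ m : ℤ, (m : ℚ) = q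
  · obtain ⟨m, rfl⟩ := h
    rw [cf_eP, HahnSeries.coeff_single]
    congr 1
    simp only [eq_iff_iff]
    exact_mod_cast Iff.rfl
  · push Not at h
    rw [cf_eP_of_ne _ _ h, if_neg]
    rintro rfl
    exact h n (by simp)

lemma act1_tt (τ : Qb ≃ₐ[ℚ] Qb) : act1 τ tt = tt := by
  apply cf_ext
  intro q
  have h := cf_tt_pow 1 q
  rw [pow_one] at h
  rw [cf_act1, h]
  split_ifs
  · exact map_one τ
  · exact map_zero τ

lemma tt_ne : tt ≠ 0 := by
  intro h
  have h1 := cf_tt_pow 1 1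
  rw [pow_one, h] at h1
  simp only [Nat.cast_one, if_true] at h1
  have h2 : cf (0 : PP) 1 = 0 := rfl
  rw [h2] at h1
  exact zero_ne_one h1

/-- The square root of `1 + t ^ 4`. -/
lemma exists_sqrt : ∃ s : PP, s ^ 2 = 1 + tt ^ 4 ∧ s ≠ 0 ∧ ∀ τ, act1 τ s = s := by
  obtain ⟨s, hs⟩ := IsAlgClosed.exists_pow_nat_eq (1 + tt ^ 4 : PP) (n := 2) two_pos
  have h1 : ∀ q, cf (1 + tt ^ 4 : PP) q = (if q = 0 then 1 else 0) + (if q = 4 then 1 else 0) := by
    intro q
    have h2 : cf (1 + tt ^ 4 : PP) q = cf (tt ^ 0 : PP) q + cf (tt ^ 4 : PP) q := by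
      rw [pow_zero]
      rfl
    rw [h2, cf_tt_pow, cf_tt_pow]
    norm_num
  have h10 : cf (1 + tt ^ 4 : PP) 0 = 1 := by rw [h1]; norm_num
  have hO : ((1 + tt ^ 4 : PP) : HQ Qb) ∈ (OH : Subring (HQ Qb)) := by
    intro q hq
    have h2 := h1 q
    rw [if_neg hq.ne, if_neg (by linarith), add_zero] at h2
    exact h2
  have hs0 : s ≠ 0 := by
    rintro rfl
    rw [← hs] at h10
    simp only [ne_eq, OfNat.ofNat_ne_zero, not_false_eq_true, zero_pow] at h10
    have h2 : cf (0 : PP) 0 = 0 := rfl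
    rw [h2] at h10
    exact zero_ne_one h10
  have hcoe : (s : HQ Qb) * (s : HQ Qb) = ((1 + tt ^ 4 : PP) : HQ Qb) := by
    rw [← hs, pow_two]
    rfl
  have hsO : (s : HQ Qb) ∈ (OH : Subring (HQ Qb)) := by
    rcases mem_or_inv_mem (s : HQ Qb) with h | h
    · exact h
    · have h2 : ((s : HQ Qb)⁻¹ * (s : HQ Qb)⁻¹) * ((1 + tt ^ 4 : PP) : HQ Qb) = 1 := by
        rw [← hcoe]
        have h3 : (s : HQ Qb) ≠ 0 := fun h4 => hs0 (Subtype.ext h4)
        field_simp
      have h3 := congrArg (fun v : HQ Qb => v.coeff 0) h2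
      rw [coeff_zero_mul (mul_mem h h) hO, coeff_zero_mul h h, HahnSeries.coeff_one, if_pos rfl] at h3
      have h4 : (s : HQ Qb)⁻¹.coeff 0 ≠ 0 := by
        intro h5
        rw [h5, zero_mul, zero_mul] at h3
        exact zero_ne_one h3
      have h5 := inv_mem_of_coeff_ne_zero h h4
      rwa [inv_inv] at h5
  have hc0 : cf s 0 * cf s 0 = 1 := by
    have h3 := congrArg (fun v : HQ Qb => v.coeff 0) hcoe
    rw [coeff_zero_mul hsO hsO] at h3
    exact h3.trans h10
  refine ⟨s, hs, hs0, fun τ => ?_⟩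
  have h2 : act1 τ s ^ 2 = s ^ 2 := by
    rw [← map_pow, hs, map_add, map_one, map_pow, act1_tt]
  have hrat : τ (cf s 0) = cf s 0 := by
    rcases mul_self_eq_one_iff.1 hc0 with h | h
    · rw [h, map_one]
    · rw [h, map_neg, map_one]
  rcases sq_eq_sq_iff_eq_or_eq_neg.1 h2 with h | h
  · exact h
  · exfalso
    have h3 := cf_act1 τ s 0
    rw [h, hrat] at h3
    have h4 : cf (-s) 0 = - cf s 0 := rfl
    rw [h4] at h3
    have h5 : cf s 0 = 0 := by
      have h6 : (2 : Qb) * cf s 0 = 0 := by linear_combination -h3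
      exact (mul_eq_zero.1 h6).resolve_left two_ne_zero
    rw [h5, zero_mul] at hc0
    exact zero_ne_one hc0

end Pool.Agent.N888.TB
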