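import Pool.Agent.N888.TB.Az

/-!
# The cyclic algebra `(K, σ, w)` is split if and only if `w` is a norm
-/

set_option autoImplicit false
set_option linter.unusedSectionVars false
set_option linter.unusedSimpArgs false

open scoped TensorProduct
open Matrix Module

namespace Pool.Agent.N888.TB

section split

variable {K : Type} [Field K] [Algebra ℚ K] {σ : K ≃ₐ[ℚ] K} {N : ℕ} [NeZero N]
  [FiniteDimensional ℚ K] [IsGalois ℚ K] {k : Type} [Field k] [Algebra ℚ k]

/-- the stable subspace -/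
noncomputable def Vz (σ : K ≃ₐ[ℚ] K) (N : ℕ) [NeZero N] (w : k) (z : k ⊗[ℚ] K) : Submodule k (Fin N → k ⊗[ℚ] K) where
  carrier := {v | ∀ i, z * v (i + 1) = wt N w (i + 1) * sg σ k (v i)}
  add_mem' := by
    intro v v' hv hv' i
    rw [Pi.add_apply, Pi.add_apply, mul_add, hv i, hv' i, map_add, mul_add]
  zero_mem' := by
    intro i
    simp
  smul_mem' := by
    intro c v hv i
    rw [Pi.smul_apply, Pi.smul_apply, mul_smul_comm, hv i, map_smul, mul_smul_comm]

/-- the weights -/
noncomputable def tw (σ : K ≃ₐ[ℚ] K) (y : k ⊗[ℚ] K) (n : ℕ) : k ⊗[ℚ] K := ∏ j ∈ Finset.range n, (sg σ k)^[j] y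

lemma sg_prod (n : ℕ) (y : k ⊗[ℚ] K) : sg σ k (tw σ y n) * y = tw σ y (n + 1) := by
  rw [tw, map_prod, tw, Finset.prod_range_succ']
  simp only [Function.iterate_succ_apply', Function.iterate_zero, id_eq]

/-- the vector with first coordinate `e` -/
noncomputable def vz (σ : K ≃ₐ[ℚ] K) (N : ℕ) [NeZero N] (y : k ⊗[ℚ] K) (e : k ⊗[ℚ] K) : Fin N → k ⊗[ℚ] K :=
  fun i => tw σ y i * sf σ i e

lemma vz_mem (H : Gen σ N) {w : k} {z y : k ⊗[ℚ] K} (hzy : z * y = 1)
    (hz : algebraMap k (k ⊗[ℚ] K) w * tw σ y N = 1) (e : k ⊗[ℚ] K) : vz σ N y e ∈ Vz σ N w z := by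
  intro i
  simp only [vz]
  rw [map_mul, sf_succ H]
  by_cases hi : i + 1 = 0
  · have h1 := fin_last_of_add_one_eq_zero hi
    rw [hi, Fin.val_zero, wt, if_pos rfl]
    have h2 : tw σ y 0 = 1 := by simp [tw]
    rw [h2, one_mul]
    have h3 := sg_prod (σ := σ) i.val y
    rw [h1] at h3
    have h4 : z = algebraMap k (k ⊗[ℚ] K) w * sg σ k (tw σ y i.val) := by
      calc z = z * (algebraMap k (k ⊗[ℚ] K) w * tw σ y N) := by rw [hz, mul_one]
        _ = algebraMap k (k ⊗[ℚ] K) w * sg σ k (tw σ y i.val) * (z * y) := by rw [← h3]; ring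
        _ = _ := by rw [hzy, mul_one]
    rw [h4]
    ring
  · have h1 := fin_val_add_one hi
    rw [h1, wt, if_neg hi, one_mul, ← sg_prod]
    calc z * (sg σ k (tw σ y i.val) * y * sg σ k (sf σ i e)) = (z * y) * (sg σ k (tw σ y i.val) * sg σ k (sf σ i e)) := by ring
      _ = _ := by rw [hzy, one_mul]

/-- The action on the stable subspace. -/
noncomputable def act (w : k) (z : k ⊗[ℚ] K) : cyc σ (N := N) w →ₐ[k] Module.End k (Vz σ N w z) where
  toFun M :=
    { toFun := fun v => ⟨M.1.mulVec v.1, by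
        intro i
        have h1 : ∀ i, M.1.mulVec v.1 i = ∑ j, M.1 i j * v.1 j := fun i => rfl
        rw [h1, h1, map_sum, Finset.mul_sum, Finset.mul_sum]
        rw [← Equiv.sum_comp (Equiv.addRight (1 : Fin N))]
        refine Finset.sum_congr rfl fun j _ => ?_
        simp only [Equiv.coe_addRight]
        have h2 := v.2 j
        have h3 := M.2 i j
        rw [map_mul]
        calc z * (M.1 (i + 1) (j + 1) * v.1 (j + 1)) = M.1 (i + 1) (j + 1) * (z * v.1 (j + 1)) := by ring
          _ = (M.1 (i + 1) (j + 1) * wt N w (j + 1)) * sg σ k (v.1 j) := by rw [h2]; ring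
          _ = _ := by rw [h3]; ring⟩
      map_add' := fun v v' => by
        apply Subtype.ext
        exact Matrix.mulVec_add M.1 v.1 v'.1
      map_smul' := fun c v => by
        apply Subtype.ext
        exact Matrix.mulVec_smul M.1 c v.1 }
  map_one' := by
    ext1 v
    apply Subtype.ext
    exact Matrix.one_mulVec v.1
  map_mul' M M' := by
    ext1 v
    apply Subtype.ext
    exact (Matrix.mulVec_mulVec v.1 M.1 M'.1).symm
  map_zero' := by
    ext1 v
    apply Subtype.ext
    exact Matrix.zero_mulVec v.1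
  map_add' M M' := by
    ext1 v
    apply Subtype.ext
    exact Matrix.add_mulVec M.1 M'.1 v.1
  commutes' s := by
    ext1 v
    apply Subtype.ext
    funext i
    simp only [Subalgebra.coe_algebraMap, LinearMap.coe_mk, AddHom.coe_mk]
    rw [Module.algebraMap_end_apply]
    simp only [Matrix.mulVec, dotProduct, Matrix.algebraMap_matrix_apply, SetLike.val_smul, Pi.smul_apply]
    simp [Algebra.smul_def]

lemma act_apply (w : k) (z : k ⊗[ℚ] K) (M : cyc σ (N := N) w) (v : Vz σ N w z) (i : Fin N) :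
    (act w z M v).1 i = ∑ j, M.1 i j * v.1 j := rfl

lemma tw_unit {w : k} {y : k ⊗[ℚ] K} (hz : algebraMap k (k ⊗[ℚ] K) w * tw σ y N = 1) (n : ℕ) (hn : n ≤ N) :
    IsUnit (tw σ y n) := by
  have h1 : tw σ y n ∣ tw σ y N := Finset.prod_dvd_prod_of_subset _ _ _ (Finset.range_subset_range.2 hn)
  have h2 : IsUnit (tw σ y N) := IsUnit.of_mul_eq_one _ (by rw [mul_comm]; exact hz)
  exact isUnit_of_dvd_unit h1 h2

lemma wt_unit {w : k} (hw : w ≠ 0) (i : Fin N) : IsUnit (wt (K := K) N w i) := by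
  rw [wt]
  split_ifs
  · exact (isUnit_iff_ne_zero.2 hw).map _
  · exact isUnit_one

lemma act_injective (H : Gen σ N) {w : k} (hw : w ≠ 0) {z y : k ⊗[ℚ] K} (hzy : z * y = 1)
    (hz : algebraMap k (k ⊗[ℚ] K) w * tw σ y N = 1) : Function.Injective (act (σ := σ) (N := N) w z) := by
  rw [injective_iff_map_eq_zero]
  intro M hM
  have h1 : ∀ l, M.1 0 l = 0 := by
    intro l
    have h2 : ∀ e : k ⊗[ℚ] K, ∑ j, M.1 0 j * (tw σ y j * sf σ j e) = 0 := by
      intro e
      have h3 := act_apply w z M ⟨vz σ N y e, vz_mem H hzy hz e⟩ 0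
      rw [hM] at h3
      exact h3.symm
    have h4 : ∑ kk, (∑ j, M.1 0 j * (tw σ y j * sf σ j ((1 : k) ⊗ₜ[ℚ] bs H kk))) * sf σ l ((1 : k) ⊗ₜ[ℚ] bd H kk) =
        M.1 0 l * tw σ y l := by
      simp only [Finset.sum_mul]
      rw [Finset.sum_comm]
      have h5 : ∀ j, ∑ kk, M.1 0 j * (tw σ y j * sf σ j ((1 : k) ⊗ₜ[ℚ] bs H kk)) * sf σ l ((1 : k) ⊗ₜ[ℚ] bd H kk) =
          if j = l then M.1 0 l * tw σ y l else 0 := by
        intro j
        have h6 := dual1 H j l
        have h7 : ∀ kk, M.1 0 j * (tw σ y j * sf σ j ((1 : k) ⊗ₜ[ℚ] bs H kk)) * sf σ l ((1 : k) ⊗ₜ[ℚ] bd H kk) =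
            M.1 0 j * tw σ y j * ((1 : k) ⊗ₜ[ℚ] ((σ ^ (j : ℕ)) (bs H kk) * (σ ^ (l : ℕ)) (bd H kk))) := by
          intro kk
          rw [sf_tmul, sf_tmul, ← mul_assoc, mul_assoc (M.1 0 j * tw σ y j), Algebra.TensorProduct.tmul_mul_tmul, one_mul]
        simp only [h7]
        rw [← Finset.mul_sum, ← TensorProduct.tmul_sum, h6]
        split_ifs with h8
        · rw [h8, ← Algebra.TensorProduct.one_def, mul_one]
        · rw [TensorProduct.tmul_zero, mul_zero]
      simp only [h5]
      simp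
    simp only [h2, zero_mul, Finset.sum_const_zero] at h4
    exact (tw_unit hz l l.2.le).mul_left_eq_zero.1 h4.symm
  have h3 : ∀ n : ℕ, ∀ i : Fin N, i.val = n → ∀ l, M.1 i l = 0 := by
    intro n
    induction n with
    | zero =>
      intro i hi l
      have : i = 0 := Fin.ext (by rw [hi, Fin.val_zero])
      rw [this]
      exact h1 l
    | succ n ih =>
      intro i hi l
      obtain ⟨i', hi'⟩ : ∃ i' : Fin N, i' + 1 = i := ⟨i - 1, by abel⟩
      obtain ⟨l', hl'⟩ : ∃ l' : Fin N, l' + 1 = l := ⟨l - 1, by abel⟩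
      have h0 : i' + 1 ≠ 0 := by
        rw [hi']
        intro h0
        rw [h0, Fin.val_zero] at hi
        omega
      have h4 := fin_val_add_one h0
      rw [hi'] at h4
      have h5 := M.2 i' l'
      rw [ih i' (by omega) l', map_zero, mul_zero, hi', hl'] at h5
      exact (wt_unit hw l).mul_left_eq_zero.1 h5
  apply Subtype.ext
  funext i l
  exact h3 i.val i rfl l

lemma finrank_E (H : Gen σ N) : finrank k (k ⊗[ℚ] K) = N := by
  rw [Module.finrank_baseChange, H.finrank]

lemma finrank_cyc (H : Gen σ N) (w : k) : finrank k (cyc σ (N := N) w) = N * N := by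
  rw [← (colEquiv σ H.iter w).finrank_eq, Module.finrank_pi_fintype]
  simp only [finrank_E H, Finset.sum_const, Finset.card_univ, Fintype.card_fin, smul_eq_mul]

lemma finrank_Vz (H : Gen σ N) {w : k} {z y : k ⊗[ℚ] K} (hzy : z * y = 1)
    (hz : algebraMap k (k ⊗[ℚ] K) w * tw σ y N = 1) : finrank k (Vz σ N w z) = N := by
  have h0 : ∀ v : Vz σ N w z, v.1 0 = 0 → v = 0 := by
    intro v hv
    have h3 : ∀ n : ℕ, ∀ i : Fin N, i.val = n → v.1 i = 0 := by
      intro n
      induction n with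
      | zero =>
        intro i hi
        have : i = 0 := Fin.ext (by rw [hi, Fin.val_zero])
        rw [this]
        exact hv
      | succ n ih =>
        intro i hi
        obtain ⟨i', hi'⟩ : ∃ i' : Fin N, i' + 1 = i := ⟨i - 1, by abel⟩
        have h0 : i' + 1 ≠ 0 := by
          rw [hi']
          intro h0
          rw [h0, Fin.val_zero] at hi
          omega
        have h4 := fin_val_add_one h0
        rw [hi'] at h4
        have h5 := v.2 i'
        rw [ih i' (by omega), map_zero, mul_zero, hi'] at h5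
        calc v.1 i = (z * y) * v.1 i := by rw [hzy, one_mul]
          _ = y * (z * v.1 i) := by ring
          _ = 0 := by rw [h5, mul_zero]
    apply Subtype.ext
    funext i
    exact h3 i.val i rfl
  let f : Vz σ N w z →ₗ[k] k ⊗[ℚ] K := (LinearMap.proj 0) ∘ₗ (Vz σ N w z).subtype
  have hf : Function.Bijective f := by
    constructor
    · rw [injective_iff_map_eq_zero]
      intro v hv
      exact h0 v hv
    · intro e
      refine ⟨⟨vz σ N y e, vz_mem H hzy hz e⟩, ?_⟩
      simp only [f, LinearMap.comp_apply, Submodule.subtype_apply, LinearMap.proj_apply, vz, sf_zero, Fin.val_zero]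
      simp [tw]
  rw [(LinearEquiv.ofBijective f hf).finrank_eq, finrank_E H]

theorem split_of_norm (H : Gen σ N) {w : k} (hw : w ≠ 0) {z : k ⊗[ℚ] K}
    (hz : ∏ i : Fin N, sf σ i z = algebraMap k (k ⊗[ℚ] K) w) :
    Nonempty (cyc σ (N := N) w ≃ₐ[k] Matrix (Fin N) (Fin N) k) := by
  have hu : IsUnit z := by
    have h1 : IsUnit (∏ i : Fin N, sf σ i z) := by
      rw [hz]
      exact (isUnit_iff_ne_zero.2 hw).map _
    have h2 := isUnit_of_dvd_unit (Finset.dvd_prod_of_mem (fun i : Fin N => sf σ i z) (Finset.mem_univ 0)) h1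
    rwa [sf_zero] at h2
  obtain ⟨y, hzy⟩ := hu.exists_right_inv
  have hz' : algebraMap k (k ⊗[ℚ] K) w * tw σ y N = 1 := by
    rw [← hz, tw, Finset.prod_range]
    rw [← Finset.prod_mul_distrib]
    apply Finset.prod_eq_one
    intro i _
    rw [sg_iter_eq]
    have : sf σ i z * (sg σ k ^ (i : ℕ)) y = sf σ i (z * y) := by rw [map_mul]; rfl
    rw [this, hzy, map_one]
  have hf1 := finrank_Vz H hzy hz'
  have hf2 := finrank_cyc H w
  have h2 := finite_cyc H w
  have hfin : Module.Finite k (Vz σ N w z) := Module.finite_of_finrank_pos (by rw [hf1]; exact NeZero.pos N)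
  have hinj := act_injective H hw hzy hz'
  let g : cyc σ (N := N) w →ₐ[k] Matrix (Fin N) (Fin N) k :=
    (algEquivMatrix (finBasisOfFinrankEq k (Vz σ N w z) hf1)).toAlgHom.comp (act w z)
  have hg : Function.Injective g := (algEquivMatrix (finBasisOfFinrankEq k (Vz σ N w z) hf1)).injective.comp hinj
  have hdim : finrank k (cyc σ (N := N) w) = finrank k (Matrix (Fin N) (Fin N) k) := by
    rw [hf2, Module.finrank_matrix, Module.finrank_self, Fintype.card_fin, mul_one]
  have hsurj : Function.Surjective g.toLinearMap :=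
    (LinearMap.injective_iff_surjective_of_finrank_eq_finrank hdim).1 hg
  exact ⟨AlgEquiv.ofBijective g ⟨hg, hsurj⟩⟩

end split

end Pool.Agent.N888.TB
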