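import Pool.Agent.N888.TB.Sp1

/-!
# If the cyclic algebra `(K, σ, w)` is split then `w` is a norm
-/

set_option autoImplicit false
set_option linter.unusedSectionVars false
set_option linter.unusedSimpArgs false

open scoped TensorProduct
open Matrix Module

namespace Pool.Agent.N888.TB

section cyclic

/-- Let the semisimple commutative finite dimensional algebra `E` act faithfully on `V`. Then some
vector has annihilator zero. -/
lemma exists_cyclic {k E V : Type} [Field k] [CommRing E] [Algebra k E] [Module.Finite k E] [IsReduced E]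
    [AddCommGroup V] [Module k V] (ρ : E →ₐ[k] Module.End k V) (hρ : Function.Injective ρ) :
    ∃ v : V, ∀ e, ρ e v = 0 → e = 0 := by
  have hart : IsArtinianRing E := isArtinian_of_tower k inferInstance
  have hss : IsSemisimpleRing E := IsArtinianRing.isSemisimpleRing_of_isReduced E
  let Ann : V → Ideal E := fun v =>
    { carrier := {e | ρ e v = 0}
      add_mem' := fun {a b} ha hb => by
        simp only [Set.mem_ofPred_eq] at ha hb ⊢
        rw [map_add, LinearMap.add_apply, ha, hb, add_zero]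
      zero_mem' := by simp
      smul_mem' := fun c e he => by
        simp only [Set.mem_ofPred_eq] at he ⊢
        rw [smul_eq_mul, map_mul, Module.End.mul_apply, he, map_zero] }
  have hAnn : ∀ v e, e ∈ Ann v ↔ ρ e v = 0 := fun v e => Iff.rfl
  obtain ⟨I, ⟨v, rfl⟩, hmin⟩ := WellFounded.has_min (wellFounded_lt (α := Ideal E)) (Set.range Ann) ⟨_, 0, rfl⟩
  refine ⟨v, ?_⟩
  obtain ⟨e, he, hI⟩ := IsSemisimpleRing.ideal_eq_span_idempotent (Ann v)
  have he1 : e ∈ Ann v := by rw [hI]; exact Ideal.mem_span_singleton_self e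
  by_cases h0 : e = 0
  · intro x hx
    have hx' : x ∈ Ann v := hx
    rw [hI, h0, Ideal.mem_span_singleton, zero_dvd_iff] at hx'
    exact hx'
  · exfalso
    have h1 : ∃ u, ρ e u ≠ 0 := by
      by_contra h
      push Not at h
      apply h0
      apply hρ
      rw [map_zero]
      ext u
      exact h u
    obtain ⟨u, hu⟩ := h1
    have h2 : ρ e (ρ e u) = ρ e u := by
      rw [← Module.End.mul_apply, ← map_mul, he.eq]
    have h3 : ∀ x, ρ x (v + ρ e u) = 0 → ρ x (ρ e u) = 0 := by
      intro x hx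
      have h4 := congrArg (ρ e) hx
      rw [map_zero, ← Module.End.mul_apply, ← map_mul, mul_comm, map_mul, Module.End.mul_apply, map_add,
        (hAnn v e).1 he1, zero_add, h2] at h4
      exact h4
    have h4 : Ann (v + ρ e u) < Ann v := by
      refine lt_of_le_of_ne (fun x hx => ?_) (fun h => ?_)
      · have hx' := (hAnn _ _).1 hx
        have h5 := h3 x hx'
        rw [map_add, h5, add_zero] at hx'
        exact hx'
      · have h5 := he1
        rw [← h, hAnn, map_add, (hAnn v e).1 he1, zero_add, h2] at h5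
        exact hu h5
    exact hmin _ ⟨_, rfl⟩ h4

end cyclic

section norm

variable {K : Type} [Field K] [Algebra ℚ K] {σ : K ≃ₐ[ℚ] K} {N : ℕ} [NeZero N]
  [FiniteDimensional ℚ K] [IsGalois ℚ K] {k : Type} [Field k] [Algebra ℚ k]

instance redE : IsReduced (k ⊗[ℚ] K) := by
  have h1 : Algebra.FormallyUnramified ℚ K := Algebra.FormallyUnramified.of_isSeparable ℚ K
  have h2 : Algebra.FormallyUnramified k (k ⊗[ℚ] K) := Algebra.FormallyUnramified.base_change k
  exact Algebra.FormallyUnramified.isReduced_of_field k (k ⊗[ℚ] K)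

/-- the diagonal elements as an algebra homomorphism -/
noncomputable def dgh (H : Gen σ N) (w : k) : k ⊗[ℚ] K →ₐ[k] cyc σ (N := N) w where
  toFun e := dgc H w e
  map_one' := by
    apply Subtype.ext
    simp [dgc, dg]
  map_mul' x y := by
    apply Subtype.ext
    simp only [dgc, dg, MulMemClass.mk_mul_mk, Matrix.diagonal_mul_diagonal, map_mul]
  map_zero' := by
    apply Subtype.ext
    simp [dgc, dg]
  map_add' x y := by
    apply Subtype.ext
    simp only [dgc, dg, AddMemClass.mk_add_mk, Matrix.diagonal_add, map_add]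
  commutes' s := by
    apply Subtype.ext
    funext i j
    simp only [dgc, dg, AlgHom.commutes, Subalgebra.coe_algebraMap, Matrix.algebraMap_matrix_apply,
      Matrix.diagonal_apply]

lemma dgh_injective (H : Gen σ N) (w : k) : Function.Injective (dgh H w) := by
  intro x y h
  have h1 := congrArg (fun M : cyc σ (N := N) w => M.1 0 0) h
  simp only [dgh, AlgHom.coe_mk, RingHom.coe_mk, MonoidHom.coe_mk, OneHom.coe_mk, dgc, dg,
    Matrix.diagonal_apply_eq, sf_zero] at h1
  exact h1

lemma dg_UU (H : Gen σ N) (w : k) (e : k ⊗[ℚ] K) :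
    UUc H w 1 * dgh H w e = dgh H w (sf σ (-1 : Fin N) e) * UUc H w 1 := by
  apply Subtype.ext
  funext i j
  simp only [dgh, AlgHom.coe_mk, RingHom.coe_mk, MonoidHom.coe_mk, OneHom.coe_mk, dgc, dg, UUc, MulMemClass.mk_mul_mk,
    Matrix.mul_diagonal, Matrix.diagonal_mul, UU]
  rw [← sf_add H]
  by_cases h : i = j + 1
  · have h1 : i + -1 = j := by rw [h]; abel
    rw [h1, mul_comm]
  · rw [if_neg h, zero_mul, mul_zero]

/-- the columns of powers of `u` -/
lemma UU_pow_col (H : Gen σ N) (w : k) (n : ℕ) (hn : n < N) :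
    (fun i => ((UUc H w 1 : cyc σ (N := N) w) ^ n).1 i 0) = Pi.single (⟨n, hn⟩ : Fin N) (1 : k ⊗[ℚ] K) := by
  induction n with
  | zero =>
    funext i
    simp only [pow_zero, OneMemClass.coe_one, Matrix.one_apply, Pi.single_apply]
    congr 1
  | succ n ih =>
    have h1 := ih (by omega)
    funext i
    rw [pow_succ', MulMemClass.coe_mul, Matrix.mul_apply]
    have h2 : ∀ j, ((UUc H w 1 : cyc σ (N := N) w) ^ n).1 j 0 =
      (Pi.single (⟨n, by omega⟩ : Fin N) (1 : k ⊗[ℚ] K) : Fin N → k ⊗[ℚ] K) j := fun j => congrFun h1 j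
    simp only [h2]
    rw [Finset.sum_eq_single (⟨n, by omega⟩ : Fin N)]
    · rw [Pi.single_eq_same, mul_one]
      simp only [UUc, UU]
      have h3 : (⟨n, by omega⟩ + 1 : Fin N) = ⟨n + 1, hn⟩ := by
        apply Fin.ext
        rw [Fin.val_add, Fin.val_one', Nat.mod_eq_of_lt (show 1 < N by omega), Nat.mod_eq_of_lt]
        exact hn
      rw [h3]
      by_cases h4 : i = ⟨n + 1, hn⟩
      · rw [if_pos h4, h4, Pi.single_eq_same, if_neg]
        rw [Fin.lt_def]
        simp
      · rw [if_neg h4, Pi.single_eq_of_ne h4]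
    · intro j _ hj
      rw [Pi.single_eq_of_ne hj, mul_zero]
    · intro h
      exact absurd (Finset.mem_univ _) h

lemma UU_pow (H : Gen σ N) (w : k) (hN : 1 < N) :
    (UUc H w 1 : cyc σ (N := N) w) ^ N = algebraMap k _ w := by
  obtain ⟨m, rfl⟩ : ∃ m, N = m + 1 := ⟨N - 1, by omega⟩
  have h1 := UU_pow_col H w m (by omega)
  have h2 : (fun i => ((UUc H w 1 : cyc σ (N := m + 1) w) ^ (m + 1)).1 i 0) =
      fun i => (algebraMap k (cyc σ (N := m + 1) w) w).1 i 0 := by
    funext i
    rw [pow_succ', MulMemClass.coe_mul, Matrix.mul_apply]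
    have h2 : ∀ j, ((UUc H w 1 : cyc σ (N := m + 1) w) ^ m).1 j 0 =
      (Pi.single (⟨m, by omega⟩ : Fin (m + 1)) (1 : k ⊗[ℚ] K) : Fin (m + 1) → k ⊗[ℚ] K) j := fun j => congrFun h1 j
    simp only [h2]
    rw [Finset.sum_eq_single (⟨m, by omega⟩ : Fin (m + 1))]
    · rw [Pi.single_eq_same, mul_one, Subalgebra.coe_algebraMap, Matrix.algebraMap_matrix_apply]
      simp only [UUc, UU]
      have h3 : (⟨m, by omega⟩ + 1 : Fin (m + 1)) = 0 := by
        apply Fin.ext
        rw [Fin.val_add, Fin.val_one', Nat.mod_eq_of_lt hN, Fin.val_zero]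
        simp only [Nat.mod_self]
      rw [h3]
      by_cases h4 : i = 0
      · rw [if_pos h4, if_pos h4, h4, if_pos]
        rw [Fin.lt_def, Fin.val_zero]
        simp only
        omega
      · rw [if_neg h4, if_neg h4]
    · intro j _ hj
      rw [Pi.single_eq_of_ne hj, mul_zero]
    · intro h
      exact absurd (Finset.mem_univ _) h
  apply Subtype.ext
  rw [eq_mkc σ ((UUc H w 1 : cyc σ (N := m + 1) w) ^ (m + 1)).2, eq_mkc σ (algebraMap k (cyc σ (N := m + 1) w) w).2, h2]

/-- If the algebra is split then `w` is a norm. -/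
theorem norm_of_split (H : Gen σ N) {w : k} {n : ℕ}
    (Φ : cyc σ (N := N) w ≃ₐ[k] Matrix (Fin n) (Fin n) k) :
    ∃ z : k ⊗[ℚ] K, ∏ i : Fin N, sf σ i z = algebraMap k (k ⊗[ℚ] K) w := by
  by_cases hN : N = 1
  · subst hN
    refine ⟨algebraMap k (k ⊗[ℚ] K) w, ?_⟩
    rw [Fin.prod_univ_one]
    exact AlgHom.commutes _ _
  have hN1 : 1 < N := by
    have := NeZero.pos N
    omega
  have hn : n = N := by
    have h1 := Φ.toLinearEquiv.finrank_eq
    rw [finrank_cyc H, Module.finrank_matrix, Module.finrank_self, Fintype.card_fin, mul_one] at h1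
    exact (Nat.mul_self_inj.1 h1).symm
  subst hn
  let Ψ : cyc σ (N := n) w →ₐ[k] Module.End k (Fin n → k) := (Matrix.toLinAlgEquiv' (R := k) (n := Fin n)).toAlgHom.comp Φ.toAlgHom
  have hΨ : Function.Injective Ψ := (Matrix.toLinAlgEquiv' (R := k) (n := Fin n)).injective.comp Φ.injective
  let ρ : k ⊗[ℚ] K →ₐ[k] Module.End k (Fin n → k) := Ψ.comp (dgh H w)
  have hρ : Function.Injective ρ := hΨ.comp (dgh_injective H w)
  obtain ⟨v, hv⟩ := exists_cyclic ρ hρ
  let U : Module.End k (Fin n → k) := Ψ (UUc H w 1)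
  have hU : ∀ e x, U (ρ e x) = ρ (sf σ (-1 : Fin n) e) (U x) := by
    intro e x
    have h1 := congrArg Ψ (dg_UU H w e)
    rw [map_mul, map_mul] at h1
    exact LinearMap.congr_fun h1 x
  have hUn : U ^ n = algebraMap k _ w := by
    have h1 := congrArg Ψ (UU_pow H w hN1)
    rw [map_pow, AlgHom.commutes] at h1
    exact h1
  -- surjectivity
  let g : k ⊗[ℚ] K →ₗ[k] (Fin n → k) := (LinearMap.applyₗ v).comp ρ.toLinearMap
  have hg : ∀ e, g e = ρ e v := fun e => rfl
  have hginj : Function.Injective g := by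
    rw [injective_iff_map_eq_zero]
    exact hv
  have hgs : Function.Surjective g := by
    refine (LinearMap.injective_iff_surjective_of_finrank_eq_finrank ?_).1 hginj
    rw [finrank_E H, Module.finrank_pi, Fintype.card_fin]
  obtain ⟨z, hz⟩ := hgs (U v)
  rw [hg] at hz
  have hpow : ∀ j : ℕ, (U ^ j) v = ρ (∏ i ∈ Finset.range j, (sf σ (-1 : Fin n))^[i] z) v := by
    intro j
    induction j with
    | zero => simp
    | succ j ih =>
      rw [pow_succ', Module.End.mul_apply, ih, hU, ← hz, ← Module.End.mul_apply, ← map_mul, map_prod,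
        Finset.prod_range_succ']
      simp only [Function.iterate_succ_apply', Function.iterate_zero, id_eq]
  have h1 := hpow n
  rw [hUn, Module.algebraMap_end_apply] at h1
  have h2 : ∏ i ∈ Finset.range n, (sf σ (-1 : Fin n))^[i] z = algebraMap k (k ⊗[ℚ] K) w := by
    rw [← sub_eq_zero]
    apply hv
    rw [map_sub, LinearMap.sub_apply, ← h1, AlgHom.commutes, Module.algebraMap_end_apply, sub_self]
  refine ⟨z, ?_⟩
  rw [← h2, Finset.prod_range]
  rw [← Equiv.prod_comp (Equiv.neg (Fin n))]
  refine Finset.prod_congr rfl fun i _ => ?_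
  simp only [Equiv.neg_apply]
  have h3 : ∀ m : ℕ, ∀ i : Fin n, i.val = m → sf σ (-i) z = (sf σ (-1 : Fin n))^[m] z := by
    intro m
    induction m with
    | zero =>
      intro i hi
      have : i = 0 := Fin.ext (by rw [hi, Fin.val_zero])
      rw [this, neg_zero, sf_zero]
      rfl
    | succ m ih =>
      intro i hi
      obtain ⟨i', hi'⟩ : ∃ i' : Fin n, i' + 1 = i := ⟨i - 1, by abel⟩
      have h0 : i' + 1 ≠ 0 := by
        rw [hi']
        intro h0
        rw [h0, Fin.val_zero] at hi
        omega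
      have h4 := fin_val_add_one h0
      rw [hi'] at h4
      rw [Function.iterate_succ_apply', ← ih i' (by omega), ← sf_add H, ← hi']
      congr 2
      abel
  exact h3 i.val i rfl

/-- The cyclic algebra is split if and only if `w` is a norm. -/
theorem split_iff (H : Gen σ N) {w : k} (hw : w ≠ 0) :
    (∃ n : ℕ, Nonempty (cyc σ (N := N) w ≃ₐ[k] Matrix (Fin n) (Fin n) k)) ↔
      ∃ z : k ⊗[ℚ] K, ∏ i : Fin N, sf σ i z = algebraMap k (k ⊗[ℚ] K) w := by
  constructor
  · rintro ⟨n, ⟨Φ⟩⟩
    exact norm_of_split H Φ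
  · rintro ⟨z, hz⟩
    exact ⟨N, split_of_norm H hw hz⟩

end norm

end Pool.Agent.N888.TB
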